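import Pool.Agent.TH176.Nag.Defs

/-! NAG-I1: elements of the `w`-th power of the ideal of a torus point satisfy the logarithmic
conditions `LM` of order `w`. -/

namespace Pool.Agent.TH671.NagI1

open Finset Pool.Agent.TH176.Nag

variable {K : Type*} [Field K]

/-- multiply the coefficient of `m` by `l m` -/
noncomputable def DD (l : ℤ × ℤ → K) (f : Lau K) : Lau K :=
  AddMonoidAlgebra.ofCoeff (Finsupp.onFinset f.coeff.support (fun m => l m * f.coeff m)
    (fun m hm => by
      rw [Finsupp.mem_support_iff]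
      exact right_ne_zero_of_mul hm))

theorem DD_coeff (l : ℤ × ℤ → K) (f : Lau K) (m : ℤ × ℤ) :
    (DD l f).coeff m = l m * f.coeff m := rfl

theorem DD_add (l : ℤ × ℤ → K) (f g : Lau K) : DD l (f + g) = DD l f + DD l g := by
  ext m
  simp only [DD_coeff, AddMonoidAlgebra.coeff_add, Finsupp.add_apply]
  ring

theorem DD_zero (l : ℤ × ℤ → K) : DD l (0 : Lau K) = 0 := by
  ext m
  simp [DD_coeff]

theorem DD_single (l : ℤ × ℤ → K) (m : ℤ × ℤ) (c : K) :
    DD l (AddMonoidAlgebra.single m c) = AddMonoidAlgebra.single m (l m * c) := by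
  classical
  ext m'
  rw [DD_coeff, AddMonoidAlgebra.coeff_single, AddMonoidAlgebra.coeff_single,
    Finsupp.single_apply, Finsupp.single_apply]
  split_ifs with h
  · rw [h]
  · simp

theorem DD_mul {l : ℤ × ℤ → K} (hl : ∀ m m', l (m + m') = l m + l m') (f g : Lau K) :
    DD l (f * g) = DD l f * g + f * DD l g := by
  induction f using AddMonoidAlgebra.induction_linear with
  | zero => simp [DD_zero]
  | add f f' hf hf' => rw [add_mul, DD_add, hf, hf', DD_add]; ring
  | single m r =>
    induction g using AddMonoidAlgebra.induction_linear with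
    | zero => simp [DD_zero]
    | add g g' hg hg' => rw [mul_add, DD_add, hg, hg', DD_add]; ring
    | single m' r' =>
      rw [AddMonoidAlgebra.single_mul_single, DD_single, DD_single, DD_single,
        AddMonoidAlgebra.single_mul_single, AddMonoidAlgebra.single_mul_single,
        ← AddMonoidAlgebra.single_add, hl]
      congr 1
      ring

theorem DD_mem_pow {l : ℤ × ℤ → K} (hl : ∀ m m', l (m + m') = l m + l m') (I : Ideal (Lau K))
    (k : ℕ) {f : Lau K} (hf : f ∈ I ^ (k + 1)) : DD l f ∈ I ^ k := by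
  induction k generalizing f with
  | zero => simp
  | succ k ih =>
    rw [pow_succ] at hf
    refine Submodule.mul_induction_on hf ?_ ?_
    · intro a ha b hb
      rw [DD_mul hl]
      refine Ideal.add_mem _ ?_ ?_
      · rw [pow_succ]
        exact Ideal.mul_mem_mul (ih ha) hb
      · exact Ideal.mul_mem_right _ _ ha
    · intro a b ha hb
      rw [DD_add]
      exact Ideal.add_mem _ ha hb

theorem DD_iter_mem_pow {l : ℤ × ℤ → K} (hl : ∀ m m', l (m + m') = l m + l m') (I : Ideal (Lau K))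
    (a k : ℕ) {f : Lau K} (hf : f ∈ I ^ (k + a)) : (DD l)^[a] f ∈ I ^ k := by
  induction a generalizing f with
  | zero => simpa using hf
  | succ a ih =>
    rw [Function.iterate_succ_apply]
    exact ih (DD_mem_pow hl I (k + a) hf)

theorem pr_DD (l : ℤ × ℤ → K) (f : Lau K) (x y : K) (P : K × K → K) (q : K × K → K)
    (hq : ∀ m : ℤ × ℤ, q ((m.1 : K), (m.2 : K)) = l m) :
    pr (DD l f).coeff x y P = pr f.coeff x y (fun u => q u * P u) := by
  unfold pr
  rw [Finsupp.sum_of_support_subset (s := f.coeff.support)]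
  · unfold Finsupp.sum
    apply sum_congr rfl
    intro m _
    simp only [DD_coeff, hq]
    ring
  · intro m hm
    rw [Finsupp.mem_support_iff, DD_coeff] at hm
    rw [Finsupp.mem_support_iff]
    exact right_ne_zero_of_mul hm
  · intro m _
    simp

theorem pr_DD_iter (l : ℤ × ℤ → K) (f : Lau K) (x y : K) (P : K × K → K) (q : K × K → K)
    (hq : ∀ m : ℤ × ℤ, q ((m.1 : K), (m.2 : K)) = l m) (a : ℕ) :
    pr ((DD l)^[a] f).coeff x y P = pr f.coeff x y (fun u => q u ^ a * P u) := by
  induction a generalizing P with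
  | zero => simp
  | succ a ih =>
    rw [Function.iterate_succ_apply', pr_DD l _ x y P q hq, ih]
    congr 1
    funext u
    rw [pow_succ]
    ring

theorem ev_eq_pr {x y : K} (ev : Lau K →ₐ[K] K)
    (hev : ∀ m : ℤ × ℤ, ev (mon K m) = x ^ m.1 * y ^ m.2) (f : Lau K) :
    ev f = pr f.coeff x y (fun _ => 1) := by
  induction f using AddMonoidAlgebra.induction_linear with
  | zero => simp [pr]
  | add f g hf hg =>
    rw [map_add, hf, hg]
    unfold pr
    rw [AddMonoidAlgebra.coeff_add, Finsupp.sum_add_index' (by simp) (by intro m a b; ring)]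
  | single m r =>
    have h1 : (AddMonoidAlgebra.single m r : Lau K) = r • mon K m := by
      unfold mon
      rw [AddMonoidAlgebra.smul_single, smul_eq_mul, mul_one]
    unfold pr
    rw [AddMonoidAlgebra.coeff_single, Finsupp.sum_single_index (by simp), h1, map_smul, hev,
      smul_eq_mul, mul_one]

theorem LM_of_mem_ker_pow {K : Type*} [Field K] {x y : K} (hx : x ≠ 0) (hy : y ≠ 0)
    (ev : Lau K →ₐ[K] K) (hev : ∀ m : ℤ × ℤ, ev (mon K m) = x ^ m.1 * y ^ m.2)
    {g : Lau K} {w : ℕ} (hg : g ∈ (RingHom.ker (ev : Lau K →+* K)) ^ w) : LM g.coeff x y w := by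
  apply LM_of_mono
  intro a b hab
  set I := RingHom.ker (ev : Lau K →+* K) with hI
  obtain ⟨k, rfl⟩ : ∃ k, w = (k + 1) + b + a := ⟨w - (a + b) - 1, by omega⟩
  have h1 : (DD (fun m : ℤ × ℤ => (m.1 : K)))^[a] g ∈ I ^ ((k + 1) + b) :=
    DD_iter_mem_pow (by intro m m'; push_cast [Prod.fst_add]; ring) I a _ hg
  have h2 : (DD (fun m : ℤ × ℤ => (m.2 : K)))^[b] ((DD (fun m : ℤ × ℤ => (m.1 : K)))^[a] g)
      ∈ I ^ (k + 1) :=
    DD_iter_mem_pow (by intro m m'; push_cast [Prod.snd_add]; ring) I b _ h1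
  have h3 := Ideal.pow_le_self (Nat.succ_ne_zero k) h2
  rw [hI, RingHom.mem_ker] at h3
  have h4 := ev_eq_pr ev hev ((DD (fun m : ℤ × ℤ => (m.2 : K)))^[b]
    ((DD (fun m : ℤ × ℤ => (m.1 : K)))^[a] g))
  have h5 : ev ((DD (fun m : ℤ × ℤ => (m.2 : K)))^[b]
    ((DD (fun m : ℤ × ℤ => (m.1 : K)))^[a] g)) = 0 := h3
  rw [h5, pr_DD_iter _ _ x y _ (fun u => u.2) (fun _ => rfl) b,
    pr_DD_iter _ _ x y _ (fun u => u.1) (fun _ => rfl) a] at h4
  rw [h4]
  congr 1
  funext u
  ring

end Pool.Agent.TH671.NagI1
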