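import Mathlib
import Pool.Agent.TH278.Defs3
import Pool.Agent.TH554.J639
import Pool.Agent.TH26.J667
import Pool.Agent.TH26.J668
import Pool.Agent.TH429.J635
import Pool.Agent.H438R2.RZ.R3
set_option autoImplicit false

/-! # Core interpolation, `p ≥ 2` (job 716): Tonelli lemmas and the cube -/

namespace Pool.Agent.TH671.J716

open MeasureTheory Set Complex
open scoped ENNReal RealInnerProductSpace
open Pool.Agent.TH278
open Pool.Agent.H438R2.RZ (e Good ft Pl Bump TR)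
open Pool.Agent.H789R2.FR (E)

/-! ### coordinates -/

@[simp] lemma inp_zero {k : ℕ} (z : ℝ × ℝ) (w : E k) : inp z w 0 = z.1 := rfl

@[simp] lemma inp_one {k : ℕ} (z : ℝ × ℝ) (w : E k) : inp z w 1 = z.2 := rfl

@[simp] lemma inp_ss {k : ℕ} (z : ℝ × ℝ) (w : E k) (i : Fin k) : inp z w i.succ.succ = w i := rfl

@[simp] lemma ins_same {m : ℕ} (i : Fin (m + 1)) (s : ℝ) (y : E m) : ins i s y i = s := by
  simp [ins]

@[simp] lemma ins_succAbove {m : ℕ} (i : Fin (m + 1)) (s : ℝ) (y : E m) (j : Fin m) :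
    ins i s y (i.succAbove j) = y j := by
  simp [ins]

lemma ins_update {m : ℕ} (i : Fin (m + 1)) (s t : ℝ) (y : E m) :
    (WithLp.toLp 2 (Function.update (⇑(ins i s y)) i t) : E (m + 1)) = ins i t y := by
  ext j
  rcases eq_or_ne j i with rfl | hj
  · simp [ins]
  · obtain ⟨l, rfl⟩ := Fin.exists_succAbove_eq hj
    simp [ins]

/-! ### Tonelli -/

lemma lint_ins (m : ℕ) (i : Fin (m + 1)) (F : E (m + 1) → ℝ≥0∞) (hF : Measurable F) :
    ∫⁻ x, F x = ∫⁻ s : ℝ, ∫⁻ y : E m, F (ins i s y) := by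
  obtain ⟨ι, h1, h2, -, -⟩ := Pool.Agent.TH554.J639.ins_equiv m i
  have h3 := h2.lintegral_comp_emb ι.measurableEmbedding F
  rw [← h3]
  have h4 : (∫⁻ x : ℝ × E m, F (ι x)) = ∫⁻ s : ℝ, ∫⁻ y : E m, F (ι (s, y)) :=
    lintegral_prod (μ := (volume : Measure ℝ)) (ν := (volume : Measure (E m)))
      (fun x => F (ι x)) (hF.comp ι.measurable).aemeasurable
  rw [h4]
  simp only [h1]

lemma meas_ins (m : ℕ) (i : Fin (m + 1)) :
    Measurable fun p : ℝ × E m => ins i p.1 p.2 := by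
  obtain ⟨ι, h1, h2, -, -⟩ := Pool.Agent.TH554.J639.ins_equiv m i
  have : (fun p : ℝ × E m => ins i p.1 p.2) = ι := by
    funext p
    exact (h1 p).symm
  rw [this]
  exact ι.measurable

lemma lint_ins' (m : ℕ) (i : Fin (m + 1)) (F : E (m + 1) → ℝ≥0∞) (hF : Measurable F) :
    ∫⁻ x, F x = ∫⁻ y : E m, ∫⁻ s : ℝ, F (ins i s y) := by
  rw [lint_ins m i F hF]
  exact lintegral_lintegral_swap (hF.comp (meas_ins m i)).aemeasurable

lemma lint_inp (k : ℕ) (F : E (k + 2) → ℝ≥0∞) (hF : Measurable F) :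
    ∫⁻ x, F x = ∫⁻ z : ℝ × ℝ, ∫⁻ w : E k, F (inp z w) := by
  obtain ⟨ι, h1, h2, -, -⟩ := Pool.Agent.TH554.J639.inp_equiv k
  have h3 := h2.lintegral_comp_emb ι.measurableEmbedding F
  rw [← h3]
  have h4 : (∫⁻ x : (ℝ × ℝ) × E k, F (ι x)) =
      ∫⁻ z : ℝ × ℝ, ∫⁻ w : E k, F (ι (z, w)) :=
    lintegral_prod (μ := (volume : Measure (ℝ × ℝ))) (ν := (volume : Measure (E k)))
      (fun x => F (ι x)) (hF.comp ι.measurable).aemeasurable
  rw [h4]
  simp only [h1]

lemma meas_inp (k : ℕ) :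
    Measurable fun p : (ℝ × ℝ) × E k => inp p.1 p.2 := by
  obtain ⟨ι, h1, h2, -, -⟩ := Pool.Agent.TH554.J639.inp_equiv k
  have : (fun p : (ℝ × ℝ) × E k => inp p.1 p.2) = ι := by
    funext p
    exact (h1 p).symm
  rw [this]
  exact ι.measurable

/-- integral of a product of functions of one variable -/
lemma lint_prod1 (k : ℕ) (θ : Fin k → ℝ → ℝ≥0∞) (hθ : ∀ i, Measurable (θ i)) :
    ∫⁻ w : E k, ∏ i, θ i (w i) = ∏ i, ∫⁻ s, θ i s := by
  have h0 : ∀ (k : ℕ) (θ : Fin k → ℝ → ℝ≥0∞), (∀ i, Measurable (θ i)) →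
      ∫⁻ w : Fin k → ℝ, ∏ i, θ i (w i) = ∏ i, ∫⁻ s, θ i s := by
    intro k
    induction k with
    | zero =>
      intro θ _
      simp only [Finset.univ_eq_empty, Finset.prod_empty]
      rw [lintegral_const]
      simp [Measure.volume_pi_eq_dirac (0 : Fin 0 → ℝ)]
    | succ k ih =>
      intro θ hθ
      rw [J668.lint_cons k (fun w : Fin (k + 1) → ℝ => ∏ i, θ i (w i))
        (Finset.measurable_fun_prod _ fun i _ => (hθ i).comp (measurable_pi_apply i))]
      simp only [Fin.prod_univ_succ, Fin.cons_zero, Fin.cons_succ]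
      have h1 : ∀ a : ℝ, ∫⁻ w : Fin k → ℝ, θ 0 a * ∏ i : Fin k, θ i.succ (w i) =
          θ 0 a * ∏ i : Fin k, ∫⁻ s, θ i.succ s := by
        intro a
        have h2 : Measurable fun w : Fin k → ℝ => ∏ i : Fin k, θ i.succ (w i) :=
          Finset.measurable_fun_prod _ fun i _ => (hθ i.succ).comp (measurable_pi_apply i)
        rw [lintegral_const_mul _ h2, ih (fun i => θ i.succ) fun i => hθ i.succ]
      simp only [h1]
      rw [lintegral_mul_const _ (hθ 0)]
  rw [J668.lint_toLp]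
  exact h0 k θ hθ

lemma lint_prod (k : ℕ) (γ : ℝ × ℝ → ℝ≥0∞) (θ : Fin k → ℝ → ℝ≥0∞) (hγ : Measurable γ)
    (hθ : ∀ i, Measurable (θ i)) :
    ∫⁻ x : E (k + 2), γ (x 0, x 1) * ∏ i : Fin k, θ i (x i.succ.succ) =
      (∫⁻ z, γ z) * ∏ i, ∫⁻ s, θ i s := by
  have hm : Measurable fun x : E (k + 2) => γ (x 0, x 1) * ∏ i : Fin k, θ i (x i.succ.succ) := by
    refine (hγ.comp ?_).mul (Finset.measurable_fun_prod _ fun i _ => (hθ i).comp ?_)
    · fun_prop
    · fun_prop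
  rw [lint_inp k _ hm]
  simp only [inp_zero, inp_one, inp_ss]
  have h1 : ∀ z : ℝ × ℝ, ∫⁻ w : E k, γ (z.1, z.2) * ∏ i : Fin k, θ i (w i) =
      γ z * ∏ i, ∫⁻ s, θ i s := by
    intro z
    rw [lintegral_const_mul, lint_prod1 k θ hθ]
    refine Finset.measurable_fun_prod _ fun i _ => (hθ i).comp ?_
    fun_prop
  simp only [h1]
  rw [lintegral_mul_const _ hγ]

/-! ### the cube -/

lemma cube_meas (n : ℕ) (B : ℝ) : MeasurableSet (Cube n B) := by
  unfold Cube
  rw [Set.ofPred_forall]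
  refine MeasurableSet.iInter fun i => ?_
  exact measurableSet_le (by fun_prop) (by fun_prop)

lemma cube_inp (k : ℕ) (B : ℝ) (z : ℝ × ℝ) (w : E k) :
    inp z w ∈ Cube (k + 2) B ↔ z ∈ Icc (-B) B ×ˢ Icc (-B) B ∧ w ∈ Cube k B := by
  constructor
  · intro h
    refine ⟨?_, fun i => ?_⟩
    · have h0 := h 0
      have h1 := h 1
      simp only [inp_zero, inp_one] at h0 h1
      exact ⟨abs_le.1 h0, abs_le.1 h1⟩
    · exact h i.succ.succ
  · rintro ⟨⟨h0, h1⟩, h2⟩ j
    refine Fin.cases ?_ (fun j => ?_) j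
    · exact abs_le.2 h0
    · refine Fin.cases ?_ (fun j => ?_) j
      · exact abs_le.2 h1
      · exact h2 j

lemma cube_ins (m : ℕ) (B : ℝ) (i : Fin (m + 1)) (s : ℝ) (y : E m) :
    ins i s y ∈ Cube (m + 1) B ↔ s ∈ Icc (-B) B ∧ y ∈ Cube m B := by
  constructor
  · intro h
    refine ⟨?_, fun j => ?_⟩
    · have h0 := h i
      rw [ins_same] at h0
      exact abs_le.1 h0
    · have h0 := h (i.succAbove j)
      rwa [ins_succAbove] at h0
  · rintro ⟨h0, h1⟩ j
    rcases eq_or_ne j i with rfl | hj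
    · rw [ins_same]
      exact abs_le.2 h0
    · obtain ⟨l, rfl⟩ := Fin.exists_succAbove_eq hj
      rw [ins_succAbove]
      exact h1 l

lemma cube_coord {k : ℕ} {B : ℝ} {x : E (k + 2)} :
    x ∈ Cube (k + 2) B ↔ (x 0, x 1) ∈ Icc (-B) B ×ˢ Icc (-B) B ∧
      ∀ i : Fin k, x i.succ.succ ∈ Icc (-B) B := by
  constructor
  · intro h
    exact ⟨⟨abs_le.1 (h 0), abs_le.1 (h 1)⟩, fun i => abs_le.1 (h i.succ.succ)⟩
  · rintro ⟨⟨h0, h1⟩, h2⟩ j
    refine Fin.cases ?_ (fun j => ?_) j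
    · exact abs_le.2 h0
    · refine Fin.cases ?_ (fun j => ?_) j
      · exact abs_le.2 h1
      · exact abs_le.2 (h2 j)

lemma cube_norm {n : ℕ} {B : ℝ} {x : E n} (hB : 0 ≤ B) (hx : x ∈ Cube n B) :
    ‖x‖ ≤ n * B + 1 := by
  have h1 : ‖x‖ ^ 2 ≤ (n * B + 1) ^ 2 := by
    rw [EuclideanSpace.norm_sq_eq]
    calc ∑ i, ‖x i‖ ^ 2 ≤ ∑ _i : Fin n, B ^ 2 := by
          refine Finset.sum_le_sum fun i _ => ?_
          have := hx i
          rw [Real.norm_eq_abs]
          exact pow_le_pow_left₀ (abs_nonneg _) this 2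
      _ = n * B ^ 2 := by simp
      _ ≤ (n * B + 1) ^ 2 := by
          have hn : (0 : ℝ) ≤ n := Nat.cast_nonneg n
          rcases Nat.eq_zero_or_pos n with rfl | hn1
          · simp
          · have hn1' : (1 : ℝ) ≤ n := by exact_mod_cast hn1
            nlinarith [mul_nonneg hn hB, mul_nonneg (mul_nonneg hn hB) hB,
              mul_nonneg (mul_nonneg (sub_nonneg.2 hn1') hn) (mul_nonneg hB hB)]
  have hn : (0 : ℝ) ≤ n * B := mul_nonneg (Nat.cast_nonneg n) hB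
  nlinarith [norm_nonneg x]

lemma cube_vol (n : ℕ) (B : ℝ) (hB : 0 ≤ B) :
    volume (Cube n B) = ENNReal.ofReal (2 * B) ^ n := by
  have h1 : volume (Cube n B) = ∫⁻ x : E n, (Cube n B).indicator 1 x := by
    rw [lintegral_indicator_one (cube_meas n B)]
  have h2 : ∀ x : E n, (Cube n B).indicator (1 : E n → ℝ≥0∞) x =
      ∏ i, (Icc (-B) B).indicator (1 : ℝ → ℝ≥0∞) (x i) := by
    intro x
    by_cases hx : x ∈ Cube n B
    · rw [indicator_of_mem hx]
      symm
      refine Finset.prod_eq_one fun i _ => ?_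
      rw [indicator_of_mem (show x i ∈ Icc (-B) B from abs_le.1 (hx i))]
      rfl
    · rw [indicator_of_notMem hx]
      obtain ⟨i, hi⟩ : ∃ i, ¬ |x i| ≤ B := by
        by_contra hcon
        push Not at hcon
        exact hx hcon
      symm
      refine Finset.prod_eq_zero (Finset.mem_univ i) ?_
      have hi' : x i ∉ Icc (-B) B := fun h => hi (abs_le.2 h)
      exact indicator_of_notMem hi' _
  rw [h1]
  simp only [h2]
  rw [lint_prod1 n _ fun i => measurable_one.indicator measurableSet_Icc]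
  simp only [lintegral_indicator_one measurableSet_Icc, Real.volume_Icc]
  rw [Finset.prod_const, Finset.card_univ, Fintype.card_fin]
  congr 2
  ring

lemma cube_vol_lt_top (n : ℕ) (B : ℝ) (hB : 0 ≤ B) : volume (Cube n B) < ⊤ := by
  rw [cube_vol n B hB]
  exact ENNReal.pow_lt_top ENNReal.ofReal_lt_top

lemma cube_vol_pos (n : ℕ) (B : ℝ) (hB : 0 < B) : 0 < volume (Cube n B) := by
  rw [cube_vol n B hB.le]
  exact ENNReal.pow_pos (ENNReal.ofReal_pos.2 (by linarith)) n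

end Pool.Agent.TH671.J716
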