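import Mathlib
import Pool.Agent.TH671.J716A
set_option autoImplicit false

/-! # Core interpolation, `p ≥ 2` (job 716): the kernel and the bilinear form -/

namespace Pool.Agent.TH671.J716

open MeasureTheory Set Complex
open scoped ENNReal RealInnerProductSpace
open Pool.Agent.TH278
open Pool.Agent.H438R2.RZ (e Good ft Pl Bump TR)
open Pool.Agent.H789R2.FR (E)

variable {n : ℕ} {ψ : ℝ → ℝ} {L : ℝ}

/-- the kernel -/
noncomputable def Ker (n : ℕ) (ψ : ℝ → ℝ) (L : ℝ) (x : E n) : ℂ :=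
  ∫ ξ : E n, ((ML ψ L (‖ξ‖ ^ 2) : ℝ) : ℂ) * e (⟪x, ξ⟫ : ℝ)

lemma ML_cont (hψ : Bump ψ) : Continuous (ML ψ L) := by
  have h := hψ.1.continuous
  unfold ML
  fun_prop

lemma ML_zero (hψ : Bump ψ) : ∀ u, 2 < u → ML ψ L u = 0 := by
  intro u hu
  unfold ML
  by_contra h
  have h1 := (hψ.2 _ h).1
  nlinarith [sq_nonneg L]

lemma Ker_bd (ψ : ℝ → ℝ) (L : ℝ) :
    ∃ M : ℝ, ∀ x, ‖Ker n ψ L x‖ ≤ M := by
  refine ⟨∫ ξ : E n, ‖((ML ψ L (‖ξ‖ ^ 2) : ℝ) : ℂ)‖, fun x => ?_⟩
  refine (norm_integral_le_integral_norm _).trans (le_of_eq ?_)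
  refine integral_congr_ae (ae_of_all _ fun ξ => ?_)
  simp [Pool.Agent.TH554.J639.e_norm]

lemma Ker_meas (hψ : Bump ψ) : Measurable (Ker n ψ L) := by
  have : StronglyMeasurable (Function.uncurry (fun (x ξ : E n) =>
      ((ML ψ L (‖ξ‖ ^ 2) : ℝ) : ℂ) * e (⟪x, ξ⟫ : ℝ))) := by
    refine Continuous.stronglyMeasurable ?_
    have h := ML_cont (L := L) hψ
    have h2 := Pool.Agent.TH554.J639.e_cont
    exact (Complex.continuous_ofReal.comp (h.comp (by fun_prop))).mul (h2.comp (by fun_prop))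
  exact this.integral_prod_right.measurable

lemma TR_ker (hψ : Bump ψ) (f : E n → ℂ) (hf : Integrable f) (x : E n) :
    TR n (ML ψ L) f x = ∫ y : E n, Ker n ψ L (x - y) * f y :=
  Pool.Agent.H438R2.RZ.TR_conv n (ML ψ L) (ML_cont hψ) (ML_zero hψ) f hf x

lemma TR_bd (hψ : Bump ψ) (f : E n → ℂ) (hf : Integrable f) :
    ∃ M : ℝ, 0 ≤ M ∧ ∀ x, ‖TR n (ML ψ L) f x‖ ≤ M := by
  obtain ⟨M, hM⟩ := Ker_bd (n := n) ψ L
  have hM0 : 0 ≤ M := (norm_nonneg _).trans (hM 0)
  refine ⟨∫ y, M * ‖f y‖, integral_nonneg fun y => mul_nonneg hM0 (norm_nonneg _), fun x => ?_⟩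
  rw [TR_ker hψ f hf x]
  refine norm_integral_le_of_norm_le (hf.norm.const_mul M) (ae_of_all _ fun y => ?_)
  rw [norm_mul]
  exact mul_le_mul_of_nonneg_right (hM _) (norm_nonneg _)

lemma TR_meas (hψ : Bump ψ) (f : E n → ℂ) (hfm : Measurable f) (hf : Integrable f) :
    Measurable (TR n (ML ψ L) f) := by
  have h0 : TR n (ML ψ L) f = fun x => ∫ y : E n, Ker n ψ L (x - y) * f y := by
    funext x
    exact TR_ker hψ f hf x
  rw [h0]
  have : StronglyMeasurable (Function.uncurry (fun (x y : E n) => Ker n ψ L (x - y) * f y)) := by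
    refine Measurable.stronglyMeasurable ?_
    exact ((Ker_meas hψ).comp (measurable_fst.sub measurable_snd)).mul (hfm.comp measurable_snd)
  exact this.integral_prod_right.measurable

lemma goodN_int {f : E n → ℂ} (hf : GoodN f) : Integrable f := by
  obtain ⟨hm, ⟨M, hM⟩, B, hB⟩ := hf
  have h1 : IntegrableOn f (Metric.closedBall (0 : E n) B) := by
    refine Measure.integrableOn_of_bounded (M := M) measure_closedBall_lt_top.ne
      hm.aestronglyMeasurable (ae_of_all _ hM)
  have h2 : (Metric.closedBall (0 : E n) B).indicator f = f := by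
    refine indicator_eq_self.2 fun x hx => ?_
    rw [mem_closedBall_zero_iff]
    exact hB x hx
  rw [← h2]
  exact h1.integrable_indicator Metric.isClosed_closedBall.measurableSet

/-- functions supported in the cube are good -/
lemma good_ind {B : ℝ} (hB : 0 ≤ B) {a : E n → ℂ} (ha : Measurable a) {M : ℝ}
    (hM : ∀ x, ‖a x‖ ≤ M) : GoodN ((Cube n B).indicator a) := by
  have hM0 : 0 ≤ M := (norm_nonneg _).trans (hM 0)
  refine ⟨ha.indicator (cube_meas n B), ⟨M, fun x => ?_⟩, n * B + 1, fun x hx => ?_⟩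
  · by_cases hx : x ∈ Cube n B
    · rw [indicator_of_mem hx]
      exact hM x
    · rw [indicator_of_notMem hx, norm_zero]
      exact hM0
  · refine cube_norm hB ?_
    by_contra h
    exact hx (indicator_of_notMem h _)

/-- the bilinear form on the cube -/
lemma form_eq (hψ : Bump ψ) {B : ℝ} (hB : 0 ≤ B) (a b w : E n → ℂ) (ha : Measurable a)
    (hab : ∃ M : ℝ, ∀ x, ‖a x‖ ≤ M) :
    ∫ x in Cube n B, ∫ y in Cube n B, Ker n ψ L (x - y) * w x * a y * b x =
      Bf ψ L ((Cube n B).indicator a) ((Cube n B).indicator (fun x => w x * b x)) := by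
  obtain ⟨M, hM⟩ := hab
  have hg := goodN_int (good_ind hB ha hM)
  unfold Bf
  rw [← integral_indicator (cube_meas n B)]
  refine integral_congr_ae (ae_of_all _ fun x => ?_)
  simp only
  rw [TR_ker hψ _ hg x]
  by_cases hx : x ∈ Cube n B
  · rw [indicator_of_mem hx, indicator_of_mem hx, ← integral_indicator (cube_meas n B),
      ← integral_mul_const]
    refine integral_congr_ae (ae_of_all _ fun y => ?_)
    simp only
    by_cases hy : y ∈ Cube n B
    · rw [indicator_of_mem hy, indicator_of_mem hy]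
      ring
    · rw [indicator_of_notMem hy, indicator_of_notMem hy]
      ring
  · rw [indicator_of_notMem hx, indicator_of_notMem hx, mul_zero]

end Pool.Agent.TH671.J716
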