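import Mathlib
import Pool.Agent.TH671.J716B
set_option autoImplicit false

/-! # Core interpolation, `p ≥ 2` (job 716): products of powers -/

namespace Pool.Agent.TH671.J716

open MeasureTheory Set Complex
open scoped ENNReal RealInnerProductSpace
open Pool.Agent.TH278
open Pool.Agent.H438R2.RZ (e Good ft Pl Bump TR)
open Pool.Agent.H789R2.FR (E)

variable {k : ℕ}

/-- the data -/
structure Dat (k : ℕ) (p B m M : ℝ) (g : ℝ × ℝ → ℝ) (φ : Fin k → ℝ → ℝ) : Prop where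
  hB : 0 < B
  hp : 0 < p
  hg : Measurable g
  hφ : ∀ i, Measurable (φ i)
  hm : 0 < m
  hgb : ∀ z, m ≤ g z ∧ g z ≤ M
  hφb : ∀ i s, m ≤ φ i s ∧ φ i s ≤ M
  hgi : ∫⁻ z in Icc (-B) B ×ˢ Icc (-B) B, ENNReal.ofReal (g z ^ p) ≤ 1
  hφi : ∀ i, ∫⁻ s in Icc (-B) B, ENNReal.ofReal (φ i s ^ p) ≤ 1

/-- products of powers -/
noncomputable def PP (g : ℝ × ℝ → ℝ) (φ : Fin k → ℝ → ℝ) (α : ℝ) (β : Fin k → ℝ)
    (x : E (k + 2)) : ℝ :=
  g (x 0, x 1) ^ α * ∏ i : Fin k, φ i (x i.succ.succ) ^ β i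

/-- powers of a function between two positive bounds -/
lemma rpow_bds {m M : ℝ} (hm : 0 < m) (hmM : m ≤ M) (α : ℝ) :
    ∃ c C : ℝ, 0 < c ∧ c ≤ 1 ∧ 1 ≤ C ∧ ∀ r, m ≤ r → r ≤ M → c ≤ r ^ α ∧ r ^ α ≤ C := by
  have hM : 0 < M := hm.trans_le hmM
  refine ⟨min 1 (min (m ^ α) (M ^ α)), max 1 (max (m ^ α) (M ^ α)), ?_, min_le_left _ _,
    le_max_left _ _, fun r h1 h2 => ?_⟩
  · exact lt_min one_pos (lt_min (Real.rpow_pos_of_pos hm _) (Real.rpow_pos_of_pos hM _))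
  · have hr : 0 < r := hm.trans_le h1
    rcases le_total 0 α with hα | hα
    · exact ⟨(min_le_right _ _).trans ((min_le_left _ _).trans
          (Real.rpow_le_rpow hm.le h1 hα)),
        (Real.rpow_le_rpow hr.le h2 hα).trans ((le_max_right _ _).trans (le_max_right _ _))⟩
    · exact ⟨(min_le_right _ _).trans ((min_le_right _ _).trans
          (Real.rpow_le_rpow_of_nonpos hr h2 hα)),
        (Real.rpow_le_rpow_of_nonpos hm h1 hα).trans
          ((le_max_left _ _).trans (le_max_right _ _))⟩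

namespace Dat

variable {p B m M : ℝ} {g : ℝ × ℝ → ℝ} {φ : Fin k → ℝ → ℝ}

lemma mM (h : Dat k p B m M g φ) : m ≤ M := (h.hgb 0).1.trans (h.hgb 0).2

lemma gpos (h : Dat k p B m M g φ) (z : ℝ × ℝ) : 0 < g z := h.hm.trans_le (h.hgb z).1

lemma φpos (h : Dat k p B m M g φ) (i : Fin k) (s : ℝ) : 0 < φ i s := h.hm.trans_le (h.hφb i s).1

lemma PP_pos (h : Dat k p B m M g φ) (α : ℝ) (β : Fin k → ℝ) (x : E (k + 2)) :
    0 < PP g φ α β x :=
  mul_pos (Real.rpow_pos_of_pos (h.gpos _) _)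
    (Finset.prod_pos fun i _ => Real.rpow_pos_of_pos (h.φpos i _) _)

lemma PP_meas (h : Dat k p B m M g φ) (α : ℝ) (β : Fin k → ℝ) : Measurable (PP g φ α β) := by
  unfold PP
  refine Measurable.mul ?_ (Finset.measurable_fun_prod _ fun i _ => ?_)
  · exact (h.hg.comp (by fun_prop : Measurable fun x : E (k + 2) => (x 0, x 1))).pow_const _
  · exact ((h.hφ i).comp (by fun_prop : Measurable fun x : E (k + 2) => x i.succ.succ)).pow_const _

lemma PP_bds (h : Dat k p B m M g φ) (α : ℝ) (β : Fin k → ℝ) :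
    ∃ c C : ℝ, 0 < c ∧ ∀ x, c ≤ PP g φ α β x ∧ PP g φ α β x ≤ C := by
  obtain ⟨c₀, C₀, h1, h2, h3, h4⟩ := rpow_bds h.hm h.mM α
  choose c C g1 g2 g3 g4 using fun i => rpow_bds h.hm h.mM (β i)
  refine ⟨c₀ * ∏ i, c i, C₀ * ∏ i, C i, mul_pos h1 (Finset.prod_pos fun i _ => g1 i),
    fun x => ⟨?_, ?_⟩⟩
  · refine mul_le_mul (h4 _ (h.hgb _).1 (h.hgb _).2).1 ?_ (Finset.prod_nonneg fun i _ => (g1 i).le)
      (Real.rpow_nonneg (h.gpos _).le _)
    exact Finset.prod_le_prod (fun i _ => (g1 i).le) fun i _ =>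
      (g4 i _ (h.hφb i _).1 (h.hφb i _).2).1
  · refine mul_le_mul (h4 _ (h.hgb _).1 (h.hgb _).2).2 ?_
      (Finset.prod_nonneg fun i _ => Real.rpow_nonneg (h.φpos i _).le _) (by linarith)
    exact Finset.prod_le_prod (fun i _ => Real.rpow_nonneg (h.φpos i _).le _) fun i _ =>
      (g4 i _ (h.hφb i _).1 (h.hφb i _).2).2

lemma PP_rpow (h : Dat k p B m M g φ) (α : ℝ) (β : Fin k → ℝ) (θ : ℝ) (x : E (k + 2)) :
    PP g φ α β x ^ θ = PP g φ (θ * α) (fun i => θ * β i) x := by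
  unfold PP
  rw [Real.mul_rpow (Real.rpow_nonneg (h.gpos _).le _)
    (Finset.prod_nonneg fun i _ => Real.rpow_nonneg (h.φpos i _).le _),
    ← Real.finsetProd_rpow _ _ fun i _ => Real.rpow_nonneg (h.φpos i _).le _,
    ← Real.rpow_mul (h.gpos _).le]
  congr 1
  · congr 1
    ring
  · refine Finset.prod_congr rfl fun i _ => ?_
    rw [← Real.rpow_mul (h.φpos i _).le]
    congr 1
    ring

lemma PP_prod (h : Dat k p B m M g φ) {ι : Type} (S : Finset ι) (α : ι → ℝ)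
    (β : ι → Fin k → ℝ) (x : E (k + 2)) :
    ∏ c ∈ S, PP g φ (α c) (β c) x = PP g φ (∑ c ∈ S, α c) (fun i => ∑ c ∈ S, β c i) x := by
  unfold PP
  rw [Finset.prod_mul_distrib, Finset.prod_comm]
  congr 1
  · exact (Real.rpow_sum_of_pos (h.gpos _) _ _).symm
  · refine Finset.prod_congr rfl fun i _ => ?_
    exact (Real.rpow_sum_of_pos (h.φpos i _) _ _).symm

lemma PP_log (h : Dat k p B m M g φ) (α : ℝ) (β : Fin k → ℝ) (x : E (k + 2)) :
    Real.log (PP g φ α β x) = α * Real.log (g (x 0, x 1)) +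
      ∑ i, β i * Real.log (φ i (x i.succ.succ)) := by
  unfold PP
  rw [Real.log_mul (Real.rpow_pos_of_pos (h.gpos _) _).ne'
    (Finset.prod_pos fun i _ => Real.rpow_pos_of_pos (h.φpos i _) _).ne',
    Real.log_rpow (h.gpos _), Real.log_prod fun i _ => (Real.rpow_pos_of_pos (h.φpos i _) _).ne']
  congr 1
  refine Finset.sum_congr rfl fun i _ => ?_
  rw [Real.log_rpow (h.φpos i _)]

end Dat

/-- the class of unimodular products -/
def Cls (k : ℕ) (u : E (k + 2) → ℂ) : Prop :=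
  ∃ (a₀ : ℝ × ℝ → ℂ) (a : Fin k → ℝ → ℂ), Measurable a₀ ∧ (∀ i, Measurable (a i)) ∧
    (∀ z, ‖a₀ z‖ ≤ 1) ∧ (∀ i s, ‖a i s‖ ≤ 1) ∧
    u = fun y => a₀ (y 0, y 1) * ∏ i : Fin k, a i (y i.succ.succ)

lemma Cls.meas {u : E (k + 2) → ℂ} (hu : Cls k u) : Measurable u ∧ ∀ y, ‖u y‖ ≤ 1 := by
  obtain ⟨a₀, a, h1, h2, h3, h4, rfl⟩ := hu
  refine ⟨?_, fun y => ?_⟩
  · refine Measurable.mul (h1.comp (by fun_prop)) (Finset.measurable_fun_prod _ fun i _ => ?_)
    exact (h2 i).comp (by fun_prop)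
  · rw [norm_mul, norm_prod]
    refine mul_le_one₀ (h3 _) (Finset.prod_nonneg fun i _ => norm_nonneg _) ?_
    exact Finset.prod_le_one (fun i _ => norm_nonneg _) fun i _ => h4 i _

lemma Cls.twist {p B m M : ℝ} {g : ℝ × ℝ → ℝ} {φ : Fin k → ℝ → ℝ} (h : Dat k p B m M g φ)
    {u : E (k + 2) → ℂ} (hu : Cls k u) (α : ℝ) (β : Fin k → ℝ) (t : ℝ) :
    Cls k (fun y => u y * Complex.exp (((t * Real.log (PP g φ α β y) : ℝ) : ℂ) * I)) := by
  obtain ⟨a₀, a, h1, h2, h3, h4, rfl⟩ := hu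
  refine ⟨fun z => a₀ z * Complex.exp (((t * (α * Real.log (g z)) : ℝ) : ℂ) * I),
    fun i s => a i s * Complex.exp (((t * (β i * Real.log (φ i s)) : ℝ) : ℂ) * I), ?_, ?_, ?_, ?_, ?_⟩
  · refine h1.mul (Complex.measurable_exp.comp ?_)
    refine (Complex.measurable_ofReal.comp ?_).mul_const _
    exact ((Real.measurable_log.comp h.hg).const_mul _).const_mul _
  · intro i
    refine (h2 i).mul (Complex.measurable_exp.comp ?_)
    refine (Complex.measurable_ofReal.comp ?_).mul_const _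
    exact ((Real.measurable_log.comp (h.hφ i)).const_mul _).const_mul _
  · intro z
    rw [norm_mul, Complex.norm_exp_ofReal_mul_I, mul_one]
    exact h3 z
  · intro i s
    rw [norm_mul, Complex.norm_exp_ofReal_mul_I, mul_one]
    exact h4 i s
  · funext y
    rw [h.PP_log, Finset.prod_mul_distrib, ← Complex.exp_sum]
    have : ((t * (α * Real.log (g (y 0, y 1)) +
        ∑ i, β i * Real.log (φ i (y i.succ.succ))) : ℝ) : ℂ) * I =
        ((t * (α * Real.log (g (y 0, y 1))) : ℝ) : ℂ) * I +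
        ∑ i, ((t * (β i * Real.log (φ i (y i.succ.succ))) : ℝ) : ℂ) * I := by
      push_cast
      rw [mul_add, Finset.mul_sum, add_mul, Finset.sum_mul]
    rw [this, Complex.exp_add]
    ring

end Pool.Agent.TH671.J716
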