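import Mathlib
import Pool.Agent.TH671.J716C
set_option autoImplicit false

/-! # Core interpolation, `p ≥ 2` (job 716): norms of the functions `F_c` -/

namespace Pool.Agent.TH671.J716

open MeasureTheory Set Complex
open scoped ENNReal RealInnerProductSpace
open Pool.Agent.TH278
open Pool.Agent.H438R2.RZ (e Good ft Pl Bump TR)
open Pool.Agent.H789R2.FR (E)

variable {k : ℕ}

noncomputable def ga (B : ℝ) (g : ℝ × ℝ → ℝ) (α : ℝ) : ℝ × ℝ → ℝ≥0∞ :=
  (Icc (-B) B ×ˢ Icc (-B) B).indicator (fun z => ENNReal.ofReal (g z ^ α))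

noncomputable def ph (B : ℝ) (φ : ℝ → ℝ) (β : ℝ) : ℝ → ℝ≥0∞ :=
  (Icc (-B) B).indicator (fun s => ENNReal.ofReal (φ s ^ β))

lemma ga_meas {B : ℝ} {g : ℝ × ℝ → ℝ} (hg : Measurable g) (α : ℝ) : Measurable (ga B g α) :=
  (ENNReal.measurable_ofReal.comp (hg.pow_const _)).indicator
    (measurableSet_Icc.prod measurableSet_Icc)

lemma ph_meas {B : ℝ} {φ : ℝ → ℝ} (hφ : Measurable φ) (β : ℝ) : Measurable (ph B φ β) :=
  (ENNReal.measurable_ofReal.comp (hφ.pow_const _)).indicator measurableSet_Icc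

namespace Dat

variable {p B m M : ℝ} {g : ℝ × ℝ → ℝ} {φ : Fin k → ℝ → ℝ}

lemma ga_int (h : Dat k p B m M g φ) : ∫⁻ z, ga B g p z ≤ 1 := by
  unfold ga
  rw [lintegral_indicator (measurableSet_Icc.prod measurableSet_Icc)]
  exact h.hgi

lemma ph_int (h : Dat k p B m M g φ) (i : Fin k) : ∫⁻ s, ph B (φ i) p s ≤ 1 := by
  unfold ph
  rw [lintegral_indicator measurableSet_Icc]
  exact h.hφi i

lemma ind_PP (h : Dat k p B m M g φ) (α : ℝ) (β : Fin k → ℝ) (x : E (k + 2)) :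
    (Cube (k + 2) B).indicator (fun x => ENNReal.ofReal (PP g φ α β x)) x =
      ga B g α (x 0, x 1) * ∏ i : Fin k, ph B (φ i) (β i) (x i.succ.succ) := by
  by_cases hx : x ∈ Cube (k + 2) B
  · rw [indicator_of_mem hx]
    obtain ⟨h1, h2⟩ := cube_coord.1 hx
    unfold ga ph PP
    rw [indicator_of_mem h1, ENNReal.ofReal_mul (Real.rpow_nonneg (h.gpos _).le _),
      ENNReal.ofReal_prod_of_nonneg fun i _ => Real.rpow_nonneg (h.φpos i _).le _]
    congr 1
    refine Finset.prod_congr rfl fun i _ => ?_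
    rw [indicator_of_mem (h2 i)]
  · rw [indicator_of_notMem hx]
    symm
    by_cases h1 : (x 0, x 1) ∈ Icc (-B) B ×ˢ Icc (-B) B
    · have h2 : ∃ i : Fin k, x i.succ.succ ∉ Icc (-B) B := by
        by_contra hcon
        push Not at hcon
        exact hx (cube_coord.2 ⟨h1, hcon⟩)
      obtain ⟨i, hi⟩ := h2
      refine mul_eq_zero_of_right _ (Finset.prod_eq_zero (Finset.mem_univ i) ?_)
      unfold ph
      exact indicator_of_notMem hi _
    · refine mul_eq_zero_of_left ?_ _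
      unfold ga
      exact indicator_of_notMem h1 _

/-- the pointwise bound of the squares -/
lemma sq_le (h : Dat k p B m M g φ) {u : E (k + 2) → ℂ} (hu : ∀ x, ‖u x‖ ≤ 1) (α : ℝ)
    (β : Fin k → ℝ) (x : E (k + 2)) :
    ‖(Cube (k + 2) B).indicator (fun y => u y * ((PP g φ α β y : ℝ) : ℂ)) x‖ₑ ^ 2 ≤
      ga B g (2 * α) (x 0, x 1) * ∏ i : Fin k, ph B (φ i) (2 * β i) (x i.succ.succ) := by
  rw [← h.ind_PP (2 * α) (fun i => 2 * β i)]
  by_cases hx : x ∈ Cube (k + 2) B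
  · rw [indicator_of_mem hx, indicator_of_mem hx, ← h.PP_rpow, Real.rpow_two,
      ENNReal.ofReal_pow (h.PP_pos _ _ _).le]
    refine pow_le_pow_left' ?_ 2
    rw [enorm_mul]
    have h1 : ‖u x‖ₑ ≤ 1 := by
      rw [← ofReal_norm]
      exact ENNReal.ofReal_le_one.2 (hu x)
    have h2 : ‖((PP g φ α β x : ℝ) : ℂ)‖ₑ = ENNReal.ofReal (PP g φ α β x) := by
      rw [← ofReal_norm, Complex.norm_real, Real.norm_of_nonneg (h.PP_pos _ _ _).le]
    rw [h2]
    calc ‖u x‖ₑ * ENNReal.ofReal (PP g φ α β x) ≤ 1 * ENNReal.ofReal (PP g φ α β x) := by gcongr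
      _ = _ := one_mul _
  · rw [indicator_of_notMem hx, indicator_of_notMem hx]
    simp

lemma F0 (h : Dat k p B m M g φ) {u : E (k + 2) → ℂ} (hu : ∀ x, ‖u x‖ ≤ 1) :
    ∫⁻ x, ‖(Cube (k + 2) B).indicator
      (fun y => u y * ((PP g φ (p / 2) (fun _ => p / 2) y : ℝ) : ℂ)) x‖ₑ ^ 2 ≤ 1 := by
  refine (lintegral_mono fun x => h.sq_le hu _ _ x).trans ?_
  rw [lint_prod k _ _ (ga_meas h.hg _) fun i => ph_meas (h.hφ i) _, mul_div_cancel₀ p two_ne_zero]
  exact mul_le_one' h.ga_int (Finset.prod_le_one' fun i _ => h.ph_int i)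

lemma F2 (h : Dat k p B m M g φ) {u : E (k + 2) → ℂ} (hu : ∀ x, ‖u x‖ ≤ 1) :
    ∫⁻ z : ℝ × ℝ, (∫⁻ w : E k, ‖(Cube (k + 2) B).indicator
      (fun y => u y * ((PP g φ (p / 4) (fun _ => p / 2) y : ℝ) : ℂ)) (inp z w)‖ₑ ^ 2) ^ 2 ≤ 1 := by
  refine le_trans (lintegral_mono fun z => ?_) h.ga_int
  have h1 : ∫⁻ w : E k, ‖(Cube (k + 2) B).indicator
      (fun y => u y * ((PP g φ (p / 4) (fun _ => p / 2) y : ℝ) : ℂ)) (inp z w)‖ₑ ^ 2 ≤
      ga B g (p / 2) z := by
    refine (lintegral_mono fun w => h.sq_le hu _ _ (inp z w)).trans ?_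
    simp only [inp_zero, inp_one, inp_ss]
    have e1 : 2 * (p / 4) = p / 2 := by ring
    have e2 : 2 * (p / 2) = p := by ring
    rw [e1, e2]
    have hm : Measurable fun w : E k => ∏ i : Fin k, ph B (φ i) p (w i) :=
      Finset.measurable_fun_prod _ fun i _ => (ph_meas (h.hφ i) _).comp (by fun_prop)
    rw [lintegral_const_mul _ hm, lint_prod1 k _ fun i => ph_meas (h.hφ i) _]
    calc ga B g (p / 2) (z.1, z.2) * ∏ i : Fin k, ∫⁻ s, ph B (φ i) p s
        ≤ ga B g (p / 2) (z.1, z.2) * 1 := by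
          gcongr
          exact Finset.prod_le_one' fun i _ => h.ph_int i
      _ = ga B g (p / 2) z := mul_one _
  refine (pow_le_pow_left' h1 2).trans (le_of_eq ?_)
  unfold ga
  by_cases hz : z ∈ Icc (-B) B ×ˢ Icc (-B) B
  · rw [indicator_of_mem hz, indicator_of_mem hz, ← ENNReal.ofReal_pow
      (Real.rpow_nonneg (h.gpos _).le _), ← Real.rpow_natCast, ← Real.rpow_mul (h.gpos _).le]
    congr 2
    push_cast
    ring
  · rw [indicator_of_notMem hz, indicator_of_notMem hz]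
    simp

end Dat

lemma ins_ne {m : ℕ} {i j : Fin (m + 1)} (hij : j ≠ i) (s t : ℝ) (y : E m) :
    ins i s y j = ins i t y j := by
  obtain ⟨l, rfl⟩ := Fin.exists_succAbove_eq hij
  simp

/-- the function of the other variables -/
noncomputable def GG (g : ℝ × ℝ → ℝ) (φ : Fin k → ℝ → ℝ) (p B : ℝ) (a₀ : ℝ × ℝ → ℂ)
    (a : Fin k → ℝ → ℂ) (i : Fin k) (y : E (k + 1)) : ℂ :=
  (Cube (k + 1) B).indicator (fun y : E (k + 1) =>
    a₀ (ins i.succ.succ 0 y 0, ins i.succ.succ 0 y 1) *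
      (∏ j ∈ Finset.univ.erase i, a j (ins i.succ.succ 0 y j.succ.succ)) *
      ((PP g φ (p / 2) (fun j => if j = i then 0 else p / 2) (ins i.succ.succ 0 y) : ℝ) : ℂ)) y

lemma GG_eq (g : ℝ × ℝ → ℝ) (φ : Fin k → ℝ → ℝ) (p B : ℝ) (a₀ : ℝ × ℝ → ℂ)
    (a : Fin k → ℝ → ℂ) (i : Fin k) (s : ℝ) (y : E (k + 1)) :
    (Cube (k + 2) B).indicator (fun y : E (k + 2) => (a₀ (y 0, y 1) * ∏ j : Fin k, a j (y j.succ.succ)) *
      ((PP g φ (p / 2) (fun j => if j = i then 0 else p / 2) y : ℝ) : ℂ)) (ins i.succ.succ s y) =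
    (Icc (-B) B).indicator (a i) s * GG g φ p B a₀ a i y := by
  have n0 : (0 : Fin (k + 2)) ≠ i.succ.succ := (Fin.succ_ne_zero _).symm
  have n1 : (1 : Fin (k + 2)) ≠ i.succ.succ := by
    intro hcon
    have : (0 : Fin (k + 1)) = i.succ := Fin.succ_injective _ hcon
    exact Fin.succ_ne_zero _ this.symm
  have n2 : ∀ j : Fin k, j ≠ i → j.succ.succ ≠ i.succ.succ := fun j hj hcon =>
    hj (Fin.succ_injective _ (Fin.succ_injective _ hcon))
  have hPP : PP g φ (p / 2) (fun j => if j = i then 0 else p / 2) (ins i.succ.succ s y) =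
      PP g φ (p / 2) (fun j => if j = i then 0 else p / 2) (ins i.succ.succ 0 y) := by
    unfold PP
    rw [ins_ne n0 s 0, ins_ne n1 s 0]
    congr 1
    refine Finset.prod_congr rfl fun j _ => ?_
    by_cases hj : j = i
    · simp [hj]
    · rw [ins_ne (n2 j hj) s 0]
  unfold GG
  by_cases hs : s ∈ Icc (-B) B
  · by_cases hy : y ∈ Cube (k + 1) B
    · rw [indicator_of_mem ((cube_ins _ _ _ _ _).2 ⟨hs, hy⟩), indicator_of_mem hs,
        indicator_of_mem hy, hPP, ← Finset.mul_prod_erase _ _ (Finset.mem_univ i), ins_same,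
        ins_ne n0 s 0, ins_ne n1 s 0]
      have : ∏ j ∈ Finset.univ.erase i, a j (ins i.succ.succ s y j.succ.succ) =
          ∏ j ∈ Finset.univ.erase i, a j (ins i.succ.succ 0 y j.succ.succ) := by
        refine Finset.prod_congr rfl fun j hj => ?_
        rw [ins_ne (n2 j (Finset.ne_of_mem_erase hj)) s 0]
      rw [this]
      ring
    · rw [indicator_of_notMem fun h => hy ((cube_ins _ _ _ _ _).1 h).2, indicator_of_notMem hy,
        mul_zero]
  · rw [indicator_of_notMem fun h => hs ((cube_ins _ _ _ _ _).1 h).1, indicator_of_notMem hs,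
      zero_mul]

lemma GG_good {p B m M : ℝ} {g : ℝ × ℝ → ℝ} {φ : Fin k → ℝ → ℝ} (h : Dat k p B m M g φ)
    {a₀ : ℝ × ℝ → ℂ} {a : Fin k → ℝ → ℂ} (h1 : Measurable a₀) (h2 : ∀ i, Measurable (a i))
    (h3 : ∀ z, ‖a₀ z‖ ≤ 1) (h4 : ∀ i s, ‖a i s‖ ≤ 1) (i : Fin k) :
    GoodN (GG g φ p B a₀ a i) := by
  obtain ⟨c, C, hc, hC⟩ := h.PP_bds (p / 2) (fun j => if j = i then 0 else p / 2)
  have hi : Measurable fun y : E (k + 1) => ins i.succ.succ 0 y :=
    (meas_ins (k + 1) i.succ.succ).comp (measurable_const.prodMk measurable_id)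
  have hj : ∀ j : Fin (k + 2), Measurable fun y : E (k + 1) => ins i.succ.succ 0 y j := fun j =>
    (by fun_prop : Measurable fun x : E (k + 2) => x j).comp hi
  unfold GG
  refine good_ind (M := 1 * C) h.hB.le ?_ fun y => ?_
  · refine Measurable.mul (Measurable.mul (h1.comp ((hj 0).prodMk (hj 1))) ?_) ?_
    · exact Finset.measurable_fun_prod _ fun j _ => (h2 j).comp (hj _)
    · exact Complex.measurable_ofReal.comp ((h.PP_meas _ _).comp hi)
  · rw [norm_mul, norm_mul, norm_prod]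
    refine mul_le_mul ?_ ?_ (norm_nonneg _) zero_le_one
    · refine mul_le_one₀ (h3 _) (Finset.prod_nonneg fun i _ => norm_nonneg _) ?_
      exact Finset.prod_le_one (fun i _ => norm_nonneg _) fun i _ => h4 i _
    · rw [Complex.norm_real, Real.norm_of_nonneg (h.PP_pos _ _ _).le]
      exact (hC _).2

lemma GG_int {p B m M : ℝ} {g : ℝ × ℝ → ℝ} {φ : Fin k → ℝ → ℝ} (h : Dat k p B m M g φ)
    {a₀ : ℝ × ℝ → ℂ} {a : Fin k → ℝ → ℂ}
    (h3 : ∀ z, ‖a₀ z‖ ≤ 1) (h4 : ∀ i s, ‖a i s‖ ≤ 1) (i : Fin k) :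
    ∫⁻ y, ‖GG g φ p B a₀ a i y‖ₑ ^ 2 ≤ 1 := by
  classical
  let θ : Fin k → ℝ → ℝ≥0∞ := fun j => if j = i then (Icc (0 : ℝ) 1).indicator 1 else ph B (φ j) p
  have hθ : ∀ j, Measurable (θ j) := by
    intro j
    simp only [θ]
    split_ifs
    · exact measurable_one.indicator measurableSet_Icc
    · exact ph_meas (h.hφ j) _
  have hθ1 : ∀ j, ∫⁻ s, θ j s ≤ 1 := by
    intro j
    simp only [θ]
    split_ifs
    · rw [lintegral_indicator_one measurableSet_Icc]
      simp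
    · exact h.ph_int j
  have key := lint_prod k (ga B g p) θ (ga_meas h.hg _) hθ
  have hle : (∫⁻ z, ga B g p z) * ∏ i, ∫⁻ s, θ i s ≤ 1 :=
    mul_le_one' h.ga_int (Finset.prod_le_one' fun i _ => hθ1 i)
  rw [← key] at hle
  have hm : Measurable fun x : E (k + 2) => ga B g p (x 0, x 1) * ∏ i : Fin k, θ i (x i.succ.succ) := by
    refine ((ga_meas h.hg _).comp ?_).mul (Finset.measurable_fun_prod _ fun i _ => (hθ i).comp ?_)
    · fun_prop
    · fun_prop
  rw [lint_ins' (k + 1) i.succ.succ _ hm] at hle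
  refine le_trans (lintegral_mono fun y => ?_) hle
  have e1 : ‖GG g φ p B a₀ a i y‖ₑ ^ 2 = ∫⁻ s : ℝ, (Icc (0 : ℝ) 1).indicator 1 s *
      ‖GG g φ p B a₀ a i y‖ₑ ^ 2 := by
    rw [lintegral_mul_const _ (measurable_one.indicator measurableSet_Icc),
      lintegral_indicator_one measurableSet_Icc]
    simp
  rw [e1]
  refine lintegral_mono fun s => ?_
  simp only
  by_cases hy : y ∈ Cube (k + 1) B
  swap
  · unfold GG
    rw [indicator_of_notMem hy]
    simp
  -- the coordinates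
  have n0 : (0 : Fin (k + 2)) ≠ i.succ.succ := (Fin.succ_ne_zero _).symm
  have n1 : (1 : Fin (k + 2)) ≠ i.succ.succ := by
    intro hcon
    have : (0 : Fin (k + 1)) = i.succ := Fin.succ_injective _ hcon
    exact Fin.succ_ne_zero _ this.symm
  have n2 : ∀ j : Fin k, j ≠ i → j.succ.succ ≠ i.succ.succ := fun j hj hcon =>
    hj (Fin.succ_injective _ (Fin.succ_injective _ hcon))
  have h0B : (0 : ℝ) ∈ Icc (-B) B := ⟨by linarith [h.hB], h.hB.le⟩
  have hq : ins i.succ.succ 0 y ∈ Cube (k + 2) B := (cube_ins _ _ _ _ _).2 ⟨h0B, hy⟩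
  have hind := h.ind_PP p (fun j => if j = i then 0 else p) (ins i.succ.succ 0 y)
  rw [indicator_of_mem hq] at hind
  have hGle : ‖GG g φ p B a₀ a i y‖ₑ ^ 2 ≤
      ENNReal.ofReal (PP g φ p (fun j => if j = i then 0 else p) (ins i.succ.succ 0 y)) := by
    unfold GG
    rw [indicator_of_mem hy]
    have e2 : PP g φ p (fun j => if j = i then 0 else p) (ins i.succ.succ 0 y) =
        PP g φ (p / 2) (fun j => if j = i then 0 else p / 2) (ins i.succ.succ 0 y) ^ 2 := by
      rw [← Real.rpow_natCast, h.PP_rpow]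
      unfold PP
      push_cast
      rw [mul_div_cancel₀ p two_ne_zero]
      congr 1
      refine Finset.prod_congr rfl fun j _ => ?_
      congr 1
      split_ifs
      · ring
      · ring
    rw [e2, ENNReal.ofReal_pow (h.PP_pos _ _ _).le]
    refine pow_le_pow_left' ?_ 2
    rw [enorm_mul]
    have g1 : ‖a₀ (ins i.succ.succ 0 y 0, ins i.succ.succ 0 y 1) *
      (∏ j ∈ Finset.univ.erase i, a j (ins i.succ.succ 0 y j.succ.succ))‖ₑ ≤ 1 := by
      rw [← ofReal_norm]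
      refine ENNReal.ofReal_le_one.2 ?_
      rw [norm_mul, norm_prod]
      refine mul_le_one₀ (h3 _) (Finset.prod_nonneg fun i _ => norm_nonneg _) ?_
      exact Finset.prod_le_one (fun i _ => norm_nonneg _) fun i _ => h4 i _
    have g2 : ‖((PP g φ (p / 2) (fun j => if j = i then 0 else p / 2)
        (ins i.succ.succ 0 y) : ℝ) : ℂ)‖ₑ = ENNReal.ofReal (PP g φ (p / 2)
          (fun j => if j = i then 0 else p / 2) (ins i.succ.succ 0 y)) := by
      rw [← ofReal_norm, Complex.norm_real, Real.norm_of_nonneg (h.PP_pos _ _ _).le]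
    rw [g2]
    exact mul_le_of_le_one_left (zero_le) g1
  calc (Icc (0 : ℝ) 1).indicator 1 s * ‖GG g φ p B a₀ a i y‖ₑ ^ 2
      ≤ (Icc (0 : ℝ) 1).indicator 1 s * ENNReal.ofReal
        (PP g φ p (fun j => if j = i then 0 else p) (ins i.succ.succ 0 y)) := by gcongr
    _ = _ := by
      rw [hind, ← Finset.mul_prod_erase _ _ (Finset.mem_univ i),
        ← Finset.mul_prod_erase Finset.univ (fun j => θ j (ins i.succ.succ s y j.succ.succ))
          (Finset.mem_univ i), ins_same, ins_same, ins_ne n0 s 0, ins_ne n1 s 0]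
      have t1 : ph B (φ i) (if i = i then 0 else p) 0 = 1 := by
        rw [if_pos rfl]
        unfold ph
        rw [indicator_of_mem h0B, Real.rpow_zero, ENNReal.ofReal_one]
      have t2 : θ i s = (Icc (0 : ℝ) 1).indicator 1 s := by
        simp only [θ, if_pos]
      have t3 : ∏ j ∈ Finset.univ.erase i, θ j (ins i.succ.succ s y j.succ.succ) =
          ∏ j ∈ Finset.univ.erase i, ph B (φ j) (if j = i then 0 else p)
            (ins i.succ.succ 0 y j.succ.succ) := by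
        refine Finset.prod_congr rfl fun j hj => ?_
        have hj' := Finset.ne_of_mem_erase hj
        rw [ins_ne (n2 j hj') s 0]
        simp only [θ, if_neg hj']
      rw [t1, t2, t3]
      ring

end Pool.Agent.TH671.J716
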