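import Mathlib
import Pool.Agent.TH671.J716D
set_option autoImplicit false

/-! # Core interpolation, `p ≥ 2` (job 716): the dual functions and the marginals -/

namespace Pool.Agent.TH671.J716

open MeasureTheory Set Complex
open scoped ENNReal RealInnerProductSpace
open Pool.Agent.TH278
open Pool.Agent.H438R2.RZ (e Good ft Pl Bump TR)
open Pool.Agent.H789R2.FR (E)

variable {k : ℕ}

/-- densities between two positive bounds -/
structure Den (k : ℕ) (B δ C : ℝ) (H : E (k + 2) → ℝ) : Prop where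
  hB : 0 < B
  hδ : 0 < δ
  hH : Measurable H
  hb : ∀ x, δ ≤ H x ∧ H x ≤ C

noncomputable def hh (B : ℝ) (H : E (k + 2) → ℝ) : E (k + 2) → ℝ≥0∞ :=
  (Cube (k + 2) B).indicator (fun x => ENNReal.ofReal (H x))

noncomputable def Ms (B : ℝ) (H : E (k + 2) → ℝ) (z : ℝ × ℝ) : ℝ≥0∞ :=
  ∫⁻ w : E k, hh B H (inp z w)

noncomputable def Mi (B : ℝ) (H : E (k + 2) → ℝ) (i : Fin k) (x : E (k + 2)) : ℝ≥0∞ :=
  ∫⁻ s : ℝ, hh B H (WithLp.toLp 2 (Function.update (⇑x) i.succ.succ s))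

open Classical in
noncomputable def Rs (B : ℝ) (H : E (k + 2) → ℝ) (x : E (k + 2)) : ℝ :=
  if x ∈ Cube (k + 2) B then (Ms B H (x 0, x 1)).toReal ^ (1 / 4 : ℝ) else 1

open Classical in
noncomputable def Ri (B : ℝ) (H : E (k + 2) → ℝ) (i : Fin k) (x : E (k + 2)) : ℝ :=
  if x ∈ Cube (k + 2) B then H x ^ (1 / 2 : ℝ) * (Mi B H i x).toReal ^ (-(1 / 2) : ℝ) else 1

namespace Den

variable {B δ C : ℝ} {H : E (k + 2) → ℝ}

lemma hC (h : Den k B δ C H) : 0 < C := h.hδ.trans_le ((h.hb 0).1.trans (h.hb 0).2)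

lemma hpos (h : Den k B δ C H) (x : E (k + 2)) : 0 < H x := h.hδ.trans_le (h.hb x).1

lemma hh_meas (h : Den k B δ C H) : Measurable (hh B H) :=
  (ENNReal.measurable_ofReal.comp h.hH).indicator (cube_meas _ _)

lemma Ms_meas (h : Den k B δ C H) : Measurable (Ms B H) :=
  Measurable.lintegral_prod_right' (f := fun p : (ℝ × ℝ) × E k => hh B H (inp p.1 p.2))
    (h.hh_meas.comp (meas_inp k))

lemma Mi_meas (h : Den k B δ C H) (i : Fin k) : Measurable (Mi B H i) := by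
  refine Measurable.lintegral_prod_right' (f := fun p : E (k + 2) × ℝ =>
    hh B H (WithLp.toLp 2 (Function.update (⇑p.1) i.succ.succ p.2))) ?_
  refine h.hh_meas.comp ((MeasurableEquiv.toLp 2 (Fin (k + 2) → ℝ)).measurable.comp ?_)
  have h1 : Measurable fun p : E (k + 2) × ℝ => ((⇑p.1 : Fin (k + 2) → ℝ), p.2) :=
    ((MeasurableEquiv.toLp 2 (Fin (k + 2) → ℝ)).symm.measurable.comp measurable_fst).prodMk
      measurable_snd
  exact (measurable_update' (a := i.succ.succ)).comp h1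

/-- the marginals over coordinates -/
lemma Mi_ins (i : Fin k) (s : ℝ) (y : E (k + 1)) :
    Mi B H i (ins i.succ.succ s y) = ∫⁻ t : ℝ, hh B H (ins i.succ.succ t y) := by
  unfold Mi
  simp only [ins_update]

lemma upd_mem {x : E (k + 2)} (hx : x ∈ Cube (k + 2) B) (i : Fin k) (s : ℝ) :
    (WithLp.toLp 2 (Function.update (⇑x) i.succ.succ s) : E (k + 2)) ∈ Cube (k + 2) B ↔
      s ∈ Icc (-B) B := by
  constructor
  · intro h
    have := h i.succ.succ
    simp only [Function.update_self] at this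
    exact abs_le.1 this
  · intro hs j
    rcases eq_or_ne j i.succ.succ with rfl | hj
    · simp only [Function.update_self]
      exact abs_le.2 hs
    · simp only [ne_eq, hj, not_false_eq_true, Function.update_of_ne]
      exact hx j

lemma Mi_bds (h : Den k B δ C H) (i : Fin k) {x : E (k + 2)} (hx : x ∈ Cube (k + 2) B) :
    ENNReal.ofReal (δ * (2 * B)) ≤ Mi B H i x ∧ Mi B H i x ≤ ENNReal.ofReal (C * (2 * B)) := by
  have hv : volume (Icc (-B) B) = ENNReal.ofReal (2 * B) := by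
    rw [Real.volume_Icc]
    congr 1
    ring
  have h1 : ∀ c : ℝ≥0∞, ∫⁻ s, (Icc (-B) B).indicator (fun _ => c) s = c * ENNReal.ofReal (2 * B) := by
    intro c
    rw [lintegral_indicator measurableSet_Icc, setLIntegral_const, hv]
  constructor
  · rw [ENNReal.ofReal_mul h.hδ.le, ← h1]
    unfold Mi
    refine lintegral_mono fun s => ?_
    by_cases hs : s ∈ Icc (-B) B
    · unfold hh
      rw [indicator_of_mem hs, indicator_of_mem ((upd_mem hx i s).2 hs)]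
      exact ENNReal.ofReal_le_ofReal (h.hb _).1
    · rw [indicator_of_notMem hs]
      exact zero_le
  · rw [ENNReal.ofReal_mul h.hC.le, ← h1]
    unfold Mi
    refine lintegral_mono fun s => ?_
    by_cases hs : s ∈ Icc (-B) B
    · unfold hh
      rw [indicator_of_mem hs, indicator_of_mem ((upd_mem hx i s).2 hs)]
      exact ENNReal.ofReal_le_ofReal (h.hb _).2
    · unfold hh
      rw [indicator_of_notMem fun hcon => hs ((upd_mem hx i s).1 hcon)]
      exact zero_le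

lemma Ms_bds (h : Den k B δ C H) {z : ℝ × ℝ} (hz : z ∈ Icc (-B) B ×ˢ Icc (-B) B) :
    ENNReal.ofReal (δ * (2 * B) ^ k) ≤ Ms B H z ∧ Ms B H z ≤ ENNReal.ofReal (C * (2 * B) ^ k) := by
  have h1 : ∀ c : ℝ≥0∞, ∫⁻ s, (Cube k B).indicator (fun _ => c) s =
      c * ENNReal.ofReal ((2 * B) ^ k) := by
    intro c
    rw [lintegral_indicator (cube_meas k B), setLIntegral_const, cube_vol k B h.hB.le,
      ENNReal.ofReal_pow (by linarith [h.hB])]
  constructor
  · rw [ENNReal.ofReal_mul h.hδ.le, ← h1]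
    unfold Ms
    refine lintegral_mono fun s => ?_
    by_cases hs : s ∈ Cube k B
    · unfold hh
      rw [indicator_of_mem hs, indicator_of_mem ((cube_inp _ _ _ _).2 ⟨hz, hs⟩)]
      exact ENNReal.ofReal_le_ofReal (h.hb _).1
    · rw [indicator_of_notMem hs]
      exact zero_le
  · rw [ENNReal.ofReal_mul h.hC.le, ← h1]
    unfold Ms
    refine lintegral_mono fun s => ?_
    by_cases hs : s ∈ Cube k B
    · unfold hh
      rw [indicator_of_mem hs, indicator_of_mem ((cube_inp _ _ _ _).2 ⟨hz, hs⟩)]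
      exact ENNReal.ofReal_le_ofReal (h.hb _).2
    · unfold hh
      rw [indicator_of_notMem fun hcon => hs ((cube_inp _ _ _ _).1 hcon).2]
      exact zero_le

/-- real bounds from bounds in `ℝ≥0∞` -/
lemma toReal_bds {a b : ℝ} (ha : 0 < a) {x : ℝ≥0∞} (h1 : ENNReal.ofReal a ≤ x)
    (h2 : x ≤ ENNReal.ofReal b) : a ≤ x.toReal ∧ x.toReal ≤ b ∧ x ≠ 0 ∧ x ≠ ⊤ := by
  have hx : x ≠ ⊤ := (h2.trans_lt ENNReal.ofReal_lt_top).ne
  have h0 : x ≠ 0 := by
    rintro rfl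
    have := ENNReal.ofReal_pos.2 ha
    exact absurd h1 (not_le.2 this)
  have hb : 0 < b := by
    by_contra hb
    rw [ENNReal.ofReal_of_nonpos (not_lt.1 hb)] at h2
    exact h0 (le_antisymm h2 zero_le)
  refine ⟨?_, ?_, h0, hx⟩
  · rw [← ENNReal.toReal_ofReal ha.le]
    exact ENNReal.toReal_mono hx h1
  · rw [← ENNReal.toReal_ofReal hb.le]
    exact ENNReal.toReal_mono ENNReal.ofReal_ne_top h2

lemma Mi_fin (h : Den k B δ C H) (i : Fin k) {x : E (k + 2)} (hx : x ∈ Cube (k + 2) B) :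
    δ * (2 * B) ≤ (Mi B H i x).toReal ∧ (Mi B H i x).toReal ≤ C * (2 * B) ∧
      Mi B H i x ≠ 0 ∧ Mi B H i x ≠ ⊤ :=
  toReal_bds (mul_pos h.hδ (by linarith [h.hB])) (h.Mi_bds i hx).1 (h.Mi_bds i hx).2

lemma Ms_fin (h : Den k B δ C H) {z : ℝ × ℝ} (hz : z ∈ Icc (-B) B ×ˢ Icc (-B) B) :
    δ * (2 * B) ^ k ≤ (Ms B H z).toReal ∧ (Ms B H z).toReal ≤ C * (2 * B) ^ k ∧
      Ms B H z ≠ 0 ∧ Ms B H z ≠ ⊤ :=
  toReal_bds (mul_pos h.hδ (pow_pos (by linarith [h.hB]) _)) (h.Ms_bds hz).1 (h.Ms_bds hz).2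

lemma Rs_meas (h : Den k B δ C H) : Measurable (Rs B H) := by
  classical
  unfold Rs
  refine Measurable.ite (cube_meas _ _) ?_ measurable_const
  exact (((h.Ms_meas).comp (by fun_prop : Measurable fun x : E (k + 2) =>
    (x 0, x 1))).ennreal_toReal).pow_const _

lemma Ri_meas (h : Den k B δ C H) (i : Fin k) : Measurable (Ri B H i) := by
  classical
  unfold Ri
  refine Measurable.ite (cube_meas _ _) ?_ measurable_const
  exact (h.hH.pow_const _).mul ((h.Mi_meas i).ennreal_toReal.pow_const _)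

lemma Rs_bds (h : Den k B δ C H) : ∃ m M : ℝ, 0 < m ∧ ∀ x, m ≤ Rs B H x ∧ Rs B H x ≤ M := by
  have hBk : 0 < (2 * B) ^ k := pow_pos (by linarith [h.hB]) _
  obtain ⟨c, C', h1, h2, h3, h4⟩ := rpow_bds (mul_pos h.hδ hBk)
    (mul_le_mul_of_nonneg_right ((h.hb 0).1.trans (h.hb 0).2) hBk.le) (1 / 4)
  refine ⟨c, C', h1, fun x => ?_⟩
  unfold Rs
  split_ifs with hx
  · obtain ⟨g1, g2, -, -⟩ := h.Ms_fin (cube_coord.1 hx).1
    exact h4 _ g1 g2
  · exact ⟨h2, h3⟩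

lemma Ri_bds (h : Den k B δ C H) (i : Fin k) :
    ∃ m M : ℝ, 0 < m ∧ ∀ x, m ≤ Ri B H i x ∧ Ri B H i x ≤ M := by
  have hBk : 0 < 2 * B := by linarith [h.hB]
  obtain ⟨c, C', h1, h2, h3, h4⟩ := rpow_bds (mul_pos h.hδ hBk)
    (mul_le_mul_of_nonneg_right ((h.hb 0).1.trans (h.hb 0).2) hBk.le) (-(1 / 2))
  obtain ⟨c₁, C₁, g1, g2, g3, g4⟩ := rpow_bds h.hδ ((h.hb 0).1.trans (h.hb 0).2) (1 / 2)
  refine ⟨c₁ * c, C₁ * C', mul_pos g1 h1, fun x => ?_⟩
  unfold Ri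
  split_ifs with hx
  · obtain ⟨f1, f2, -, -⟩ := h.Mi_fin i hx
    have p1 := g4 _ (h.hb x).1 (h.hb x).2
    have p2 := h4 _ f1 f2
    exact ⟨mul_le_mul p1.1 p2.1 h1.le (g1.le.trans p1.1),
      mul_le_mul p1.2 p2.2 (h1.le.trans p2.1) (by linarith)⟩
  · exact ⟨mul_le_one₀ g2 h1.le h2, by nlinarith⟩

/-- the weights -/
lemma enorm_le_of {v : ℂ} (hv : ‖v‖ ≤ 1) {w r : ℝ} (hw : 0 ≤ w) (hr : 0 ≤ r) :
    ‖((w : ℝ) : ℂ) * (v * ((r : ℝ) : ℂ))‖ₑ ≤ ENNReal.ofReal (w * r) := by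
  rw [← ofReal_norm]
  refine ENNReal.ofReal_le_ofReal ?_
  rw [norm_mul, norm_mul, Complex.norm_real, Complex.norm_real, Real.norm_of_nonneg hw,
    Real.norm_of_nonneg hr]
  have : ‖v‖ * r ≤ 1 * r := mul_le_mul_of_nonneg_right hv hr
  nlinarith

lemma H0 (h : Den k B δ C H) {v : E (k + 2) → ℂ} (hv : ∀ x, ‖v x‖ ≤ 1) :
    ∫⁻ x, ‖(Cube (k + 2) B).indicator (fun x => ((H x ^ (1 / 2 : ℝ) : ℝ) : ℂ) *
      (v x * ((1 : ℝ) : ℂ))) x‖ₑ ^ 2 ≤ ∫⁻ x, hh B H x := by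
  refine lintegral_mono fun x => ?_
  unfold hh
  by_cases hx : x ∈ Cube (k + 2) B
  · rw [indicator_of_mem hx, indicator_of_mem hx]
    refine (pow_le_pow_left' (enorm_le_of (hv x) (Real.rpow_nonneg (h.hpos x).le _)
      zero_le_one) 2).trans (le_of_eq ?_)
    rw [mul_one, ← ENNReal.ofReal_pow (Real.rpow_nonneg (h.hpos x).le _), ← Real.rpow_natCast,
      ← Real.rpow_mul (h.hpos x).le]
    norm_num
  · rw [indicator_of_notMem hx, indicator_of_notMem hx]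
    simp

lemma H2 (h : Den k B δ C H) {v : E (k + 2) → ℂ} (hv : ∀ x, ‖v x‖ ≤ 1) :
    ∫⁻ z : ℝ × ℝ, (∫⁻ w : E k, ‖(Cube (k + 2) B).indicator (fun x =>
      ((H x ^ (1 / 2 : ℝ) : ℝ) : ℂ) * (v x * ((Rs B H x : ℝ) : ℂ))) (inp z w)‖ₑ ^ 2) ^
        (2 / 3 : ℝ) ≤ ∫⁻ x, hh B H x := by
  rw [lint_inp k _ h.hh_meas]
  refine lintegral_mono fun z => ?_
  have h1 : ∫⁻ w : E k, ‖(Cube (k + 2) B).indicator (fun x =>
      ((H x ^ (1 / 2 : ℝ) : ℝ) : ℂ) * (v x * ((Rs B H x : ℝ) : ℂ))) (inp z w)‖ₑ ^ 2 ≤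
      Ms B H z ^ (3 / 2 : ℝ) := by
    have h2 : ∀ w : E k, ‖(Cube (k + 2) B).indicator (fun x =>
        ((H x ^ (1 / 2 : ℝ) : ℝ) : ℂ) * (v x * ((Rs B H x : ℝ) : ℂ))) (inp z w)‖ₑ ^ 2 ≤
        hh B H (inp z w) * Ms B H z ^ (1 / 2 : ℝ) := by
      intro w
      by_cases hx : inp z w ∈ Cube (k + 2) B
      · unfold hh
        rw [indicator_of_mem hx, indicator_of_mem hx]
        have hz := ((cube_inp _ _ _ _).1 hx).1
        obtain ⟨g1, g2, g3, g4⟩ := h.Ms_fin hz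
        have hpos := h.hpos (inp z w)
        have hR : Rs B H (inp z w) = (Ms B H z).toReal ^ (1 / 4 : ℝ) := by
          unfold Rs
          rw [if_pos hx]
          rfl
        have hM0 : 0 < (Ms B H z).toReal := ENNReal.toReal_pos g3 g4
        refine (pow_le_pow_left' (enorm_le_of (hv _) (Real.rpow_nonneg hpos.le _)
          (by rw [hR]; positivity)) 2).trans (le_of_eq ?_)
        rw [hR, ← ENNReal.ofReal_pow (by positivity), mul_pow, ← Real.rpow_natCast,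
          ← Real.rpow_mul hpos.le, ← Real.rpow_natCast ((Ms B H z).toReal ^ (1 / 4 : ℝ)),
          ← Real.rpow_mul hM0.le, ENNReal.ofReal_mul (by positivity)]
        have e1 : (1 / 2 : ℝ) * ((2 : ℕ) : ℝ) = 1 := by norm_num
        have e2 : (1 / 4 : ℝ) * ((2 : ℕ) : ℝ) = 1 / 2 := by norm_num
        rw [e1, e2, Real.rpow_one, ← ENNReal.ofReal_rpow_of_pos hM0, ENNReal.ofReal_toReal g4]
      · rw [indicator_of_notMem hx]
        simp
    refine (lintegral_mono h2).trans ?_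
    have hm : Measurable fun w : E k => hh B H (inp z w) :=
      h.hh_meas.comp ((meas_inp k).comp (measurable_const.prodMk measurable_id))
    rw [lintegral_mul_const _ hm]
    have e3 : (3 / 2 : ℝ) = 1 + 1 / 2 := by norm_num
    rw [e3, ENNReal.rpow_add_of_nonneg _ _ zero_le_one (by norm_num), ENNReal.rpow_one]
    exact le_rfl
  calc _ ≤ (Ms B H z ^ (3 / 2 : ℝ)) ^ (2 / 3 : ℝ) := ENNReal.rpow_le_rpow h1 (by norm_num)
    _ = Ms B H z := by
      rw [← ENNReal.rpow_mul]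
      norm_num

lemma H1 (h : Den k B δ C H) {v : E (k + 2) → ℂ} (hv : ∀ x, ‖v x‖ ≤ 1) (i : Fin k) :
    ∫⁻ y : E (k + 1), (∫⁻ s : ℝ, ‖(Cube (k + 2) B).indicator (fun x =>
      ((H x ^ (1 / 2 : ℝ) : ℝ) : ℂ) * (v x * ((Ri B H i x : ℝ) : ℂ)))
        (ins i.succ.succ s y)‖ₑ) ^ 2 ≤ ∫⁻ x, hh B H x := by
  rw [lint_ins' (k + 1) i.succ.succ _ h.hh_meas]
  refine lintegral_mono fun y => ?_
  obtain ⟨μ, hμ⟩ : ∃ μ, μ = ∫⁻ s : ℝ, hh B H (ins i.succ.succ s y) := ⟨_, rfl⟩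
  have h1 : ∫⁻ s : ℝ, ‖(Cube (k + 2) B).indicator (fun x =>
      ((H x ^ (1 / 2 : ℝ) : ℝ) : ℂ) * (v x * ((Ri B H i x : ℝ) : ℂ)))
        (ins i.succ.succ s y)‖ₑ ≤ μ * μ ^ (-(1 / 2) : ℝ) := by
    have h2 : ∀ s : ℝ, ‖(Cube (k + 2) B).indicator (fun x =>
        ((H x ^ (1 / 2 : ℝ) : ℝ) : ℂ) * (v x * ((Ri B H i x : ℝ) : ℂ)))
          (ins i.succ.succ s y)‖ₑ ≤
        hh B H (ins i.succ.succ s y) * μ ^ (-(1 / 2) : ℝ) := by
      intro s
      by_cases hx : ins i.succ.succ s y ∈ Cube (k + 2) B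
      · obtain ⟨g1, g2, g3, g4⟩ := h.Mi_fin i hx
        have hMe : Mi B H i (ins i.succ.succ s y) = μ := by
          rw [Mi_ins, hμ]
        unfold hh
        rw [indicator_of_mem hx, indicator_of_mem hx]
        have hpos := h.hpos (ins i.succ.succ s y)
        have hR : Ri B H i (ins i.succ.succ s y) =
            H (ins i.succ.succ s y) ^ (1 / 2 : ℝ) * μ.toReal ^ (-(1 / 2) : ℝ) := by
          unfold Ri
          rw [if_pos hx, hMe]
        rw [hMe] at g3 g4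
        have hM0 : 0 < μ.toReal := ENNReal.toReal_pos g3 g4
        refine (enorm_le_of (hv _) (Real.rpow_nonneg hpos.le _)
          (by rw [hR]; positivity)).trans (le_of_eq ?_)
        rw [hR, ← mul_assoc, ← Real.rpow_add hpos, ENNReal.ofReal_mul (by positivity),
          ← ENNReal.ofReal_rpow_of_pos hM0, ENNReal.ofReal_toReal g4]
        norm_num
      · rw [indicator_of_notMem hx]
        simp
    refine (lintegral_mono h2).trans ?_
    have hm : Measurable fun s : ℝ => hh B H (ins i.succ.succ s y) :=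
      h.hh_meas.comp ((meas_ins (k + 1) i.succ.succ).comp (measurable_id.prodMk measurable_const))
    rw [lintegral_mul_const _ hm, ← hμ]
  refine (pow_le_pow_left' h1 2).trans ?_
  rw [← hμ]
  rcases eq_or_ne μ 0 with h0 | h0
  · rw [h0]
    simp
  rcases eq_or_ne μ ⊤ with ht | ht
  · rw [ht]
    exact le_top
  · conv_lhs => rw [← ENNReal.rpow_one μ, ← ENNReal.rpow_mul, ← ENNReal.rpow_add _ _ h0 ht,
      ← ENNReal.rpow_natCast, ← ENNReal.rpow_mul]
    refine le_of_eq ?_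
    norm_num

end Den

end Pool.Agent.TH671.J716
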