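import Mathlib
import Pool.Agent.TH671.J716E
set_option autoImplicit false

/-! # Core interpolation, `p ≥ 2` (job 716): the interpolated inequality -/

namespace Pool.Agent.TH671.J716

open MeasureTheory Set Complex
open scoped ENNReal RealInnerProductSpace
open Pool.Agent.TH278
open Pool.Agent.H438R2.RZ (e Good ft Pl Bump TR)
open Pool.Agent.H789R2.FR (E)

variable {k : ℕ}

/-- the weights -/
def th (k : ℕ) (τ t : ℝ) : Option (Option (Fin k)) → ℝ
  | none => 1 - τ
  | some none => 4 * t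
  | some (some _) => 2 * t

/-- the exponents of `g` -/
noncomputable def al (k : ℕ) (p : ℝ) : Option (Option (Fin k)) → ℝ
  | none => p / 2
  | some none => p / 4
  | some (some _) => p / 2

/-- the exponents of `φ` -/
noncomputable def be (k : ℕ) (p : ℝ) : Option (Option (Fin k)) → Fin k → ℝ
  | none => fun _ => p / 2
  | some none => fun _ => p / 2
  | some (some i) => fun j => if j = i then 0 else p / 2

/-- the dual weights -/
noncomputable def RR (B : ℝ) (H : E (k + 2) → ℝ) : Option (Option (Fin k)) → E (k + 2) → ℝ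
  | none => fun _ => 1
  | some none => Rs B H
  | some (some i) => Ri B H i

/-- the constants -/
def AA (k : ℕ) (A₀ A₁ A₂ S : ℝ) : Option (Option (Fin k)) → ℝ
  | none => A₀ * S
  | some none => A₂ * S
  | some (some _) => A₁ * S

lemma S_pow {S : ℝ} (hS : 1 ≤ S) {a : ℝ} (ha : 0 ≤ a) (ha1 : a ≤ 1) {I : ℝ≥0∞}
    (hI : I ≤ ENNReal.ofReal S) : I ^ a ≤ ENNReal.ofReal S := by
  refine (ENNReal.rpow_le_rpow hI ha).trans ?_
  rw [ENNReal.ofReal_rpow_of_pos (by linarith)]
  refine ENNReal.ofReal_le_ofReal ?_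
  calc S ^ a ≤ S ^ (1 : ℝ) := Real.rpow_le_rpow_of_exponent_le hS ha1
    _ = S := Real.rpow_one S

lemma one_pow' {a : ℝ} (ha : 0 ≤ a) {I : ℝ≥0∞} (hI : I ≤ 1) : I ^ a ≤ 1 :=
  (ENNReal.rpow_le_rpow hI ha).trans (by rw [ENNReal.one_rpow])

lemma norm_le_of_enorm {z : ℂ} {a : ℝ} (ha : 0 ≤ a) (h : ‖z‖ₑ ≤ ENNReal.ofReal a) : ‖z‖ ≤ a := by
  rw [← ofReal_norm] at h
  exact (ENNReal.ofReal_le_ofReal_iff ha).1 h

/-- the vertex bounds -/
lemma vert {ψ : ℝ → ℝ} (hψ : Bump ψ) {L A₀ A₁ A₂ : ℝ} (hVB : VB k ψ L A₀ A₁ A₂)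
    {p B m M δ C : ℝ} {g : ℝ × ℝ → ℝ} {φ : Fin k → ℝ → ℝ} (hD : Dat k p B m M g φ)
    {H : E (k + 2) → ℝ} (hH : Den k B δ C H) {S : ℝ} (hS : 1 ≤ S)
    (hSi : ∫⁻ x, hh B H x ≤ ENNReal.ofReal S) (c : Option (Option (Fin k)))
    (u v : E (k + 2) → ℂ) (hu : Cls k u) (hvm : Measurable v) (hv : ∀ x, ‖v x‖ ≤ 1) :
    ‖∫ x in Cube (k + 2) B, ∫ y in Cube (k + 2) B,
      (Ker (k + 2) ψ L (x - y) * ((H x ^ (1 / 2 : ℝ) : ℝ) : ℂ)) *
        (u y * ((PP g φ (al k p c) (be k p c) y : ℝ) : ℂ)) * (v x * ((RR B H c x : ℝ) : ℂ))‖ ≤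
      AA k A₀ A₁ A₂ S c := by
  have hS0 : 0 ≤ S := by linarith
  have hB := hD.hB.le
  obtain ⟨hum, hu1⟩ := hu.meas
  obtain ⟨c₁, C₁, -, hC₁⟩ := hD.PP_bds (al k p c) (be k p c)
  have hRb : ∃ m M : ℝ, 0 < m ∧ ∀ x, m ≤ RR B H c x ∧ RR B H c x ≤ M := by
    match c with
    | none => exact ⟨1, 1, one_pos, fun _ => ⟨le_rfl, le_rfl⟩⟩
    | some none => exact hH.Rs_bds
    | some (some i) => exact hH.Ri_bds i
  have hRm : Measurable (RR B H c) := by
    match c with
    | none => exact measurable_const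
    | some none => exact hH.Rs_meas
    | some (some i) => exact hH.Ri_meas i
  obtain ⟨c₂, C₂, hc₂, hC₂⟩ := hRb
  have ham : Measurable fun y => u y * ((PP g φ (al k p c) (be k p c) y : ℝ) : ℂ) :=
    hum.mul (Complex.measurable_ofReal.comp (hD.PP_meas _ _))
  have hab : ∀ y, ‖u y * ((PP g φ (al k p c) (be k p c) y : ℝ) : ℂ)‖ ≤ 1 * C₁ := by
    intro y
    rw [norm_mul, Complex.norm_real, Real.norm_of_nonneg (hD.PP_pos _ _ _).le]
    exact mul_le_mul (hu1 y) (hC₁ y).2 (hD.PP_pos _ _ _).le zero_le_one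
  have hbm : Measurable fun x => ((H x ^ (1 / 2 : ℝ) : ℝ) : ℂ) * (v x * ((RR B H c x : ℝ) : ℂ)) :=
    (Complex.measurable_ofReal.comp (hH.hH.pow_const _)).mul
      (hvm.mul (Complex.measurable_ofReal.comp hRm))
  have hbb : ∀ x, ‖((H x ^ (1 / 2 : ℝ) : ℝ) : ℂ) * (v x * ((RR B H c x : ℝ) : ℂ))‖ ≤
      C ^ (1 / 2 : ℝ) * (1 * C₂) := by
    intro x
    have h1 : 0 ≤ RR B H c x := hc₂.le.trans (hC₂ x).1
    rw [norm_mul, norm_mul, Complex.norm_real, Complex.norm_real, Real.norm_of_nonneg h1,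
      Real.norm_of_nonneg (Real.rpow_nonneg (hH.hpos x).le _)]
    refine mul_le_mul (Real.rpow_le_rpow (hH.hpos x).le (hH.hb x).2 (by norm_num)) ?_
      (mul_nonneg (norm_nonneg _) h1) (Real.rpow_nonneg hH.hC.le _)
    exact mul_le_mul (hv x) (hC₂ x).2 h1 zero_le_one
  have hGf := good_ind hB ham hab
  have hGh := good_ind hB hbm hbb
  rw [form_eq (n := k + 2) hψ hB _ _ _ ham ⟨_, hab⟩]
  match c with
  | none =>
    refine norm_le_of_enorm (mul_nonneg hVB.pos₀.le hS0) ?_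
    refine (hVB.v0 _ _ hGf hGh).trans ?_
    change _ ≤ ENNReal.ofReal (A₀ * S)
    rw [ENNReal.ofReal_mul hVB.pos₀.le]
    refine mul_le_mul' ?_ (S_pow hS (by norm_num) (by norm_num) ((hH.H0 hv).trans hSi))
    exact mul_le_of_le_one_right zero_le (one_pow' (by norm_num) (hD.F0 hu1))
  | some none =>
    refine norm_le_of_enorm (mul_nonneg hVB.pos₂.le hS0) ?_
    refine (hVB.w2 _ _ hGf hGh).trans ?_
    change _ ≤ ENNReal.ofReal (A₂ * S)
    rw [ENNReal.ofReal_mul hVB.pos₂.le]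
    refine mul_le_mul' ?_ (S_pow hS (by norm_num) (by norm_num) ((hH.H2 hv).trans hSi))
    exact mul_le_of_le_one_right zero_le (one_pow' (by norm_num) (hD.F2 hu1))
  | some (some i) =>
    obtain ⟨a₀, a, h1, h2, h3, h4, rfl⟩ := hu
    refine norm_le_of_enorm (mul_nonneg hVB.pos₁.le hS0) ?_
    have hw := hVB.w1 _ _ hGf hGh i.succ.succ ((Icc (-B) B).indicator (a i))
      ((h2 i).indicator measurableSet_Icc) (fun s => ?_) ⟨B, fun s hs => ?_⟩
      (GG g φ p B a₀ a i) (GG_good hD h1 h2 h3 h4 i) (fun s y => GG_eq g φ p B a₀ a i s y)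
    · refine hw.trans ?_
      change _ ≤ ENNReal.ofReal (A₁ * S)
      rw [ENNReal.ofReal_mul hVB.pos₁.le]
      refine mul_le_mul' ?_ (S_pow hS (by norm_num) (by norm_num) ((hH.H1 hv i).trans hSi))
      exact mul_le_of_le_one_right zero_le (one_pow' (by norm_num) (GG_int hD h3 h4 i))
    · by_cases hs : s ∈ Icc (-B) B
      · rw [indicator_of_mem hs]
        exact h4 i s
      · rw [indicator_of_notMem hs, norm_zero]
        exact zero_le_one
    · by_contra hcon
      have hs' : s ∉ Icc (-B) B := fun h => hcon (abs_le.2 h)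
      exact hs (indicator_of_notMem hs' _)

/-- the interpolated inequality -/
theorem interp {ψ : ℝ → ℝ} (hψ : Bump ψ) {L A₀ A₁ A₂ : ℝ} (hVB : VB k ψ L A₀ A₁ A₂)
    {p B m M δ C : ℝ} {g : ℝ × ℝ → ℝ} {φ : Fin k → ℝ → ℝ} (hD : Dat k p B m M g φ)
    {H : E (k + 2) → ℝ} (hH : Den k B δ C H) {S : ℝ} (hS : 1 ≤ S)
    (hSi : ∫⁻ x, hh B H x ≤ ENNReal.ofReal S) {τ t : ℝ} (hτ0 : 0 ≤ τ) (hτ1 : τ ≤ 1)
    (ht : 2 * ((k : ℝ) + 2) * t = τ) (hpt : p * (1 / 2 - t) = 1)
    (u v : E (k + 2) → ℂ) (hu : Cls k u) (hvm : Measurable v) (hv : ∀ x, ‖v x‖ ≤ 1) :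
    ‖∫ x in Cube (k + 2) B, ∫ y in Cube (k + 2) B,
      (Ker (k + 2) ψ L (x - y) * ((H x ^ (1 / 2 : ℝ) : ℝ) : ℂ)) *
        (u y * ((PP g φ 1 (fun _ => 1) y : ℝ) : ℂ)) *
        (v x * ((Rs B H x ^ (4 * t) * ∏ i : Fin k, Ri B H i x ^ (2 * t) : ℝ) : ℂ))‖ ≤
      A₀ ^ (1 - τ) * (A₂ ^ (4 * t) * A₁ ^ (k * (2 * t))) * S := by
  have hk0 : (0 : ℝ) ≤ k := Nat.cast_nonneg k
  have ht0 : 0 ≤ t := by
    by_contra hcon
    push Not at hcon
    nlinarith
  have hS0 : 0 < S := by linarith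
  haveI hfin : IsFiniteMeasure (volume.restrict (Cube (k + 2) B)) :=
    ⟨by rw [Measure.restrict_apply_univ]; exact cube_vol_lt_top _ _ hD.hB.le⟩
  have hKb : ∃ M : ℝ, ∀ x y, ‖Ker (k + 2) ψ L (x - y) * ((H x ^ (1 / 2 : ℝ) : ℝ) : ℂ)‖ ≤ M := by
    obtain ⟨M', hM'⟩ := Ker_bd (n := k + 2) ψ L
    refine ⟨M' * C ^ (1 / 2 : ℝ), fun x y => ?_⟩
    rw [norm_mul, Complex.norm_real, Real.norm_of_nonneg (Real.rpow_nonneg (hH.hpos x).le _)]
    exact mul_le_mul (hM' _) (Real.rpow_le_rpow (hH.hpos x).le (hH.hb x).2 (by norm_num))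
      (Real.rpow_nonneg (hH.hpos x).le _) ((norm_nonneg _).trans (hM' 0))
  have hKm : Measurable (Function.uncurry fun x y =>
      Ker (k + 2) ψ L (x - y) * ((H x ^ (1 / 2 : ℝ) : ℝ) : ℂ)) :=
    ((Ker_meas hψ).comp (measurable_fst.sub measurable_snd)).mul
      ((Complex.measurable_ofReal.comp (hH.hH.pow_const _)).comp measurable_fst)
  have key := geo_interp (volume.restrict (Cube (k + 2) B)) (volume.restrict (Cube (k + 2) B))
    (fun x y => Ker (k + 2) ψ L (x - y) * ((H x ^ (1 / 2 : ℝ) : ℝ) : ℂ)) hKm hKb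
    (Finset.univ : Finset (Option (Option (Fin k)))) (th k τ t) ?_ ?_
    (fun c => PP g φ (al k p c) (be k p c)) (RR B H) (fun c _ => hD.PP_meas _ _) ?_
    (fun c _ => hD.PP_bds _ _) ?_ (AA k A₀ A₁ A₂ S) ?_ (Cls k)
    (fun u hu => hu.meas) (fun u hu c _ t => hu.twist hD _ _ t)
    (fun c _ u v hu hvm hv => vert hψ hVB hD hH hS hSi c u v hu hvm hv) u v hu hvm hv
  · have e1 : ∀ y : E (k + 2), ∏ c : Option (Option (Fin k)),
        PP g φ (al k p c) (be k p c) y ^ th k τ t c = PP g φ 1 (fun _ => 1) y := by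
      intro y
      simp only [hD.PP_rpow]
      rw [hD.PP_prod]
      have s1 : ∑ c : Option (Option (Fin k)), th k τ t c * al k p c = 1 := by
        rw [Fintype.sum_option, Fintype.sum_option]
        simp only [th, al, Finset.sum_const, Finset.card_univ, Fintype.card_fin, nsmul_eq_mul]
        linear_combination hpt + (p / 2) * ht
      have s2 : ∀ j : Fin k, ∑ c : Option (Option (Fin k)), th k τ t c * be k p c j = 1 := by
        intro j
        rw [Fintype.sum_option, Fintype.sum_option]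
        simp only [th, be]
        have s3 : ∑ i : Fin k, 2 * t * (if j = i then 0 else p / 2) = k * (t * p) - t * p := by
          have s4 : ∀ i : Fin k, 2 * t * (if j = i then 0 else p / 2) =
              t * p - (if j = i then t * p else 0) := by
            intro i
            split_ifs
            · ring
            · ring
          simp only [s4]
          rw [Finset.sum_sub_distrib, Finset.sum_ite_eq Finset.univ j, if_pos (Finset.mem_univ j)]
          simp
        rw [s3]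
        linear_combination hpt + (p / 2) * ht
      rw [s1]
      congr 1
      funext j
      exact s2 j
    have e2 : ∀ x : E (k + 2), ∏ c : Option (Option (Fin k)), RR B H c x ^ th k τ t c =
        Rs B H x ^ (4 * t) * ∏ i : Fin k, Ri B H i x ^ (2 * t) := by
      intro x
      rw [Fintype.prod_option, Fintype.prod_option]
      simp only [RR, th, Real.one_rpow, one_mul]
    have e3 : ∏ c : Option (Option (Fin k)), AA k A₀ A₁ A₂ S c ^ th k τ t c =
        A₀ ^ (1 - τ) * (A₂ ^ (4 * t) * A₁ ^ (k * (2 * t))) * S := by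
      rw [Fintype.prod_option, Fintype.prod_option]
      simp only [AA, th, Finset.prod_const, Finset.card_univ, Fintype.card_fin]
      rw [Real.mul_rpow hVB.pos₀.le hS0.le, Real.mul_rpow hVB.pos₁.le hS0.le,
        Real.mul_rpow hVB.pos₂.le hS0.le, mul_pow, ← Real.rpow_natCast, ← Real.rpow_natCast,
        ← Real.rpow_mul hVB.pos₁.le, ← Real.rpow_mul hS0.le]
      have e4 : S ^ (1 - τ) * (S ^ (4 * t) * S ^ (2 * t * (k : ℝ))) = S := by
        rw [← Real.rpow_add hS0, ← Real.rpow_add hS0]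
        have : 1 - τ + (4 * t + 2 * t * (k : ℝ)) = 1 := by linear_combination ht
        rw [this, Real.rpow_one]
      have e5 : (k : ℝ) * (2 * t) = 2 * t * k := by ring
      rw [e5]
      linear_combination (A₀ ^ (1 - τ) * (A₂ ^ (4 * t) * A₁ ^ (2 * t * (k : ℝ)))) * e4
    rw [e3] at key
    simp only [e1, e2] at key
    exact key
  · intro c _
    match c with
    | none => simp only [th]; linarith
    | some none => simp only [th]; linarith
    | some (some i) => simp only [th]; linarith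
  · rw [Fintype.sum_option, Fintype.sum_option]
    simp only [th, Finset.sum_const, Finset.card_univ, Fintype.card_fin, nsmul_eq_mul]
    linear_combination ht
  · intro c _
    match c with
    | none => exact measurable_const
    | some none => exact hH.Rs_meas
    | some (some i) => exact hH.Ri_meas i
  · intro c _
    match c with
    | none => exact ⟨1, 1, one_pos, fun _ => ⟨le_rfl, le_rfl⟩⟩
    | some none => exact hH.Rs_bds
    | some (some i) => exact hH.Ri_bds i
  · intro c _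
    match c with
    | none => exact mul_nonneg hVB.pos₀.le hS0.le
    | some none => exact mul_nonneg hVB.pos₂.le hS0.le
    | some (some i) => exact mul_nonneg hVB.pos₁.le hS0.le

end Pool.Agent.TH671.J716
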