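import Mathlib
import Pool.Agent.TH671.J716F
set_option autoImplicit false

/-! # Core interpolation, `p ≥ 2` (job 716): the Loomis-Whitney weight -/

namespace Pool.Agent.TH671.J716

open MeasureTheory Set Complex
open scoped ENNReal RealInnerProductSpace
open Pool.Agent.TH278
open Pool.Agent.H438R2.RZ (e Good ft Pl Bump TR)
open Pool.Agent.H789R2.FR (E)

lemma lint_E1 (F : E 1 → ℝ≥0∞) : ∫⁻ w, F w = ∫⁻ s : ℝ, F (WithLp.toLp 2 fun _ => s) := by
  rw [J668.lint_toLp]
  have h := (volume_preserving_funUnique (Fin 1) ℝ).symm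
  have h1 := h.lintegral_comp_emb (MeasurableEquiv.funUnique (Fin 1) ℝ).symm.measurableEmbedding
    (fun y => F (WithLp.toLp 2 y))
  exact h1.symm

lemma marg_one {B : ℝ} {H : E (1 + 2) → ℝ} (x : E (1 + 2)) (i : Fin 1) :
    Ms B H (x 0, x 1) = Mi B H i x := by
  unfold Ms Mi
  rw [lint_E1]
  refine lintegral_congr fun s => ?_
  congr 1
  ext j
  have hi : i = 0 := Subsingleton.elim _ _
  subst hi
  fin_cases j <;> simp [inp, Function.update] <;> rfl

/-- the weight for Hoelder -/
lemma exP {k : ℕ} (hk : 1 ≤ k) {B δ C : ℝ} {H : E (k + 2) → ℝ} (hH : Den k B δ C H) {S : ℝ}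
    (hS : 1 ≤ S) (hSi : ∫⁻ x, hh B H x ≤ ENNReal.ofReal S) (t : ℝ) :
    ∃ P : E (k + 2) → ℝ, Measurable P ∧ (∃ m M : ℝ, 0 < m ∧ ∀ x, m ≤ P x ∧ P x ≤ M) ∧
      (∀ x ∈ Cube (k + 2) B, P x ^ (-(((k : ℝ) - 1) * t)) =
        (Ms B H (x 0, x 1)).toReal ^ t * ∏ i, (Mi B H i x).toReal ^ (-t)) ∧
      ∃ P₀ : ℝ, ∫ x in Cube (k + 2) B, P x ≤ P₀ ∧
        P₀ ^ (((k : ℝ) - 1) * t) ≤ S ^ (((k : ℝ) - 1) * t) := by
  classical
  rcases hk.eq_or_lt with hk1 | hk2
  · subst hk1
    refine ⟨fun _ => 1, measurable_const, ⟨1, 1, one_pos, fun _ => ⟨le_rfl, le_rfl⟩⟩, ?_, _,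
      le_rfl, ?_⟩
    · intro x hx
      rw [Real.one_rpow, Fin.prod_univ_one, marg_one x 0]
      obtain ⟨g1, g2, g3, g4⟩ := hH.Mi_fin 0 hx
      rw [← Real.rpow_add (ENNReal.toReal_pos g3 g4), add_neg_cancel, Real.rpow_zero]
    · simp
  · have hk' : (2 : ℝ) ≤ k := by exact_mod_cast hk2
    have hk0 : (0 : ℝ) < k - 1 := by linarith
    obtain ⟨c, hc⟩ : ∃ c : ℝ, c = 1 / ((k : ℝ) - 1) := ⟨_, rfl⟩
    have hBk : 0 < (2 * B) ^ k := pow_pos (by linarith [hH.hB]) _
    have hB2 : 0 < 2 * B := by linarith [hH.hB]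
    refine ⟨fun x => if x ∈ Cube (k + 2) B then (∏ i, (Mi B H i x).toReal ^ c) *
      (Ms B H (x 0, x 1)).toReal ^ (-c) else 1, ?_, ?_, ?_, S, ?_, le_rfl⟩
    · refine Measurable.ite (cube_meas _ _) ?_ measurable_const
      refine Measurable.mul (Finset.measurable_fun_prod _ fun i _ => ?_) ?_
      · exact (hH.Mi_meas i).ennreal_toReal.pow_const _
      · exact (((hH.Ms_meas).comp (by fun_prop : Measurable fun x : E (k + 2) =>
          (x 0, x 1))).ennreal_toReal).pow_const _
    · obtain ⟨c₁, C₁, h1, h2, h3, h4⟩ := rpow_bds (mul_pos hH.hδ hB2)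
        (mul_le_mul_of_nonneg_right ((hH.hb 0).1.trans (hH.hb 0).2) hB2.le) c
      obtain ⟨c₂, C₂, g1, g2, g3, g4⟩ := rpow_bds (mul_pos hH.hδ hBk)
        (mul_le_mul_of_nonneg_right ((hH.hb 0).1.trans (hH.hb 0).2) hBk.le) (-c)
      refine ⟨(∏ _i : Fin k, c₁) * c₂, (∏ _i : Fin k, C₁) * C₂,
        mul_pos (Finset.prod_pos fun _ _ => h1) g1, fun x => ?_⟩
      simp only
      split_ifs with hx
      · have p2 := hH.Ms_fin (cube_coord.1 hx).1
        have p2' := g4 _ p2.1 p2.2.1
        constructor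
        · refine mul_le_mul ?_ p2'.1 g1.le (Finset.prod_nonneg fun i _ =>
            Real.rpow_nonneg ENNReal.toReal_nonneg _)
          refine Finset.prod_le_prod (fun _ _ => h1.le) fun i _ => ?_
          have p1 := hH.Mi_fin i hx
          exact (h4 _ p1.1 p1.2.1).1
        · refine mul_le_mul ?_ p2'.2 (g1.le.trans p2'.1) (Finset.prod_nonneg fun i _ => by linarith)
          refine Finset.prod_le_prod (fun i _ => Real.rpow_nonneg ENNReal.toReal_nonneg _)
            fun i _ => ?_
          have p1 := hH.Mi_fin i hx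
          exact (h4 _ p1.1 p1.2.1).2
      · constructor
        · exact mul_le_one₀ (Finset.prod_le_one (fun _ _ => h1.le) fun _ _ => h2) g1.le g2
        · have : (1 : ℝ) ≤ ∏ _i : Fin k, C₁ := by
            rw [Finset.prod_const]
            exact one_le_pow₀ h3
          nlinarith
    · intro x hx
      simp only [if_pos hx]
      have p2 := hH.Ms_fin (cube_coord.1 hx).1
      have p2' : 0 < (Ms B H (x 0, x 1)).toReal := ENNReal.toReal_pos p2.2.2.1 p2.2.2.2
      have p1 : ∀ i, 0 < (Mi B H i x).toReal := fun i =>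
        ENNReal.toReal_pos (hH.Mi_fin i hx).2.2.1 (hH.Mi_fin i hx).2.2.2
      rw [Real.mul_rpow (Finset.prod_nonneg fun i _ => Real.rpow_nonneg (p1 i).le _)
        (Real.rpow_nonneg p2'.le _), ← Real.finsetProd_rpow _ _ fun i _ =>
          Real.rpow_nonneg (p1 i).le _, ← Real.rpow_mul p2'.le, mul_comm]
      have e1 : -c * -(((k : ℝ) - 1) * t) = t := by
        rw [hc]
        field_simp
      have e2 : c * -(((k : ℝ) - 1) * t) = -t := by
        rw [hc]
        field_simp
      rw [e1]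
      congr 1
      refine Finset.prod_congr rfl fun i _ => ?_
      rw [← Real.rpow_mul (p1 i).le, e2]
    · rw [integral_eq_lintegral_of_nonneg_ae]
      · refine ENNReal.toReal_le_of_le_ofReal (by linarith) ?_
        refine le_trans ?_ ((LW k hk2 (hh B H) hH.hh_meas).trans hSi)
        refine le_trans (le_of_eq ?_) (setLIntegral_le_lintegral (Cube (k + 2) B) _)
        refine setLIntegral_congr_fun (cube_meas _ _) fun x hx => ?_
        simp only [if_pos hx]
        have p2 := hH.Ms_fin (cube_coord.1 hx).1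
        have p2' : 0 < (Ms B H (x 0, x 1)).toReal := ENNReal.toReal_pos p2.2.2.1 p2.2.2.2
        have p1 : ∀ i, 0 < (Mi B H i x).toReal := fun i =>
          ENNReal.toReal_pos (hH.Mi_fin i hx).2.2.1 (hH.Mi_fin i hx).2.2.2
        rw [ENNReal.ofReal_mul (Finset.prod_nonneg fun i _ => Real.rpow_nonneg (p1 i).le _),
          ENNReal.ofReal_prod_of_nonneg fun i _ => Real.rpow_nonneg (p1 i).le _,
          ← ENNReal.ofReal_rpow_of_pos p2', ENNReal.ofReal_toReal p2.2.2.2, hc]
        congr 1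
        refine Finset.prod_congr rfl fun i _ => ?_
        rw [← ENNReal.ofReal_rpow_of_pos (p1 i), ENNReal.ofReal_toReal (hH.Mi_fin i hx).2.2.2]
        rfl
      · refine Filter.Eventually.of_forall fun x => ?_
        simp only [Pi.zero_apply]
        split_ifs
        · exact mul_nonneg (Finset.prod_nonneg fun i _ => Real.rpow_nonneg
            ENNReal.toReal_nonneg _) (Real.rpow_nonneg ENNReal.toReal_nonneg _)
        · exact zero_le_one
      · refine Measurable.aestronglyMeasurable ?_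
        refine Measurable.ite (cube_meas _ _) ?_ measurable_const
        refine Measurable.mul (Finset.measurable_fun_prod _ fun i _ => ?_) ?_
        · exact (hH.Mi_meas i).ennreal_toReal.pow_const _
        · exact (((hH.Ms_meas).comp (by fun_prop : Measurable fun x : E (k + 2) =>
            (x 0, x 1))).ennreal_toReal).pow_const _

end Pool.Agent.TH671.J716
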