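import Mathlib
import Pool.Agent.TH278.Defs3
import Pool.Agent.TH554.J639
import Pool.Agent.TH26.J667
import Pool.Agent.TH26.J668
import Pool.Agent.TH429.J635
import Pool.Agent.H438R2.RZ.R3
import Pool.Agent.TH671.J716G
set_option autoImplicit false

/-! # Core interpolation, `p ≥ 2` (job 716) -/

namespace Pool.Agent.TH278

open MeasureTheory Set Complex
open scoped ENNReal RealInnerProductSpace
open Pool.Agent.H438R2.RZ (e Good ft Pl Bump TR)
open Pool.Agent.H789R2.FR (E)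
open Pool.Agent.TH671.J716

namespace J716

variable {k : ℕ}

/-- the product of the dual weights on the cube -/
lemma weights {B δ C : ℝ} {H : E (k + 2) → ℝ} (hH : Den k B δ C H) (t : ℝ)
    {x : E (k + 2)} (hx : x ∈ Cube (k + 2) B) :
    H x ^ (1 / 2 : ℝ) * (Rs B H x ^ (4 * t) * ∏ i : Fin k, Ri B H i x ^ (2 * t)) =
      H x ^ (1 / 2 + (k : ℝ) * t) *
        ((Ms B H (x 0, x 1)).toReal ^ t * ∏ i, (Mi B H i x).toReal ^ (-t)) := by
  have hp := hH.hpos x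
  have p2 := hH.Ms_fin (cube_coord.1 hx).1
  have p2' : 0 < (Ms B H (x 0, x 1)).toReal := ENNReal.toReal_pos p2.2.2.1 p2.2.2.2
  have p1 : ∀ i, 0 < (Mi B H i x).toReal := fun i =>
    ENNReal.toReal_pos (hH.Mi_fin i hx).2.2.1 (hH.Mi_fin i hx).2.2.2
  have e1 : Rs B H x ^ (4 * t) = (Ms B H (x 0, x 1)).toReal ^ t := by
    unfold Rs
    rw [if_pos hx, ← Real.rpow_mul p2'.le]
    congr 1
    ring
  have e2 : ∀ i : Fin k, Ri B H i x ^ (2 * t) = H x ^ t * (Mi B H i x).toReal ^ (-t) := by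
    intro i
    unfold Ri
    rw [if_pos hx, Real.mul_rpow (Real.rpow_nonneg hp.le _) (Real.rpow_nonneg (p1 i).le _),
      ← Real.rpow_mul hp.le, ← Real.rpow_mul (p1 i).le]
    congr 2
    · ring
    · ring
  rw [e1]
  simp only [e2]
  rw [Finset.prod_mul_distrib, Finset.prod_const, Finset.card_univ, Fintype.card_fin,
    Real.rpow_add hp, ← Real.rpow_natCast, ← Real.rpow_mul hp.le, mul_comm t (k : ℝ)]
  ring

/-- the bound with the parameter `δ` -/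
theorem core_delta (hk : 1 ≤ k) {ψ : ℝ → ℝ} (hψ : Bump ψ) {L A₀ A₁ A₂ : ℝ}
    (hVB : VB k ψ L A₀ A₁ A₂)
    {p B m M : ℝ} {g : ℝ × ℝ → ℝ} {φ : Fin k → ℝ → ℝ} (hD : Dat k p B m M g φ)
    {τ t : ℝ} (hτ0 : 0 ≤ τ) (hτ1 : τ ≤ 1)
    (ht : 2 * ((k : ℝ) + 2) * t = τ) (hpt : p * (1 / 2 - t) = 1)
    (U : E (k + 2) → ℂ) (hU : Cls k U) (f : E (k + 2) → ℂ)
    (hf : f = fun y => U y * ((PP g φ 1 (fun _ => 1) y : ℝ) : ℂ))
    (hfs : ∀ x, x ∉ Cube (k + 2) B → f x = 0)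
    (Z : ℝ) (hZ : Z = ∫ x in Cube (k + 2) B, ‖TR (k + 2) (ML ψ L) f x‖ ^ p) (hZ0 : 0 < Z)
    (δ : ℝ) (hδ : 0 < δ) :
    Z ^ (1 / p) ≤ A₀ ^ (1 - τ) * (A₂ ^ (4 * t) * A₁ ^ (k * (2 * t))) *
      (1 + δ * (volume (Cube (k + 2) B)).toReal) *
        (1 + δ * (volume (Cube (k + 2) B)).toReal) ^ (((k : ℝ) - 1) * t) := by
  have hk0 : (1 : ℝ) ≤ k := by exact_mod_cast hk
  have ht0 : 0 ≤ t := by
    by_contra hcon
    push Not at hcon
    nlinarith
  have hB := hD.hB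
  have hp := hD.hp
  haveI hfin : IsFiniteMeasure (volume.restrict (Cube (k + 2) B)) :=
    ⟨by rw [Measure.restrict_apply_univ]; exact cube_vol_lt_top _ _ hB.le⟩
  obtain ⟨V, hV⟩ : ∃ V : ℝ, V = (volume (Cube (k + 2) B)).toReal := ⟨_, rfl⟩
  rw [← hV]
  have hV0 : 0 ≤ V := by rw [hV]; exact ENNReal.toReal_nonneg
  -- the function
  obtain ⟨hUm, hU1⟩ := hU.meas
  obtain ⟨c₁, C₁, -, hC₁⟩ := hD.PP_bds 1 (fun _ => 1)
  have hfm : Measurable f := by
    rw [hf]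
    exact hUm.mul (Complex.measurable_ofReal.comp (hD.PP_meas _ _))
  have hfb : ∀ y, ‖f y‖ ≤ 1 * C₁ := by
    intro y
    rw [hf]
    simp only
    rw [norm_mul, Complex.norm_real, Real.norm_of_nonneg (hD.PP_pos _ _ _).le]
    exact mul_le_mul (hU1 y) (hC₁ y).2 (hD.PP_pos _ _ _).le zero_le_one
  have hfind : (Cube (k + 2) B).indicator f = f := by
    funext x
    by_cases hx : x ∈ Cube (k + 2) B
    · rw [indicator_of_mem hx]
    · rw [indicator_of_notMem hx, hfs x hx]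
  have hfG : GoodN f := by
    rw [← hfind]
    exact good_ind hB.le hfm hfb
  have hfi : Integrable f := goodN_int hfG
  obtain ⟨F, hF⟩ : ∃ F, F = TR (k + 2) (ML ψ L) f := ⟨_, rfl⟩
  rw [← hF] at hZ
  obtain ⟨Mf, hMf0, hMf⟩ := TR_bd hψ f hfi
  rw [← hF] at hMf
  have hFm : Measurable F := by
    rw [hF]
    exact TR_meas hψ f hfm hfi
  -- the density
  obtain ⟨H, hHd⟩ : ∃ H : E (k + 2) → ℝ, H = fun x => ‖F x‖ ^ p / Z + δ := ⟨_, rfl⟩
  have hGp0 : ∀ x, 0 ≤ ‖F x‖ ^ p / Z := fun x =>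
    div_nonneg (Real.rpow_nonneg (norm_nonneg _) _) hZ0.le
  have hH : Den k B δ (Mf ^ p / Z + δ) H := by
    refine ⟨hB, hδ, ?_, fun x => ?_⟩
    · rw [hHd]
      exact ((hFm.norm.pow_const p).div_const Z).add_const δ
    · rw [hHd]
      simp only
      refine ⟨by linarith [hGp0 x], ?_⟩
      have : ‖F x‖ ^ p / Z ≤ Mf ^ p / Z :=
        div_le_div_of_nonneg_right (Real.rpow_le_rpow (norm_nonneg _) (hMf x) hp.le) hZ0.le
      linarith
  have hGi : Integrable (fun x => ‖F x‖ ^ p) (volume.restrict (Cube (k + 2) B)) := by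
    refine Integrable.of_bound (hFm.norm.pow_const p).aestronglyMeasurable (Mf ^ p)
      (ae_of_all _ fun x => ?_)
    rw [Real.norm_of_nonneg (Real.rpow_nonneg (norm_nonneg _) _)]
    exact Real.rpow_le_rpow (norm_nonneg _) (hMf x) hp.le
  have hS : 1 ≤ 1 + δ * V := by nlinarith [mul_nonneg hδ.le hV0]
  have hSi : ∫⁻ x, hh B H x ≤ ENNReal.ofReal (1 + δ * V) := by
    unfold hh
    rw [lintegral_indicator (cube_meas _ _), ← ofReal_integral_eq_lintegral_ofReal]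
    · refine ENNReal.ofReal_le_ofReal (le_of_eq ?_)
      rw [hHd]
      simp only
      rw [integral_add (hGi.div_const Z) (integrable_const δ), integral_div, ← hZ,
        div_self hZ0.ne', integral_const, smul_eq_mul, measureReal_restrict_apply_univ,
        Measure.real, ← hV]
      ring
    · rw [hHd]
      exact (hGi.div_const Z).add (integrable_const δ)
    · exact ae_of_all _ fun x => (hH.hpos x).le
  obtain ⟨P, hPm, hPb, hPx, P₀, hP₀, hP₀'⟩ := exP hk hH hS hSi t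
  -- the dual function
  obtain ⟨v, hv⟩ : ∃ v : E (k + 2) → ℂ, v = fun x => (starRingEnd ℂ) (F x) / ((‖F x‖ : ℝ) : ℂ) :=
    ⟨_, rfl⟩
  have hvm : Measurable v := by
    rw [hv]
    exact (Complex.continuous_conj.measurable.comp hFm).div
      (Complex.measurable_ofReal.comp hFm.norm)
  have hv1 : ∀ x, ‖v x‖ ≤ 1 := by
    intro x
    rw [hv]
    simp only
    rw [norm_div, RCLike.norm_conj, Complex.norm_real, norm_norm]
    exact div_self_le_one _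
  have hFv : ∀ x, F x * v x = ((‖F x‖ : ℝ) : ℂ) := by
    intro x
    rw [hv]
    simp only
    rcases eq_or_ne (F x) 0 with h0 | h0
    · rw [h0]
      simp
    · have h1 : ((‖F x‖ : ℝ) : ℂ) ≠ 0 := by
        rw [Complex.ofReal_ne_zero]
        exact norm_ne_zero_iff.2 h0
      rw [mul_div_assoc', Complex.mul_conj, Complex.normSq_eq_norm_sq, sq]
      push_cast
      field_simp
  have key := interp hψ hVB hD hH hS hSi hτ0 hτ1 ht hpt U v hU hvm hv1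
  obtain ⟨Rr, hRr⟩ : ∃ Rr : E (k + 2) → ℝ,
      Rr = fun x => Rs B H x ^ (4 * t) * ∏ i : Fin k, Ri B H i x ^ (2 * t) := ⟨_, rfl⟩
  have hRrm : Measurable Rr := by
    rw [hRr]
    exact (hH.Rs_meas.pow_const _).mul (Finset.measurable_fun_prod _ fun i _ =>
      (hH.Ri_meas i).pow_const _)
  -- the inner integral
  have hin : ∀ x, ∫ y in Cube (k + 2) B,
      (Ker (k + 2) ψ L (x - y) * ((H x ^ (1 / 2 : ℝ) : ℝ) : ℂ)) *
        (U y * ((PP g φ 1 (fun _ => 1) y : ℝ) : ℂ)) *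
        (v x * ((Rs B H x ^ (4 * t) * ∏ i : Fin k, Ri B H i x ^ (2 * t) : ℝ) : ℂ)) =
      ((‖F x‖ * (H x ^ (1 / 2 : ℝ) * Rr x) : ℝ) : ℂ) := by
    intro x
    have h1 : F x = ∫ y in Cube (k + 2) B, Ker (k + 2) ψ L (x - y) * f y := by
      rw [hF, TR_ker hψ f hfi x, ← integral_indicator (cube_meas _ _)]
      refine integral_congr_ae (ae_of_all _ fun y => ?_)
      simp only
      by_cases hy : y ∈ Cube (k + 2) B
      · rw [indicator_of_mem hy]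
      · rw [indicator_of_notMem hy, hfs y hy, mul_zero]
    have h2 : ∀ y, (Ker (k + 2) ψ L (x - y) * ((H x ^ (1 / 2 : ℝ) : ℝ) : ℂ)) *
        (U y * ((PP g φ 1 (fun _ => 1) y : ℝ) : ℂ)) *
        (v x * ((Rs B H x ^ (4 * t) * ∏ i : Fin k, Ri B H i x ^ (2 * t) : ℝ) : ℂ)) =
        (Ker (k + 2) ψ L (x - y) * f y) *
          (v x * (((H x ^ (1 / 2 : ℝ) : ℝ) : ℂ) * ((Rr x : ℝ) : ℂ))) := by
      intro y
      rw [hf, hRr]
      simp only
      ring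
    simp only [h2]
    rw [integral_mul_const, ← h1, ← mul_assoc, hFv]
    push_cast
    ring
  simp only [hin] at key
  have hcr : (∫ x in Cube (k + 2) B, ((‖F x‖ * (H x ^ (1 / 2 : ℝ) * Rr x) : ℝ) : ℂ)) =
      ((∫ x in Cube (k + 2) B, ‖F x‖ * (H x ^ (1 / 2 : ℝ) * Rr x) : ℝ) : ℂ) :=
    integral_complex_ofReal
  rw [hcr, Complex.norm_real] at key
  have key2 := (le_abs_self _).trans key
  -- comparison
  have ha : (1 : ℝ) / p + (1 / 2 + (k : ℝ) * t) = 1 + ((k : ℝ) - 1) * t := by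
    have : 1 / p = 1 / 2 - t := by
      rw [div_eq_iff hp.ne']
      linarith
    rw [this]
    ring
  have hA0 : 0 ≤ A₀ ^ (1 - τ) * (A₂ ^ (4 * t) * A₁ ^ (k * (2 * t))) * (1 + δ * V) := by
    have := hVB.pos₀
    have := hVB.pos₁
    have := hVB.pos₂
    positivity
  have hcmp : ∀ x ∈ Cube (k + 2) B,
      ‖F x‖ * (‖F x‖ ^ p / ∫ x in Cube (k + 2) B, ‖F x‖ ^ p) ^ (1 / 2 + (k : ℝ) * t) *
        P x ^ (-(((k : ℝ) - 1) * t)) ≤ ‖F x‖ * (H x ^ (1 / 2 : ℝ) * Rr x) := by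
    intro x hx
    rw [← hZ, hRr]
    simp only
    rw [weights hH t hx, ← hPx x hx, mul_assoc]
    refine mul_le_mul_of_nonneg_left ?_ (norm_nonneg _)
    refine mul_le_mul_of_nonneg_right ?_ ?_
    · refine Real.rpow_le_rpow (hGp0 x) ?_ (by positivity)
      rw [hHd]
      simp only
      linarith
    · obtain ⟨mP, MP, hmP, hPb'⟩ := hPb
      exact Real.rpow_nonneg (hmP.le.trans (hPb' x).1) _
  have hRsp : ∃ K : ℝ, ∀ x, ‖Rr x‖ ≤ K := by
    obtain ⟨m₁, M₁, hm₁, hb₁⟩ := hH.Rs_bds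
    choose m₂ M₂ hm₂ hb₂ using fun i => hH.Ri_bds i
    refine ⟨M₁ ^ (4 * t) * ∏ i, M₂ i ^ (2 * t), fun x => ?_⟩
    have q1 : 0 ≤ Rs B H x := hm₁.le.trans (hb₁ x).1
    have q2 : ∀ i, 0 ≤ Ri B H i x := fun i => (hm₂ i).le.trans (hb₂ i x).1
    rw [hRr]
    simp only
    rw [Real.norm_of_nonneg (mul_nonneg (Real.rpow_nonneg q1 _)
      (Finset.prod_nonneg fun i _ => Real.rpow_nonneg (q2 i) _))]
    refine mul_le_mul (Real.rpow_le_rpow q1 (hb₁ x).2 (by linarith)) ?_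
      (Finset.prod_nonneg fun i _ => Real.rpow_nonneg (q2 i) _)
      (Real.rpow_nonneg (q1.trans (hb₁ x).2) _)
    exact Finset.prod_le_prod (fun i _ => Real.rpow_nonneg (q2 i) _) fun i _ =>
      Real.rpow_le_rpow (q2 i) (hb₂ i x).2 (by linarith)
  have hFI : ∫ x in Cube (k + 2) B,
      ‖F x‖ * (‖F x‖ ^ p / ∫ x in Cube (k + 2) B, ‖F x‖ ^ p) ^ (1 / 2 + (k : ℝ) * t) *
        P x ^ (-(((k : ℝ) - 1) * t)) ≤
      A₀ ^ (1 - τ) * (A₂ ^ (4 * t) * A₁ ^ (k * (2 * t))) * (1 + δ * V) := by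
    refine le_trans ?_ key2
    refine integral_mono_of_nonneg ?_ ?_ ?_
    · refine ae_of_all _ fun x => ?_
      obtain ⟨mP, MP, hmP, hPb'⟩ := hPb
      simp only [Pi.zero_apply]
      rw [← hZ]
      exact mul_nonneg (mul_nonneg (norm_nonneg _) (Real.rpow_nonneg (hGp0 x) _))
        (Real.rpow_nonneg (hmP.le.trans (hPb' x).1) _)
    · obtain ⟨K, hK⟩ := hRsp
      refine Integrable.of_bound (C := Mf * ((Mf ^ p / Z + δ) ^ (1 / 2 : ℝ) * K)) ?_
        (ae_of_all _ fun x => ?_)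
      · exact (hFm.norm.mul ((hH.hH.pow_const _).mul hRrm)).aestronglyMeasurable
      · rw [norm_mul, norm_norm, norm_mul, Real.norm_of_nonneg (Real.rpow_nonneg (hH.hpos x).le _)]
        refine mul_le_mul (hMf x) ?_ (mul_nonneg (Real.rpow_nonneg (hH.hpos x).le _)
          (norm_nonneg _)) hMf0
        exact mul_le_mul (Real.rpow_le_rpow (hH.hpos x).le (hH.hb x).2 (by norm_num)) (hK x)
          (norm_nonneg _) (Real.rpow_nonneg hH.hC.le _)
    · exact (ae_restrict_iff' (cube_meas _ _)).2 (ae_of_all _ hcmp)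
  have hfinal := FI (volume.restrict (Cube (k + 2) B)) (fun x => ‖F x‖) P hFm.norm
    (fun x => norm_nonneg _) ⟨Mf, hMf⟩ hPm hPb p (1 / 2 + (k : ℝ) * t) (((k : ℝ) - 1) * t)
    (A₀ ^ (1 - τ) * (A₂ ^ (4 * t) * A₁ ^ (k * (2 * t))) * (1 + δ * V)) P₀ hp (by positivity)
    (mul_nonneg (by linarith) ht0) ha hA0 hP₀ (by rw [← hZ]; exact hZ0) hFI
  rw [← hZ] at hfinal
  exact hfinal.trans (mul_le_mul_of_nonneg_left hP₀' hA0)

end J716

theorem prod_core (k : ℕ) (hk : 1 ≤ k) (ψ : ℝ → ℝ) (hψ : Bump ψ) (L A₀ A₁ A₂ : ℝ) (hL : 20 ≤ L)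
    (hVB : VB k ψ L A₀ A₁ A₂) (τ p : ℝ) (hτ0 : 0 ≤ τ) (hτ1 : τ ≤ 1) (hp : 0 < p)
    (hpτ : 1 / p = 1 / 2 - τ / (2 * ((k : ℝ) + 2))) :
    ProdCore k ψ L p (A₀ ^ (1 - τ) * A₁ ^ ((k : ℝ) * (τ / ((k : ℝ) + 2))) *
      A₂ ^ (2 * τ / ((k : ℝ) + 2))) := by
  intro B hB g φ hg hφ m M hm hgb hφb hgi hφi u₀ u hu₀m hum hu₀ hu hu₀s hus
  have hk0 : (0 : ℝ) ≤ k := Nat.cast_nonneg k
  have hD : Dat k p B m M g φ := ⟨hB, hp, hg, hφ, hm, hgb, hφb, hgi, hφi⟩
  obtain ⟨U, hUd⟩ : ∃ U : E (k + 2) → ℂ, U = fun x => u₀ (x 0, x 1) * ∏ i : Fin k, u i (x i.succ.succ) :=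
    ⟨_, rfl⟩
  have hU : Cls k U := ⟨u₀, u, hu₀m, hum, hu₀, hu, hUd⟩
  obtain ⟨f, hfd⟩ : ∃ f : E (k + 2) → ℂ, f = fun x => (u₀ (x 0, x 1) * ∏ i : Fin k, u i (x i.succ.succ)) *
        ((g (x 0, x 1) * ∏ i : Fin k, φ i (x i.succ.succ) : ℝ) : ℂ) := ⟨_, rfl⟩
  rw [← hfd]
  have hf : f = fun y => U y * ((PP g φ 1 (fun _ => 1) y : ℝ) : ℂ) := by
    rw [hfd, hUd]
    funext x
    simp only [PP, Real.rpow_one]
  have hfs : ∀ x, x ∉ Cube (k + 2) B → f x = 0 := by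
    intro x hx
    rw [hfd]
    simp only
    by_cases h1 : (x 0, x 1) ∈ Icc (-B) B ×ˢ Icc (-B) B
    · have h2 : ∃ i : Fin k, x i.succ.succ ∉ Icc (-B) B := by
        by_contra hcon
        push Not at hcon
        exact hx (cube_coord.2 ⟨h1, hcon⟩)
      obtain ⟨i, hi⟩ := h2
      have h3 : u i (x i.succ.succ) = 0 := by
        by_contra hcon
        exact hi (abs_le.1 (hus i _ hcon))
      rw [Finset.prod_eq_zero (Finset.mem_univ i) h3, mul_zero, zero_mul]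
    · have h3 : u₀ (x 0, x 1) = 0 := by
        by_contra hcon
        have := hu₀s _ hcon
        exact h1 ⟨abs_le.1 this.1, abs_le.1 this.2⟩
      rw [h3, zero_mul, zero_mul]
  obtain ⟨t, htd⟩ : ∃ t : ℝ, t = τ / (2 * ((k : ℝ) + 2)) := ⟨_, rfl⟩
  have ht : 2 * ((k : ℝ) + 2) * t = τ := by
    rw [htd]
    field_simp
  have hpt : p * (1 / 2 - t) = 1 := by
    rw [htd, ← hpτ]
    field_simp
  have ht0 : 0 ≤ t := by rw [htd]; positivity
  -- the function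
  haveI hfin : IsFiniteMeasure (volume.restrict (Cube (k + 2) B)) :=
    ⟨by rw [Measure.restrict_apply_univ]; exact cube_vol_lt_top _ _ hB.le⟩
  obtain ⟨hUm, hU1⟩ := hU.meas
  obtain ⟨c₁, C₁, -, hC₁⟩ := hD.PP_bds 1 (fun _ => 1)
  have hfm : Measurable f := by
    rw [hf]
    exact hUm.mul (Complex.measurable_ofReal.comp (hD.PP_meas _ _))
  have hfb : ∀ y, ‖f y‖ ≤ 1 * C₁ := by
    intro y
    rw [hf]
    simp only
    rw [norm_mul, Complex.norm_real, Real.norm_of_nonneg (hD.PP_pos _ _ _).le]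
    exact mul_le_mul (hU1 y) (hC₁ y).2 (hD.PP_pos _ _ _).le zero_le_one
  have hfind : (Cube (k + 2) B).indicator f = f := by
    funext x
    by_cases hx : x ∈ Cube (k + 2) B
    · rw [indicator_of_mem hx]
    · rw [indicator_of_notMem hx, hfs x hx]
  have hfi : Integrable f := by
    refine goodN_int ?_
    rw [← hfind]
    exact good_ind hB.le hfm hfb
  obtain ⟨Mf, hMf0, hMf⟩ := TR_bd (n := k + 2) (L := L) hψ f hfi
  have hFm : Measurable (TR (k + 2) (ML ψ L) f) := TR_meas hψ f hfm hfi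
  have hGi : Integrable (fun x => ‖TR (k + 2) (ML ψ L) f x‖ ^ p)
      (volume.restrict (Cube (k + 2) B)) := by
    refine Integrable.of_bound (hFm.norm.pow_const p).aestronglyMeasurable (Mf ^ p)
      (ae_of_all _ fun x => ?_)
    rw [Real.norm_of_nonneg (Real.rpow_nonneg (norm_nonneg _) _)]
    exact Real.rpow_le_rpow (norm_nonneg _) (hMf x) hp.le
  obtain ⟨Z, hZ⟩ : ∃ Z : ℝ, Z = ∫ x in Cube (k + 2) B, ‖TR (k + 2) (ML ψ L) f x‖ ^ p := ⟨_, rfl⟩
  have hZn : 0 ≤ Z := by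
    rw [hZ]
    exact integral_nonneg fun x => Real.rpow_nonneg (norm_nonneg _) _
  have hlin : ∫⁻ x in Cube (k + 2) B, ‖TR (k + 2) (ML ψ L) f x‖ₑ ^ p = ENNReal.ofReal Z := by
    rw [hZ, ofReal_integral_eq_lintegral_ofReal hGi
      (ae_of_all _ fun x => Real.rpow_nonneg (norm_nonneg _) _)]
    refine lintegral_congr fun x => ?_
    rw [← ENNReal.ofReal_rpow_of_nonneg (norm_nonneg _) hp.le, ofReal_norm]
  rw [hlin]
  rcases hZn.eq_or_lt with hZ0 | hZ0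
  · rw [← hZ0, ENNReal.ofReal_zero, ENNReal.zero_rpow_of_pos (by positivity)]
    exact zero_le
  rw [ENNReal.ofReal_rpow_of_pos hZ0]
  refine ENNReal.ofReal_le_ofReal ?_
  have e1 : (k : ℝ) * (τ / ((k : ℝ) + 2)) = k * (2 * t) := by
    rw [htd]
    field_simp
  have e2 : 2 * τ / ((k : ℝ) + 2) = 4 * t := by
    rw [htd]
    field_simp
    ring
  rw [e1, e2]
  have e3 : A₀ ^ (1 - τ) * A₁ ^ ((k : ℝ) * (2 * t)) * A₂ ^ (4 * t) =
      A₀ ^ (1 - τ) * (A₂ ^ (4 * t) * A₁ ^ ((k : ℝ) * (2 * t))) := by ring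
  rw [e3]
  obtain ⟨V, hV⟩ : ∃ V : ℝ, V = (volume (Cube (k + 2) B)).toReal := ⟨_, rfl⟩
  have main := J716.core_delta hk hψ hVB hD hτ0 hτ1 ht hpt U hU f hf hfs Z hZ hZ0
  rw [← hV] at main
  have hk1 : (1 : ℝ) ≤ k := by exact_mod_cast hk
  have hcont : Filter.Tendsto (fun δ : ℝ => A₀ ^ (1 - τ) * (A₂ ^ (4 * t) * A₁ ^ ((k : ℝ) * (2 * t))) *
      (1 + δ * V) * (1 + δ * V) ^ (((k : ℝ) - 1) * t)) (nhdsWithin 0 (Ioi 0))
      (nhds (A₀ ^ (1 - τ) * (A₂ ^ (4 * t) * A₁ ^ ((k : ℝ) * (2 * t))) *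
      (1 + 0 * V) * (1 + 0 * V) ^ (((k : ℝ) - 1) * t))) := by
    refine Filter.Tendsto.mono_left ?_ nhdsWithin_le_nhds
    have h1 : Continuous fun δ : ℝ => 1 + δ * V := by fun_prop
    have h2 : Continuous fun δ : ℝ => (1 + δ * V) ^ (((k : ℝ) - 1) * t) :=
      h1.rpow_const fun _ => Or.inr (mul_nonneg (by linarith) ht0)
    have h3 : Continuous fun δ : ℝ => A₀ ^ (1 - τ) * (A₂ ^ (4 * t) * A₁ ^ ((k : ℝ) * (2 * t))) *
        (1 + δ * V) * (1 + δ * V) ^ (((k : ℝ) - 1) * t) := (continuous_const.mul h1).mul h2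
    exact h3.tendsto 0
  have hle := ge_of_tendsto hcont (Filter.eventually_of_mem self_mem_nhdsWithin
    fun δ hδ => main δ hδ)
  rw [zero_mul, add_zero, mul_one, Real.one_rpow, mul_one] at hle
  exact hle

end Pool.Agent.TH278
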