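import Pool.Agent.TH149.WR.Stm

set_option autoImplicit false

/-! # Counting lemma: many extensions (job 1056) -/

namespace Pool.Agent.TH671.J1056

open Finset
open Pool.Agent.TH149.WR

lemma desc_le (m n : ℕ) (hmn : m ≤ n) (h : ℕ) :
    m.descFactorial h * n ^ h ≤ n.descFactorial h * m ^ h := by
  induction h with
  | zero => simp
  | succ h ih =>
    rw [Nat.descFactorial_succ, Nat.descFactorial_succ, pow_succ, pow_succ]
    have h1 : (m - h) * n ≤ (n - h) * m := by
      rw [Nat.sub_mul, Nat.sub_mul]
      have : h * m ≤ h * n := Nat.mul_le_mul_left h hmn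
      have h3 : m * n = n * m := Nat.mul_comm _ _
      omega
    calc (m - h) * m.descFactorial h * (n ^ h * n)
        = (m.descFactorial h * n ^ h) * ((m - h) * n) := by ring
      _ ≤ (n.descFactorial h * m ^ h) * ((n - h) * m) := Nat.mul_le_mul ih h1
      _ = _ := by ring

lemma choose_le (m n h : ℕ) (hh : h ≤ m) (hmn : m ≤ n) :
    (n - h).choose (m - h) * n ^ h ≤ n.choose m * m ^ h := by
  have h1 : n.choose m * m.choose h = n.choose h * (n - h).choose (m - h) :=
    Nat.choose_mul hh
  have h2 : m.choose h * n ^ h ≤ n.choose h * m ^ h := by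
    have h3 := desc_le m n hmn h
    rw [Nat.descFactorial_eq_factorial_mul_choose, Nat.descFactorial_eq_factorial_mul_choose,
      mul_assoc, mul_assoc] at h3
    exact Nat.le_of_mul_le_mul_left h3 (Nat.factorial_pos h)
  have h4 : 0 < n.choose h := Nat.choose_pos (hh.trans hmn)
  refine Nat.le_of_mul_le_mul_left ?_ h4
  calc n.choose h * ((n - h).choose (m - h) * n ^ h)
      = (n.choose h * (n - h).choose (m - h)) * n ^ h := by ring
    _ = n.choose m * (m.choose h * n ^ h) := by rw [← h1]; ring
    _ ≤ n.choose m * (n.choose h * m ^ h) := Nat.mul_le_mul_left _ h2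
    _ = _ := by ring

lemma card_super {V : Type} [Fintype V] [DecidableEq V] (I : Finset V) (m : ℕ) (hI : I.card ≤ m) :
    ((powersetCard m (univ : Finset V)).filter (fun S => I ⊆ S)).card ≤
      (Fintype.card V - I.card).choose (m - I.card) := by
  have h1 : (powersetCard (m - I.card) (univ \ I)).card =
      (Fintype.card V - I.card).choose (m - I.card) := by
    rw [card_powersetCard, card_univ_sdiff]
  rw [← h1]
  refine card_le_card_of_injOn (fun S => S \ I) ?_ ?_
  · intro S hS
    simp only [coe_filter, mem_powersetCard, Set.mem_ofPred_eq] at hS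
    rw [mem_coe, mem_powersetCard]
    refine ⟨sdiff_subset_sdiff (subset_univ _) (Subset.refl _), ?_⟩
    rw [card_sdiff_of_subset hS.2, hS.1.2]
  · intro S hS S' hS' h
    simp only [coe_filter, mem_powersetCard, Set.mem_ofPred_eq] at hS hS'
    simp only at h
    rw [← sdiff_union_of_subset hS.2, ← sdiff_union_of_subset hS'.2, h]

theorem ext : S_ext := by
  intro V _ _ G W _ _ H v m hWm hmV hyp
  classical
  set n := Fintype.card V with hn
  set h := Fintype.card W with hh
  have hh1 : 1 ≤ h := Fintype.card_pos_iff.2 ⟨v⟩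
  let E : Finset (W → V) := univ.filter (fun f => ∃ e : H ↪g G, ∀ w, e w = f w)
  have hEinj : ∀ f ∈ E, Function.Injective f := by
    intro f hf
    obtain ⟨e, he⟩ := (mem_filter.1 hf).2
    intro a b hab
    rw [← he, ← he] at hab
    exact e.injective hab
  -- counting pairs
  have h1 : n.choose m ≤ E.card * (n - h).choose (m - h) := by
    have h2 : n.choose m = (powersetCard m (univ : Finset V)).card := by
      rw [card_powersetCard, card_univ]
    rw [h2]
    have h3 : (powersetCard m (univ : Finset V)) ⊆ E.biUnion (fun f =>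
        (powersetCard m (univ : Finset V)).filter (fun S => univ.image f ⊆ S)) := by
      intro S hS
      obtain ⟨f, hf⟩ := hyp S (mem_powersetCard.1 hS).2
      refine mem_biUnion.2 ⟨fun w => f w, ?_, ?_⟩
      · exact mem_filter.2 ⟨mem_univ _, f, fun w => rfl⟩
      · refine mem_filter.2 ⟨hS, ?_⟩
        intro x hx
        obtain ⟨w, -, rfl⟩ := mem_image.1 hx
        exact hf w
    refine (card_le_card h3).trans (card_biUnion_le.trans ?_)
    refine (sum_le_card_nsmul E _ ((n - h).choose (m - h)) fun f hf => ?_).trans
      (le_of_eq (by simp))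
    have h4 : (univ.image f).card = h := by
      rw [card_image_of_injective _ (hEinj f hf), card_univ]
    have h5 := card_super (univ.image f) m (by rw [h4]; exact hWm)
    rw [h4] at h5
    exact h5
  have h6 : n ^ h ≤ E.card * m ^ h := by
    have h7 := choose_le m n h hWm hmV
    have h8 : 0 < (n - h).choose (m - h) := Nat.choose_pos (Nat.sub_le_sub_right hmV h)
    refine Nat.le_of_mul_le_mul_left ?_ h8
    calc (n - h).choose (m - h) * n ^ h ≤ n.choose m * m ^ h := h7
      _ ≤ (E.card * (n - h).choose (m - h)) * m ^ h := Nat.mul_le_mul_right _ h1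
      _ = _ := by ring
  -- pigeonhole
  have hnpos : 0 < n := lt_of_lt_of_le (by omega) hmV
  have hV : Nonempty V := Fintype.card_pos_iff.1 hnpos
  obtain ⟨x0⟩ := hV
  let res : (W → V) → ({w : W // w ≠ v} → V) := fun f w => f w.1
  have hcard : Fintype.card ({w : W // w ≠ v} → V) = n ^ (h - 1) := by
    rw [Fintype.card_fun]
    congr 1
    rw [Fintype.card_subtype_compl, Fintype.card_subtype_eq]
  obtain ⟨r, -, hr⟩ := exists_max_image (univ : Finset ({w : W // w ≠ v} → V))
    (fun r => (E.filter (fun f => res f = r)).card) ⟨fun _ => x0, mem_univ _⟩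
  have h9 : E.card ≤ n ^ (h - 1) * (E.filter (fun f => res f = r)).card := by
    rw [card_eq_sum_card_fiberwise (f := res) (t := univ) (fun x _ => mem_univ _)]
    refine (sum_le_card_nsmul univ _ _ fun r' hr' => hr r' hr').trans (le_of_eq ?_)
    rw [card_univ, hcard, smul_eq_mul]
  refine ⟨fun w => if hw : w ≠ v then r ⟨w, hw⟩ else x0,
    (E.filter (fun f => res f = r)).image (fun f => f v), ?_, ?_⟩
  · have h10 : ((E.filter (fun f => res f = r)).image (fun f => f v)).card =
        (E.filter (fun f => res f = r)).card := by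
      refine card_image_of_injOn ?_
      intro f hf f' hf' hff
      simp only [coe_filter, Set.mem_ofPred_eq] at hf hf'
      funext w
      by_cases hw : w = v
      · rw [hw]; exact hff
      · have := congrFun (hf.2.trans hf'.2.symm) ⟨w, hw⟩
        exact this
    rw [h10]
    have h11 : 0 < n ^ (h - 1) := pow_pos hnpos _
    refine Nat.le_of_mul_le_mul_left ?_ h11
    calc n ^ (h - 1) * n = n ^ h := by
          rw [← pow_succ]
          congr 1
          omega
      _ ≤ E.card * m ^ h := h6
      _ ≤ (n ^ (h - 1) * (E.filter (fun f => res f = r)).card) * m ^ h := Nat.mul_le_mul_right _ h9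
      _ = _ := by ring
  · intro u hu
    obtain ⟨f, hf, rfl⟩ := mem_image.1 hu
    rw [mem_filter] at hf
    obtain ⟨e, he⟩ := (mem_filter.1 hf.1).2
    refine ⟨e, he v, fun w hw => ?_⟩
    simp only [dif_pos hw]
    rw [he w]
    exact congrFun hf.2 ⟨w, hw⟩

end Pool.Agent.TH671.J1056
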