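import Pool.Agent.TH149.WR.Stm

set_option autoImplicit false

/-! # Alon-Pach-Solymosi for the lexicographic product (job 1057) -/

namespace Pool.Agent.TH671.J1057

open Finset
open Pool.Agent.TH149.WR

/-- the conclusion of the property for one graph -/
def Hom {n : ℕ} (G : SimpleGraph (Fin n)) (x : ℝ) : Prop :=
  ∃ S : Finset (Fin n), (G.IsClique (S : Set (Fin n)) ∨ G.IsIndepSet (S : Set (Fin n))) ∧
    x ≤ (S.card : ℝ)

lemma Hom.mono {n : ℕ} {G : SimpleGraph (Fin n)} {x y : ℝ} (h : Hom G x) (hxy : y ≤ x) :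
    Hom G y := by
  obtain ⟨S, h1, h2⟩ := h
  exact ⟨S, h1, hxy.trans h2⟩

/-- passing to a subset -/
lemma local_bound (F : GClass) (hF : Hereditary F) {W' : Type} (H' : SimpleGraph W') (c : ℝ)
    (hc : ∀ (n : ℕ) (G : SimpleGraph (Fin n)), Fr F H' n G → Hom G ((n : ℝ) ^ c))
    {n : ℕ} (G : SimpleGraph (Fin n)) (hG : F n G) (U : Finset (Fin n))
    (hU : ∀ f : H' ↪g G, ∃ w, f w ∉ U) : Hom G ((U.card : ℝ) ^ c) := by
  let ι : Fin U.card ↪ Fin n := (U.equivFin.symm.toEmbedding).trans (Function.Embedding.subtype _)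
  have hι : ∀ x, ι x ∈ U := fun x => (U.equivFin.symm x).2
  have h1 : F U.card (G.comap ι) := hF _ _ _ G ⟨SimpleGraph.Embedding.comap ι G⟩ hG
  have h2 : ¬ Nonempty (H' ↪g G.comap ι) := by
    rintro ⟨f⟩
    obtain ⟨w, hw⟩ := hU ((SimpleGraph.Embedding.comap ι G).comp f)
    exact hw (hι _)
  obtain ⟨S, h3, h4⟩ := hc _ _ ⟨h1, h2⟩
  refine ⟨S.map ι, ?_, by rw [card_map]; exact h4⟩
  rcases h3 with h3 | h3
  · left
    intro x hx y hy hxy
    rw [coe_map] at hx hy
    obtain ⟨x', hx', rfl⟩ := hx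
    obtain ⟨y', hy', rfl⟩ := hy
    exact h3 hx' hy' (fun h => hxy (by rw [h]))
  · right
    intro x hx y hy hxy
    rw [coe_map] at hx hy
    obtain ⟨x', hx', rfl⟩ := hx
    obtain ⟨y', hy', rfl⟩ := hy
    exact h3 hx' hy' (fun h => hxy (by rw [h]))

/-- it is enough to treat large graphs -/
lemma ehp_of_large (F : GClass) (c : ℝ) (hc : 0 < c) (n₀ : ℕ)
    (h : ∀ (n : ℕ), n₀ ≤ n → ∀ G : SimpleGraph (Fin n), F n G → Hom G ((n : ℝ) ^ c)) : EHP F := by
  obtain ⟨N, hN⟩ : ∃ N : ℕ, N = max n₀ 2 := ⟨_, rfl⟩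
  have hN2 : 2 ≤ N := by omega
  have hN0 : n₀ ≤ N := by omega
  have hNr : (2 : ℝ) ≤ N := by exact_mod_cast hN2
  have hlog : 0 < Real.log N := Real.log_pos (by linarith)
  have hlog2 : 0 < Real.log 2 := Real.log_pos (by norm_num)
  refine ⟨min c (Real.log 2 / Real.log N), lt_min hc (div_pos hlog2 hlog), ?_⟩
  intro n G hG
  obtain ⟨c', hc'⟩ : ∃ c', c' = min c (Real.log 2 / Real.log N) := ⟨_, rfl⟩
  rw [← hc']
  have hc'0 : 0 < c' := by rw [hc']; exact lt_min hc (div_pos hlog2 hlog)
  have hc'1 : c' ≤ c := by rw [hc']; exact min_le_left _ _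
  have hc'2 : c' ≤ Real.log 2 / Real.log N := by rw [hc']; exact min_le_right _ _
  rcases Nat.eq_zero_or_pos n with rfl | hn
  · refine ⟨∅, Or.inl (by simp [SimpleGraph.IsClique]), ?_⟩
    rw [Nat.cast_zero, Real.zero_rpow hc'0.ne']
    simp
  have hn1 : (1 : ℝ) ≤ n := by exact_mod_cast hn
  by_cases hlarge : n₀ ≤ n
  · exact (h n hlarge G hG).mono (Real.rpow_le_rpow_of_exponent_le hn1 hc'1)
  · push Not at hlarge
    rcases Nat.lt_or_ge n 2 with h2 | h2
    · have hn1' : n = 1 := by omega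
      subst hn1'
      refine ⟨{0}, Or.inl (by simp [SimpleGraph.IsClique]), ?_⟩
      simp
    · have hle : (n : ℝ) ^ c' ≤ 2 := by
        have hnN : (n : ℝ) ≤ N := by exact_mod_cast (hlarge.le.trans hN0)
        calc (n : ℝ) ^ c' ≤ (N : ℝ) ^ c' := Real.rpow_le_rpow (by linarith) hnN hc'0.le
          _ ≤ (N : ℝ) ^ (Real.log 2 / Real.log N) :=
            Real.rpow_le_rpow_of_exponent_le (by linarith) hc'2
          _ = 2 := by
            rw [Real.rpow_def_of_pos (by linarith), mul_div_cancel₀ _ hlog.ne',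
              Real.exp_log (by norm_num)]
      have hne : (⟨0, by omega⟩ : Fin n) ≠ ⟨1, by omega⟩ := by
        intro hcon
        have := congrArg Fin.val hcon
        simp at this
      refine ⟨{⟨0, by omega⟩, ⟨1, by omega⟩}, ?_, ?_⟩
      · by_cases hadj : G.Adj ⟨0, by omega⟩ ⟨1, by omega⟩
        · left
          rw [coe_pair, SimpleGraph.isClique_iff, Set.pairwise_pair]
          exact fun _ => ⟨hadj, hadj.symm⟩
        · right
          rw [coe_pair]
          intro x hx y hy hxy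
          rcases hx with rfl | rfl <;> rcases hy with rfl | rfl
          · exact absurd rfl hxy
          · exact hadj
          · exact fun h => hadj h.symm
          · exact absurd rfl hxy
      · rw [card_pair hne]
        exact_mod_cast hle

variable {a b : ℕ}

/-- the partial product -/
def PS (H : SimpleGraph (Fin a)) (K : SimpleGraph (Fin b)) (y0 : Fin b) (S : Finset (Fin a)) :
    SimpleGraph {p : Fin a × Fin b // p.1 ∈ S ∨ p.2 = y0} :=
  (lex H K).comap Subtype.val

lemma step (hext : S_ext) (F : GClass) (hF : Hereditary F) (H : SimpleGraph (Fin a))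
    (K : SimpleGraph (Fin b)) (y0 : Fin b) (S : Finset (Fin a)) (v : Fin a) (hv : v ∉ S)
    (h1 : EHP (Fr F (PS H K y0 S))) (h2 : EHP (Fr F K)) :
    EHP (Fr F (PS H K y0 (insert v S))) := by
  classical
  obtain ⟨c₁, hc₁, h1⟩ := h1
  obtain ⟨c₂, hc₂, h2⟩ := h2
  let W := {p : Fin a × Fin b // p.1 ∈ S ∨ p.2 = y0}
  obtain ⟨w, hw⟩ : ∃ w : ℕ, w = Fintype.card W := ⟨_, rfl⟩
  let v0 : W := ⟨(v, y0), Or.inr rfl⟩
  have hw1 : 1 ≤ w := by rw [hw]; exact Fintype.card_pos_iff.2 ⟨v0⟩
  have hwr : (1 : ℝ) ≤ w := by exact_mod_cast hw1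
  have hcpos : 0 < min (c₁ / (2 * w)) (c₂ / 4) := lt_min (by positivity) (by positivity)
  refine ehp_of_large _ (min (c₁ / (2 * w)) (c₂ / 4)) hcpos (max (2 ^ (4 * w)) (w ^ (2 * w))) ?_
  intro n hn G hG
  have hn1 : 2 ^ (4 * w) ≤ n := (le_max_left _ _).trans hn
  have hn2 : w ^ (2 * w) ≤ n := (le_max_right _ _).trans hn
  have hnpos : 1 ≤ n := Nat.one_le_two_pow.trans hn1
  have hnr : (1 : ℝ) ≤ n := by exact_mod_cast hnpos
  obtain ⟨q, hq⟩ : ∃ q : ℝ, q = (n : ℝ) ^ (1 / (2 * (w : ℝ))) := ⟨_, rfl⟩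
  have hq0 : 0 < q := by rw [hq]; positivity
  have hq1 : 1 ≤ q := by rw [hq]; exact Real.one_le_rpow hnr (by positivity)
  have hqn : q ^ (2 * w) = n := by
    rw [hq, ← Real.rpow_natCast, ← Real.rpow_mul (by linarith)]
    push_cast
    rw [one_div_mul_cancel (by positivity), Real.rpow_one]
  obtain ⟨m, hm⟩ : ∃ m : ℕ, m = ⌈q⌉₊ := ⟨_, rfl⟩
  have hmq : q ≤ m := by rw [hm]; exact Nat.le_ceil q
  have hmq2 : (m : ℝ) ≤ 2 * q := by
    have := Nat.ceil_lt_add_one hq0.le
    rw [← hm] at this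
    linarith
  have hmn : m ≤ n := by
    rw [hm]
    refine Nat.ceil_le.2 ?_
    rw [← hqn]
    calc q = q ^ 1 := (pow_one q).symm
      _ ≤ q ^ (2 * w) := pow_le_pow_right₀ hq1 (by omega)
  have hwq : (w : ℝ) ≤ q := by
    have h3 : (w : ℝ) ^ (2 * w) ≤ q ^ (2 * w) := by
      rw [hqn]
      exact_mod_cast hn2
    exact le_of_pow_le_pow_left₀ (by omega) hq0.le h3
  have hwm : w ≤ m := by
    have : (w : ℝ) ≤ m := hwq.trans hmq
    exact_mod_cast this
  by_cases hcase : ∀ S0 : Finset (Fin n), S0.card = m → ∃ f : PS H K y0 S ↪g G, ∀ x, f x ∈ S0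
  · -- many extensions
    obtain ⟨g, U, hU1, hU2⟩ := hext (Fin n) G W (PS H K y0 S) v0 m (by rw [← hw]; exact hwm)
      (by rw [Fintype.card_fin]; exact hmn) hcase
    rw [Fintype.card_fin, ← hw] at hU1
    -- `U` contains no copy of `K`
    have hUK : ∀ f : K ↪g G, ∃ y, f y ∉ U := by
      intro κ
      by_contra hcon
      push Not at hcon
      refine hG.2 ⟨?_⟩
      -- the embedding
      let φ : {p : Fin a × Fin b // p.1 ∈ insert v S ∨ p.2 = y0} → Fin n := fun p =>
        if hp : p.1.1 = v then κ p.1.2 else g ⟨p.1, by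
          rcases p.2 with h | h
          · left
            rcases Finset.mem_insert.1 h with h | h
            · exact absurd h hp
            · exact h
          · right
            exact h⟩
      have hφv : ∀ p, p.1.1 = v → φ p = κ p.1.2 := fun p hp => dif_pos hp
      have hφg : ∀ p (hp : ¬ p.1.1 = v) (hp' : p.1.1 ∈ S ∨ p.1.2 = y0),
          φ p = g ⟨p.1, hp'⟩ := fun p hp hp' => dif_neg hp
      have hmem : ∀ p : {p : Fin a × Fin b // p.1 ∈ insert v S ∨ p.2 = y0}, ¬ p.1.1 = v →
          (p.1.1 ∈ S ∨ p.1.2 = y0) := by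
        intro p hp
        rcases p.2 with h | h
        · left
          rcases Finset.mem_insert.1 h with h | h
          · exact absurd h hp
          · exact h
        · right
          exact h
      -- the key facts about pairs
      have key : ∀ p q : {p : Fin a × Fin b // p.1 ∈ insert v S ∨ p.2 = y0}, p ≠ q →
          φ p ≠ φ q ∧ (G.Adj (φ p) (φ q) ↔ (lex H K).Adj p.1 q.1) := by
        -- first the case of one vertex in the fibre over `v`
        have key1 : ∀ p q : {p : Fin a × Fin b // p.1 ∈ insert v S ∨ p.2 = y0},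
            p.1.1 = v → ¬ q.1.1 = v →
            φ p ≠ φ q ∧ (G.Adj (φ p) (φ q) ↔ (lex H K).Adj p.1 q.1) := by
          intro p q hp hq
          obtain ⟨f, hf1, hf2⟩ := hU2 (κ p.1.2) (hcon p.1.2)
          have hq' := hmem q hq
          have hne : (⟨q.1, hq'⟩ : W) ≠ v0 := by
            intro hcon2
            have := congrArg (fun z : W => z.1.1) hcon2
            exact hq this
          have e1 : φ p = f v0 := by rw [hφv p hp, hf1]
          have e2 : φ q = f ⟨q.1, hq'⟩ := by rw [hφg q hq hq', hf2 _ hne]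
          rw [e1, e2]
          refine ⟨fun hcon2 => hne (f.injective hcon2).symm, ?_⟩
          rw [f.map_adj_iff]
          change (lex H K).Adj (v, y0) q.1 ↔ (lex H K).Adj p.1 q.1
          unfold lex
          simp only [hp]
          have hvq : ¬ v = q.1.1 := fun h => hq h.symm
          simp only [hvq, false_and, or_false]
        intro p q hpq
        by_cases hp : p.1.1 = v
        · by_cases hq : q.1.1 = v
          · have hne : p.1.2 ≠ q.1.2 := by
              intro h
              refine hpq (Subtype.ext (Prod.ext (hp.trans hq.symm) h))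
            rw [hφv p hp, hφv q hq]
            refine ⟨fun h => hne (κ.injective h), ?_⟩
            rw [κ.map_adj_iff]
            unfold lex
            simp only [hp, hq, SimpleGraph.irrefl, false_or, true_and]
          · exact key1 p q hp hq
        · by_cases hq : q.1.1 = v
          · obtain ⟨h3, h4⟩ := key1 q p hq hp
            exact ⟨h3.symm, by rw [SimpleGraph.adj_comm, h4, SimpleGraph.adj_comm]⟩
          · -- both outside: use any extension
            obtain ⟨f, hf1, hf2⟩ := hU2 (κ y0) (hcon y0)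
            have hp' := hmem p hp
            have hq' := hmem q hq
            have hne1 : (⟨p.1, hp'⟩ : W) ≠ v0 := by
              intro hcon2
              have := congrArg (fun z : W => z.1.1) hcon2
              exact hp this
            have hne2 : (⟨q.1, hq'⟩ : W) ≠ v0 := by
              intro hcon2
              have := congrArg (fun z : W => z.1.1) hcon2
              exact hq this
            rw [hφg p hp hp', hφg q hq hq', ← hf2 _ hne1, ← hf2 _ hne2]
            refine ⟨fun hcon2 => ?_, ?_⟩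
            · have h5 := f.injective hcon2
              have h6 := congrArg Subtype.val h5
              exact hpq (Subtype.ext h6)
            · rw [f.map_adj_iff]
              rfl
      refine ⟨⟨φ, ?_⟩, ?_⟩
      · intro p q hpq
        by_contra hne
        exact (key p q hne).1 hpq
      · intro p q
        change G.Adj (φ p) (φ q) ↔ (lex H K).Adj p.1 q.1
        rcases eq_or_ne p q with rfl | hne
        · simp
        · exact (key p q hne).2
    have h3 := local_bound F hF K c₂ h2 G hG.1 U hUK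
    refine h3.mono ?_
    -- sizes
    have hU : (n : ℝ) ^ (1 / 4 : ℝ) ≤ U.card := by
      have h4 : (n : ℝ) ≤ U.card * (2 * q) ^ w := by
        calc (n : ℝ) ≤ (U.card : ℝ) * (m : ℝ) ^ w := by exact_mod_cast hU1
          _ ≤ (U.card : ℝ) * (2 * q) ^ w := by
            gcongr
      have h5 : (2 : ℝ) ^ w ≤ (n : ℝ) ^ (1 / 4 : ℝ) := by
        have h6 : ((2 : ℝ) ^ w) ^ 4 ≤ n := by
          rw [← pow_mul, mul_comm w 4]
          exact_mod_cast hn1
        calc (2 : ℝ) ^ w = (((2 : ℝ) ^ w) ^ (4 : ℕ)) ^ (1 / 4 : ℝ) := by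
              have e4 : ((4 : ℕ) : ℝ) * (1 / 4 : ℝ) = 1 := by norm_num
              rw [← Real.rpow_natCast (2 ^ w) 4, ← Real.rpow_mul (by positivity), e4,
                Real.rpow_one]
          _ ≤ (n : ℝ) ^ (1 / 4 : ℝ) := Real.rpow_le_rpow (by positivity) h6 (by norm_num)
      have h7 : q ^ w = (n : ℝ) ^ (1 / 2 : ℝ) := by
        rw [hq, ← Real.rpow_natCast, ← Real.rpow_mul (by linarith)]
        congr 1
        field_simp
      have h8 : (n : ℝ) = (n : ℝ) ^ (1 / 4 : ℝ) * (n : ℝ) ^ (1 / 4 : ℝ) * (n : ℝ) ^ (1 / 2 : ℝ) := by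
        rw [← Real.rpow_add (by linarith), ← Real.rpow_add (by linarith)]
        norm_num
      have h9 : 0 < (n : ℝ) ^ (1 / 4 : ℝ) := by positivity
      have h10 : 0 < (n : ℝ) ^ (1 / 2 : ℝ) := by positivity
      have h11 : (n : ℝ) ^ (1 / 4 : ℝ) * ((n : ℝ) ^ (1 / 4 : ℝ) * (n : ℝ) ^ (1 / 2 : ℝ)) ≤
          U.card * ((n : ℝ) ^ (1 / 4 : ℝ) * (n : ℝ) ^ (1 / 2 : ℝ)) := by
        calc (n : ℝ) ^ (1 / 4 : ℝ) * ((n : ℝ) ^ (1 / 4 : ℝ) * (n : ℝ) ^ (1 / 2 : ℝ)) = n := by
              rw [← mul_assoc, ← h8]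
          _ ≤ U.card * (2 * q) ^ w := h4
          _ = U.card * (2 ^ w * (n : ℝ) ^ (1 / 2 : ℝ)) := by rw [mul_pow, h7]
          _ ≤ _ := mul_le_mul_of_nonneg_left (mul_le_mul_of_nonneg_right h5 h10.le)
            (Nat.cast_nonneg _)
      exact le_of_mul_le_mul_right h11 (by positivity)
    calc (n : ℝ) ^ min (c₁ / (2 * w)) (c₂ / 4) ≤ (n : ℝ) ^ (c₂ / 4) :=
          Real.rpow_le_rpow_of_exponent_le hnr (min_le_right _ _)
      _ = ((n : ℝ) ^ (1 / 4 : ℝ)) ^ c₂ := by
          rw [← Real.rpow_mul (by linarith)]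
          congr 1
          ring
      _ ≤ (U.card : ℝ) ^ c₂ := Real.rpow_le_rpow (by positivity) hU hc₂.le
  · push Not at hcase
    obtain ⟨S0, hS0, hS1⟩ := hcase
    have h3 := local_bound F hF (PS H K y0 S) c₁ h1 G hG.1 S0 hS1
    refine h3.mono ?_
    rw [hS0]
    calc (n : ℝ) ^ min (c₁ / (2 * w)) (c₂ / 4) ≤ (n : ℝ) ^ (c₁ / (2 * w)) :=
          Real.rpow_le_rpow_of_exponent_le hnr (min_le_left _ _)
      _ = q ^ c₁ := by
          rw [hq, ← Real.rpow_mul (by linarith)]
          congr 1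
          field_simp
      _ ≤ (m : ℝ) ^ c₁ := Real.rpow_le_rpow hq0.le hmq hc₁.le

theorem aps (hext : S_ext) : S_aps := by
  classical
  intro F hF a b H K h1 h2
  rcases Nat.eq_zero_or_pos b with rfl | hb
  · refine ⟨1, one_pos, fun n G hG => absurd ⟨?_⟩ hG.2⟩
    haveI : IsEmpty (Fin a × Fin 0) := inferInstance
    exact ⟨⟨fun p => isEmptyElim p, fun p => isEmptyElim p⟩, fun {p} => isEmptyElim p⟩
  let y0 : Fin b := ⟨0, hb⟩
  have hall : ∀ S : Finset (Fin a), EHP (Fr F (PS H K y0 S)) := by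
    intro S
    induction S using Finset.induction_on with
    | empty =>
      obtain ⟨c, hc, h1⟩ := h1
      refine ⟨c, hc, fun n G hG => h1 n G ⟨hG.1, ?_⟩⟩
      rintro ⟨f⟩
      refine hG.2 ⟨?_⟩
      refine f.comp ⟨⟨fun p => p.1.1, ?_⟩, ?_⟩
      · intro p q hpq
        have hp : p.1.2 = y0 := by
          rcases p.2 with h | h
          · simp at h
          · exact h
        have hq : q.1.2 = y0 := by
          rcases q.2 with h | h
          · simp at h
          · exact h
        exact Subtype.ext (Prod.ext hpq (hp.trans hq.symm))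
      · intro p q
        have hp : p.1.2 = y0 := by
          rcases p.2 with h | h
          · simp at h
          · exact h
        have hq : q.1.2 = y0 := by
          rcases q.2 with h | h
          · simp at h
          · exact h
        change H.Adj p.1.1 q.1.1 ↔ (H.Adj p.1.1 q.1.1 ∨ (p.1.1 = q.1.1 ∧ K.Adj p.1.2 q.1.2))
        rw [hp, hq]
        simp
    | insert v S hv ih => exact step hext F hF H K y0 S v hv ih h2
  obtain ⟨c, hc, h3⟩ := hall univ
  refine ⟨c, hc, fun n G hG => h3 n G ⟨hG.1, ?_⟩⟩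
  rintro ⟨f⟩
  refine hG.2 ⟨?_⟩
  refine f.comp ⟨⟨fun p => ⟨p, Or.inl (mem_univ _)⟩, ?_⟩, ?_⟩
  · intro p q hpq
    exact congrArg Subtype.val hpq
  · intro p q
    exact Iff.rfl

end Pool.Agent.TH671.J1057
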