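import Pool.Agent.TH760.ZDefs

/-!
# Coding the nodes of a tree by binary relations on the ordinals
-/

set_option autoImplicit false

universe u

namespace Pool.Agent.TH760

open Cardinal Ordinal Set
open Pool.Agent.H348R6.HLT (Node IsTree level ImmSucc cut unionNode snoc)

/-- A chain of nodes of `T` of length at most `ζ` is below a node of length `ζ`. -/
theorem ktree_above {κ : Cardinal.{u}} (hκ : κ.IsInaccessible) {T : Set Node.{u}}
    (hT : KTree κ T) {b : Set Node.{u}} (hbT : b ⊆ T) (hb : IsChain (· ≤ ·) b)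
    {ζ : Ordinal.{u}} (hζ : ζ < κ.ord) (hbζ : ∀ x ∈ b, x.len ≤ ζ) :
    ∃ y ∈ T, y.len = ζ ∧ ∀ x ∈ b, x ≤ y := by
  have _ := hκ
  obtain ⟨M, hMT, hbM, hM, hmax⟩ := Pool.Agent.H348R6.HLT.exists_maxChain hbT hb
  have hcof : Order.cof M = Cardinal.lift.{u + 1} κ := hT.branch M hMT hM
    fun b' hb'T hb' hMb' => Subset.antisymm (fun t ht => hmax t (hb'T ht) fun s hs =>
      hb'.total (hMb' hs) ht) hMb'
  have hex : ∃ y ∈ M, y.len = ζ := by
    by_contra hno
    push Not at hno
    have h1 : ∀ x ∈ M, x.len < ζ := by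
      intro x hx
      by_contra hc
      push Not at hc
      refine hno (cut x ζ) (hmax _ (hT.down x (hMT hx) _ (Pool.Agent.H348R6.HLT.cut_le _ _)) ?_)
        (Pool.Agent.H348R6.HLT.cut_len hc)
      intro s hs
      rcases le_total s.len ζ with h | h
      · left
        rcases hM.total hs hx with h2 | h2
        · exact Pool.Agent.H348R6.HLT.le_cut h2 h
        · exact Pool.Agent.H348R6.HLT.le_cut
            (Pool.Agent.H348R6.HLT.le_of_len_le le_rfl h2 (h.trans hc)) h
      · right
        rcases hM.total hs hx with h2 | h2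
        · refine Pool.Agent.H348R6.HLT.le_of_len_le (Pool.Agent.H348R6.HLT.cut_le _ _) h2 ?_
          rw [Pool.Agent.H348R6.HLT.cut_len hc]
          exact h
        · exact (Pool.Agent.H348R6.HLT.cut_le _ _).trans h2
    have h2 : #M ≤ #(Iio ζ) := by
      refine Cardinal.mk_le_of_injective (f := fun x : M => (⟨x.1.len, h1 x.1 x.2⟩ : Iio ζ)) ?_
      intro x y hxy
      have h3 : x.1.len = y.1.len := congrArg (fun z : Iio ζ => (z : Ordinal.{u})) hxy
      refine Subtype.ext ?_
      rcases hM.total x.2 y.2 with h | h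
      · exact le_antisymm h (Pool.Agent.H348R6.HLT.le_of_len_le le_rfl h h3.ge)
      · exact le_antisymm (Pool.Agent.H348R6.HLT.le_of_len_le le_rfl h h3.le) h
    have h3 : #(Iio ζ) < Cardinal.lift.{u + 1} κ := by
      rw [Cardinal.mk_Iio_ordinal, Cardinal.lift_lt]
      exact Cardinal.lt_ord.1 hζ
    have h4 : Order.cof M ≤ #M := Order.cof_le_cardinalMk _
    rw [hcof] at h4
    exact absurd (h4.trans h2) (not_le.2 h3)
  obtain ⟨y, hy, hyl⟩ := hex
  refine ⟨y, hMT hy, hyl, fun x hx => ?_⟩
  rcases hM.total (hbM hx) hy with h | h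
  · exact h
  · exact le_of_eq (le_antisymm (Pool.Agent.H348R6.HLT.le_of_len_le le_rfl h
      (by rw [hyl]; exact hbζ x hx)) h)

namespace J663

/-- A family of ordinals below `κ.ord`, indexed by a set of size less than `κ` (in the next
universe), is bounded, if `κ` is regular. -/
theorem bdd_of_small {κ : Cardinal.{u}} (hκ : κ.IsRegular) {ι : Type (u + 1)}
    (hι : #ι < Cardinal.lift.{u + 1} κ) (f : ι → Ordinal.{u}) (hf : ∀ i, f i < κ.ord) :
    ∃ B < κ.ord, ∀ i, f i < B := by
  have hsm : Small.{u} ι := by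
    have h1 : #ι < Cardinal.univ.{u, u + 1} := hι.trans (Cardinal.lift_lt_univ' κ)
    exact Cardinal.small_iff_lift_mk_lt_univ.2 (by simpa using h1)
  have h2 : #(Shrink.{u} ι) < κ := by
    have h3 : Cardinal.lift.{u + 1} #(Shrink.{u} ι) = #ι := Cardinal.lift_mk_shrink''.{u + 1, u} ι
    rw [← h3] at hι
    exact Cardinal.lift_lt.1 hι
  refine ⟨⨆ i : Shrink.{u} ι, (f ((equivShrink ι).symm i) + 1),
    Ordinal.iSup_add_one_lt_of_lt_cof (by rwa [hκ.cof_ord]) fun i => hf _, fun i => ?_⟩
  have h4 : f i + 1 ≤ ⨆ i : Shrink.{u} ι, (f ((equivShrink ι).symm i) + 1) := by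
    have := Ordinal.le_iSup (fun i : Shrink.{u} ι => f ((equivShrink ι).symm i) + 1)
      (equivShrink ι i)
    simpa using this
  exact lt_of_lt_of_le (Order.lt_add_one_iff.2 le_rfl) h4

theorem node_eq {s t : Node.{u}} (hl : s.len = t.len) (h : ∀ β < s.len, s.fn β = t.fn β) :
    s = t :=
  le_antisymm (Pool.Agent.H348R6.HLT.le_def.2 ⟨hl.le, h⟩)
    (Pool.Agent.H348R6.HLT.le_def.2 ⟨hl.ge, fun β hβ => (h β (hl ▸ hβ)).symm⟩)

/-- The node of length `ζ` with values given by `f`. -/
noncomputable def ndOf (f : Ordinal.{u} → Ordinal.{u}) (ζ : Ordinal.{u}) : Node.{u} := by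
  classical
  exact
  { len := ζ
    fn := fun β => if β < ζ then f β else 0
    supp := fun β hβ => if_neg (not_lt.2 hβ) }

@[simp] theorem ndOf_len (f : Ordinal.{u} → Ordinal.{u}) (ζ : Ordinal.{u}) :
    (ndOf f ζ).len = ζ := rfl

theorem ndOf_fn {f : Ordinal.{u} → Ordinal.{u}} {ζ β : Ordinal.{u}} (h : β < ζ) :
    (ndOf f ζ).fn β = f β := by
  classical
  exact if_pos h

theorem ndOf_mono (f : Ordinal.{u} → Ordinal.{u}) {ζ ζ' : Ordinal.{u}} (h : ζ ≤ ζ') :
    ndOf f ζ ≤ ndOf f ζ' :=
  Pool.Agent.H348R6.HLT.le_def.2 ⟨h, fun β (hβ : β < ζ) => by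
    rw [ndOf_fn hβ, ndOf_fn (lt_of_lt_of_le hβ h)]⟩

theorem ndOf_congr {f f' : Ordinal.{u} → Ordinal.{u}} {ζ : Ordinal.{u}}
    (h : ∀ β < ζ, f β = f' β) : ndOf f ζ = ndOf f' ζ :=
  node_eq rfl fun β (hβ : β < ζ) => by rw [ndOf_fn hβ, ndOf_fn hβ, h β hβ]

/-- A node is determined by its length and values. -/
theorem ndOf_eq {f : Ordinal.{u} → Ordinal.{u}} {s : Node.{u}}
    (h : ∀ β < s.len, f β = s.fn β) : ndOf f s.len = s :=
  node_eq rfl fun β (hβ : β < s.len) => by rw [ndOf_fn hβ, h β hβ]

theorem snoc_ndOf (f : Ordinal.{u} → Ordinal.{u}) (η : Ordinal.{u}) :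
    snoc (ndOf f η) (f η) = ndOf f (η + 1) := by
  have key : ∀ β < η + 1, (snoc (ndOf f η) (f η)).fn β = (ndOf f (η + 1)).fn β := by
    intro β hβ
    rw [ndOf_fn hβ]
    rcases (Order.lt_add_one_iff.1 hβ).lt_or_eq with h | h
    · rw [Pool.Agent.H348R6.HLT.snoc_fn_ne _ _ (show β ≠ (ndOf f η).len from h.ne), ndOf_fn h]
    · subst h
      exact Pool.Agent.H348R6.HLT.snoc_fn (ndOf f β) (f β)
  exact node_eq rfl key

section

variable (T : Set Node.{u}) (b : Ordinal.{u} → Ordinal.{u})

/-- `θ` is the value coded by `x` for the extension of the node `N`. -/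
def Pr (x : Ordinal.{u} → Ordinal.{u} → Prop) (N : Node.{u}) (θ : Ordinal.{u}) : Prop :=
  ¬ x N.len θ ∧ (∀ θ' < θ, x N.len θ') ∧ θ < b N.len ∧ snoc N θ ∈ T

open Classical in
/-- The value of the next element. -/
noncomputable def step (x : Ordinal.{u} → Ordinal.{u} → Prop) (N : Node.{u}) : Ordinal.{u} :=
  if h : ∃ θ, Pr T b x N θ then Classical.choose h
  else if h : ∃ θ, snoc N θ ∈ T then Classical.choose h else 0

/-- The value function. -/
noncomputable def val (x : Ordinal.{u} → Ordinal.{u} → Prop) : Ordinal.{u} → Ordinal.{u} :=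
  Ordinal.lt_wf.fix fun η ih => step T b x
    (ndOf (fun β => by classical exact if h : β < η then ih β h else 0) η)

theorem val_eq (x : Ordinal.{u} → Ordinal.{u} → Prop) (η : Ordinal.{u}) :
    val T b x η = step T b x (ndOf (val T b x) η) := by
  unfold val
  rw [WellFounded.fix_eq]
  congr 1
  refine ndOf_congr fun β hβ => ?_
  rw [dif_pos hβ]

theorem step_mem {x : Ordinal.{u} → Ordinal.{u} → Prop} {N : Node.{u}}
    (h : ∃ θ, snoc N θ ∈ T) : snoc N (step T b x N) ∈ T := by
  unfold step
  split_ifs with h1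
  · exact (Classical.choose_spec h1).2.2.2
  · exact Classical.choose_spec h

theorem step_eq {x : Ordinal.{u} → Ordinal.{u} → Prop} {N : Node.{u}} {θ : Ordinal.{u}}
    (h : Pr T b x N θ) : step T b x N = θ := by
  have h1 : ∃ θ, Pr T b x N θ := ⟨θ, h⟩
  unfold step
  rw [dif_pos h1]
  have h2 := Classical.choose_spec h1
  rcases lt_trichotomy (Classical.choose h1) θ with h3 | h3 | h3
  · exact absurd (h.2.1 _ h3) h2.1
  · exact h3
  · exact absurd (h2.2.1 _ h3) h.1

theorem step_congr {x y : Ordinal.{u} → Ordinal.{u} → Prop} {N : Node.{u}}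
    (h : ∀ θ, Pr T b x N θ ↔ Pr T b y N θ) : step T b x N = step T b y N := by
  have h' : Pr T b x N = Pr T b y N := funext fun θ => propext (h θ)
  by_cases h1 : ∃ θ, Pr T b x N θ
  · obtain ⟨θ, hθ⟩ := h1
    have hθ' : Pr T b y N θ := (h θ).1 hθ
    rw [step_eq T b hθ, step_eq T b hθ']
  · have h2 : ¬ ∃ θ, Pr T b y N θ := by rwa [← h']
    unfold step
    rw [dif_neg h1, dif_neg h2]

/-- The node of length `ζ` coded by `x`. -/
noncomputable def Psi (x : Ordinal.{u} → Ordinal.{u} → Prop) (ζ : Ordinal.{u}) : Node.{u} :=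
  ndOf (val T b x) ζ

end

end J663

open J663

/-- Coding the nodes of a tree by binary relations on the ordinals: `Ψ x ζ` is the node of length
`ζ` coded by `x`. -/
theorem coding {κ : Cardinal.{u}} (hκ : κ.IsInaccessible) {T : Set Node.{u}} (hT : KTree κ T) :
    Coding κ T := by
  have hreg : κ.IsRegular := hκ.isRegular
  have hadd : ∀ {α : Ordinal.{u}}, α < κ.ord → α + 1 < κ.ord := fun h =>
    Pool.Agent.H348R6.HLT.add_one_lt_ord hreg.aleph0_le h
  -- the bound of the values
  have hb : ∀ η : Ordinal.{u}, ∃ B : Ordinal.{u}, B < κ.ord ∧ (η < κ.ord →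
      ∀ t ∈ level T (η + 1), t.fn η < B) := by
    intro η
    by_cases hη : η < κ.ord
    · obtain ⟨B, hB, h⟩ := bdd_of_small hreg (hT.level_small (η + 1) (hadd hη))
        (fun t : level T (η + 1) => t.1.fn η) (fun t => hT.val_lt t.1 t.2.1 η (by
          rw [t.2.2]; exact Order.lt_add_one_iff.2 le_rfl))
      exact ⟨B, hB, fun _ t ht => h ⟨t, ht⟩⟩
    · exact ⟨0, hreg.ord_pos, fun h => absurd h hη⟩
  choose b hb1 hb2 using hb
  -- immediate successors exist
  have hsucc : ∀ N ∈ T, ∃ θ, snoc N θ ∈ T := by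
    intro N hN
    obtain ⟨y, hy, hyl, hyb⟩ := ktree_above hκ hT (b := {N}) (singleton_subset_iff.2 hN)
      IsChain.singleton (hadd (hT.len_lt N hN))
      (by rintro x rfl; exact (Order.lt_add_one_iff.2 le_rfl).le)
    have h1 : N ≤ y := hyb N rfl
    refine ⟨y.fn N.len, ?_⟩
    have h2 : snoc N (y.fn N.len) = y := by
      have key : ∀ β < N.len + 1, (snoc N (y.fn N.len)).fn β = y.fn β := by
        intro β hβ
        rcases (Order.lt_add_one_iff.1 hβ).lt_or_eq with h | h
        · rw [Pool.Agent.H348R6.HLT.snoc_fn_ne _ _ h.ne]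
          exact h1.2 β h
        · subst h
          exact Pool.Agent.H348R6.HLT.snoc_fn N _
      exact node_eq hyl.symm key
    rw [h2]
    exact hy
  have hmem : ∀ x : Ordinal.{u} → Ordinal.{u} → Prop, ∀ ζ < κ.ord, Psi T b x ζ ∈ T := by
    intro x ζ
    induction ζ using WellFoundedLT.induction with
    | ind ζ ih =>
      intro hζ
      by_cases hs : ∃ η, ζ = η + 1
      · obtain ⟨η, rfl⟩ := hs
        have hη : η < η + 1 := Order.lt_add_one_iff.2 le_rfl
        have h1 : Psi T b x η ∈ T := ih η hη (hη.trans hζ)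
        have h2 := step_mem T b (x := x) (hsucc _ h1)
        have h3 : step T b x (Psi T b x η) = val T b x η := (val_eq T b x η).symm
        rw [h3] at h2
        unfold Psi at h2 ⊢
        rwa [snoc_ndOf] at h2
      · push Not at hs
        have hlim : ∀ β < ζ, β + 1 < ζ := fun β hβ =>
          lt_of_le_of_ne (Order.add_one_le_iff.2 hβ) (hs β).symm
        obtain ⟨y, hy, hyl, hyb⟩ := ktree_above hκ hT (b := {N | ∃ η < ζ, N = Psi T b x η})
          (by rintro N ⟨η, hη, rfl⟩; exact ih η hη (hη.trans hζ))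
          (by
            rintro N ⟨η, hη, rfl⟩ N' ⟨η', hη', rfl⟩ -
            rcases le_total η η' with h | h
            · exact Or.inl (ndOf_mono _ h)
            · exact Or.inr (ndOf_mono _ h))
          hζ (by rintro N ⟨η, hη, rfl⟩; exact hη.le)
        have h4 : Psi T b x ζ = y := by
          unfold Psi
          rw [← hyl]
          refine ndOf_eq fun β hβ => ?_
          rw [hyl] at hβ
          have h5 := (hyb _ ⟨β + 1, hlim β hβ, rfl⟩).2 β (Order.lt_add_one_iff.2 le_rfl)
          rw [← h5]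
          exact (ndOf_fn (Order.lt_add_one_iff.2 le_rfl)).symm
        rw [h4]
        exact hy
  refine ⟨b, Psi T b, fun ζ _ => hb1 ζ, fun x ζ hζ => ⟨hmem x ζ hζ, rfl⟩,
    fun x ζ ζ' h _ => ndOf_mono _ h, ?_, ?_⟩
  · intro ζ hζ hcl x y hxy
    have key : ∀ η < ζ, val T b x η = val T b y η := by
      intro η
      induction η using WellFoundedLT.induction with
      | ind η ih =>
        intro hη
        rw [val_eq T b x, val_eq T b y,
          ndOf_congr (f := val T b x) (f' := val T b y) fun β hβ => ih β hβ (hβ.trans hη)]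
        refine step_congr T b fun θ => ?_
        have hbη : b η < ζ := hcl η hη
        unfold Pr
        simp only [ndOf_len]
        constructor
        · rintro ⟨h1, h2, h3, h4⟩
          have hθ := h3.trans hbη
          exact ⟨fun h => h1 ((hxy η hη θ hθ).2 h),
            fun θ' hθ' => (hxy η hη θ' (hθ'.trans hθ)).1 (h2 θ' hθ'), h3, h4⟩
        · rintro ⟨h1, h2, h3, h4⟩
          have hθ := h3.trans hbη
          exact ⟨fun h => h1 ((hxy η hη θ hθ).1 h),
            fun θ' hθ' => (hxy η hη θ' (hθ'.trans hθ)).2 (h2 θ' hθ'), h3, h4⟩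
    exact ndOf_congr key
  · intro ζ ζ' hζζ' hζ' _ _ x s hs hxs
    classical
    set y : Ordinal.{u} → Ordinal.{u} → Prop := fun η θ =>
      if η < ζ then x η θ else θ < s.fn η with hy
    have hyx : ∀ η < ζ, ∀ θ, (y η θ ↔ x η θ) := by
      intro η hη θ
      simp only [hy, if_pos hη]
    have hys : ∀ η, ¬ η < ζ → ∀ θ, (y η θ ↔ θ < s.fn η) := by
      intro η hη θ
      simp only [hy, if_neg hη]
    have key1 : ∀ η < ζ, val T b y η = val T b x η := by
      intro η
      induction η using WellFoundedLT.induction with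
      | ind η ih =>
        intro hη
        rw [val_eq T b x, val_eq T b y,
          ndOf_congr (f := val T b y) (f' := val T b x) fun β hβ => ih β hβ (hβ.trans hη)]
        refine step_congr T b fun θ => ?_
        unfold Pr
        simp only [ndOf_len, hyx η hη]
    have key2 : ∀ η < ζ', val T b y η = s.fn η := by
      intro η
      induction η using WellFoundedLT.induction with
      | ind η ih =>
        intro hη
        by_cases hηζ : η < ζ
        · rw [key1 η hηζ]
          have h1 := hxs.2 η hηζ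
          rw [← h1]
          exact (ndOf_fn hηζ).symm
        · have hη1 : η + 1 ≤ s.len := by rw [hs.2]; exact Order.add_one_le_iff.2 hη
          have hηs : η ≤ s.len := by rw [hs.2]; exact hη.le
          have hN : ndOf (val T b y) η = cut s η := by
            have h2 := ndOf_eq (f := val T b y) (s := cut s η) (fun β hβ => by
              rw [Pool.Agent.H348R6.HLT.cut_len hηs] at hβ
              rw [Pool.Agent.H348R6.HLT.cut_fn hβ]
              exact ih β hβ (hβ.trans hη))
            rwa [Pool.Agent.H348R6.HLT.cut_len hηs] at h2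
          have hlen : (ndOf (val T b y) η).len = η := rfl
          have hcutT : cut s (η + 1) ∈ T := hT.down s hs.1 _ (Pool.Agent.H348R6.HLT.cut_le _ _)
          have hcutl : (cut s (η + 1)).len = η + 1 := Pool.Agent.H348R6.HLT.cut_len hη1
          have hηη : η < η + 1 := Order.lt_add_one_iff.2 le_rfl
          have hsnoc : snoc (ndOf (val T b y) η) (s.fn η) = cut s (η + 1) := by
            have key3 : ∀ β < η + 1, (snoc (ndOf (val T b y) η) (s.fn η)).fn β =
                (cut s (η + 1)).fn β := by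
              intro β hβ
              rw [Pool.Agent.H348R6.HLT.cut_fn hβ]
              rcases (Order.lt_add_one_iff.1 hβ).lt_or_eq with h | h
              · rw [Pool.Agent.H348R6.HLT.snoc_fn_ne _ _
                  (show β ≠ (ndOf (val T b y) η).len from h.ne), ndOf_fn h]
                exact ih β h (h.trans hη)
              · subst h
                exact Pool.Agent.H348R6.HLT.snoc_fn (ndOf (val T b y) β) _
            exact node_eq hcutl.symm key3
          rw [val_eq T b y]
          refine step_eq T b ⟨?_, ?_, ?_, ?_⟩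
          · rw [hlen, hys η hηζ]
            exact lt_irrefl _
          · intro θ' hθ'
            rw [hlen, hys η hηζ]
            exact hθ'
          · rw [hlen]
            have h4 := hb2 η (hη.trans hζ') (cut s (η + 1)) ⟨hcutT, hcutl⟩
            rwa [Pool.Agent.H348R6.HLT.cut_fn hηη] at h4
          · rw [hsnoc]
            exact hcutT
    refine ⟨y, fun η hη θ _ => hyx η hη θ, ?_⟩
    unfold Psi
    rw [← hs.2]
    refine ndOf_eq fun β hβ => key2 β ?_
    rw [← hs.2]
    exact hβ

end Pool.Agent.TH760
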