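import Pool.Agent.TH760.ZDefs

/-!
# From the reflection hypothesis to a dense monochromatic matrix
-/

set_option autoImplicit false

universe u

namespace Pool.Agent.TH760

open Cardinal Ordinal Set
open Pool.Agent.H348R6.HLT (Node IsTree level ImmSucc)

namespace J664

/-- A family of ordinals below `κ.ord`, indexed by a set of size less than `κ` (in the next
universe), is bounded, if `κ` is regular. -/
theorem bdd_of_small {κ : Cardinal.{0}} (hκ : κ.IsRegular) {ι : Type 1}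
    (hι : #ι < Cardinal.lift.{1} κ) (f : ι → Ordinal.{0}) (hf : ∀ i, f i < κ.ord) :
    ∃ B < κ.ord, ∀ i, f i < B := by
  have hsm : Small.{0} ι := by
    have h1 : #ι < Cardinal.univ.{0, 1} := hι.trans (Cardinal.lift_lt_univ' κ)
    exact Cardinal.small_iff_lift_mk_lt_univ.2 (by simpa using h1)
  have h2 : #(Shrink.{0} ι) < κ := by
    have h3 : Cardinal.lift.{1} #(Shrink.{0} ι) = #ι := by
      simpa using Cardinal.lift_mk_shrink.{1, 0, 0} ι
    rw [← h3] at hι
    exact Cardinal.lift_lt.1 hι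
  refine ⟨⨆ i : Shrink.{0} ι, (f ((equivShrink ι).symm i) + 1),
    Ordinal.iSup_add_one_lt_of_lt_cof (by rwa [hκ.cof_ord]) fun i => hf _, fun i => ?_⟩
  have h4 : f i + 1 ≤ ⨆ i : Shrink.{0} ι, (f ((equivShrink ι).symm i) + 1) := by
    have := Ordinal.le_iSup (fun i : Shrink.{0} ι => f ((equivShrink ι).symm i) + 1)
      (equivShrink ι i)
    simpa using this
  exact lt_of_lt_of_le (Order.lt_add_one_iff.2 le_rfl) h4

end J664

open J664

theorem good_of {K : Type} [LinearOrder K] [WellFoundedLT K]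
    (habove : Above #K) (htype : Ordinal.type (· < · : K → K → Prop) = (#K).ord) (hκ : (#K).IsInaccessible)
    (hyp : ∀ h : K → K, ∃ α, (∃ ν, ν < α) ∧ (∀ ν, ν < α → h ν < α) ∧ ∀ d : ℕ, Dns d α)
    {d : ℕ} {T : Fin d → Set Node.{0}} (hT : ∀ i, KTree #K (T i)) (hC : ∀ i, Coding #K (T i))
    {σ : Ordinal.{0}} (hσ : σ < (#K).ord) (c : (Fin d → Node.{0}) → Ordinal.{0})
    (hc : ∀ x, c x < σ) : ∃ j < σ, Good #K T c j := by
  classical
  by_contra hno
  push Not at hno
  have hreg : (#K).IsRegular := hκ.isRegular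
  -- the order isomorphism
  set o : K → Ordinal.{0} := fun k => Ordinal.typein (· < · : K → K → Prop) k with ho
  have olt : ∀ k, o k < (#K).ord := fun k => by
    rw [← htype]; exact Ordinal.typein_lt_type _ k
  have omono : ∀ a b : K, o a < o b ↔ a < b := fun a b => Ordinal.typein_lt_typein _
  have oinj : ∀ a b : K, o a = o b → a = b := fun a b h => Ordinal.typein_injective _ h
  have ole : ∀ a b : K, o a ≤ o b ↔ a ≤ b := fun a b => by
    rw [← not_lt, ← not_lt, omono]
  have osurj : ∀ x < (#K).ord, ∃ k, o k = x := fun x hx => by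
    rw [← htype] at hx
    exact Ordinal.typein_surj _ hx
  haveI : Nonempty K := by
    have h0 : (0 : Cardinal) < #K := hreg.pos
    exact Cardinal.mk_ne_zero_iff.1 h0.ne'
  choose! toK htoK using osurj
  have toK_lt : ∀ (x : Ordinal.{0}) (k : K), x < o k → toK x < k := fun x k h => by
    rw [← omono, htoK x (h.trans (olt k))]; exact h
  have lt_of_toK : ∀ (x : Ordinal.{0}) (k : K), x < (#K).ord → toK x < k → x < o k :=
    fun x k hx h => by
      rw [← omono, htoK x hx] at h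
      exact h
  -- the codings
  choose g Ψ hg hlev hmono hagree hext using hC
  -- one function dominating all the `g i`
  set G : Ordinal.{0} → Ordinal.{0} := fun η => Finset.univ.sup fun i => g i η with hG
  have hGle : ∀ i η, g i η ≤ G η := fun i η => Finset.le_sup (f := fun i => g i η) (Finset.mem_univ i)
  have hGlt : ∀ η < (#K).ord, G η < (#K).ord := by
    intro η hη
    have h0 : (0 : Ordinal.{0}) < (#K).ord := hreg.ord_pos
    rw [hG]
    refine (Finset.sup_lt_iff (by simpa using h0)).2 fun i _ => hg i η hη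
  -- closed points above each element
  have hclosed : ∀ a : K, ∃ n : K, a < n ∧ ∀ ν < n, toK (G (o ν)) < n := by
    intro a
    obtain ⟨α, ⟨ν0, hν0⟩, h2, -⟩ := hyp fun ν => max a (toK (G (o ν)))
    exact ⟨α, (le_max_left _ _).trans_lt (h2 ν0 hν0),
      fun ν hν => (le_max_right _ _).trans_lt (h2 ν hν)⟩
  choose n hn1 hn2 using hclosed
  have hclosedPt : ∀ (k : K), (∀ ν < k, toK (G (o ν)) < k) → ∀ i, ClosedPt (g i) (o k) := by
    intro k hk i η hη
    obtain hη' := htoK η (hη.trans (olt k))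
    have h1 : toK η < k := toK_lt η k hη
    have h2 := hk _ h1
    rw [hη'] at h2
    exact (hGle i η).trans_lt (lt_of_toK _ _ (hGlt η (hη.trans (olt k))) h2)
  -- failure of `Good`
  have hfail : ∀ ζ : Ordinal.{0}, ∀ t : Fin d → Node.{0}, ∀ j : Ordinal.{0},
      ∃ ξ : Ordinal.{0}, ζ < (#K).ord → (∀ i, t i ∈ level (T i) ζ) → j < σ →
        ξ < (#K).ord ∧ ζ ≤ ξ ∧ ∀ η < (#K).ord, ξ ≤ η → ∀ F : Fin d → Node.{0} → Node.{0},
          (∀ i, ∀ s ∈ level (T i) ξ, F i s ∈ level (T i) η ∧ s ≤ F i s) →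
          ¬ ∀ s : Fin d → Node.{0}, (∀ i, s i ∈ level (T i) ξ ∧ t i ≤ s i) →
            c (fun i => F i (s i)) = j := by
    intro ζ t j
    by_cases hj : j < σ
    · by_cases hζ : ζ < (#K).ord
      · by_cases ht : ∀ i, t i ∈ level (T i) ζ
        · have h1 := hno j hj
          unfold Good at h1
          push Not at h1
          obtain ⟨ξ, h2, h3, h4⟩ := h1 ζ hζ t ht
          refine ⟨ξ, fun _ _ _ => ⟨h2, h3, fun η hη hξη F hF hall => ?_⟩⟩
          obtain ⟨s, hs, hs2⟩ := h4 η hη hξη F hF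
          exact hs2 (hall s hs)
        · exact ⟨0, fun _ h => absurd h ht⟩
      · exact ⟨0, fun h => absurd h hζ⟩
    · exact ⟨0, fun _ _ h => absurd h hj⟩
  choose Xi hXi using hfail
  -- a bound for the `Xi`
  have hbound : ∀ ζ : Ordinal.{0}, ∃ B < (#K).ord, ζ < (#K).ord → ∀ t : Fin d → Node.{0},
      (∀ i, t i ∈ level (T i) ζ) → ∀ j < σ, Xi ζ t j < B := by
    intro ζ
    by_cases hζ : ζ < (#K).ord
    · have hcard : #((∀ i : Fin d, level (T i) ζ) × Iio σ) < Cardinal.lift.{1} #K := by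
        have hinf : ℵ₀ ≤ Cardinal.lift.{1} #K := by
          rw [Cardinal.aleph0_le_lift]; exact hreg.aleph0_le
        rw [Cardinal.mk_prod, Cardinal.lift_id, Cardinal.lift_id]
        refine Cardinal.mul_lt_of_lt hinf ?_ ?_
        · rw [Cardinal.mk_pi, Cardinal.prod_eq_of_fintype, Cardinal.lift_uzero]
          refine Finset.prod_induction _ (fun x => x < Cardinal.lift.{1} #K)
            (fun a b ha hb => Cardinal.mul_lt_of_lt hinf ha hb)
            (Cardinal.one_lt_aleph0.trans_le hinf) fun i _ => ?_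
          have := (hT i).level_small ζ hζ
          simpa using this
        · rw [Cardinal.mk_Iio_ordinal]
          rw [Cardinal.lift_lt]
          exact Cardinal.lt_ord.1 hσ
      obtain ⟨B, hB, h2⟩ := bdd_of_small hreg hcard
        (fun p => Xi ζ (fun i => (p.1 i : Node.{0})) p.2)
        (fun p => (hXi ζ _ _ hζ (fun i => (p.1 i).2) p.2.2).1)
      exact ⟨B, hB, fun _ t ht j hj => h2 (fun i => ⟨t i, ht i⟩, ⟨j, hj⟩)⟩
    · exact ⟨0, hreg.ord_pos, fun h => absurd h hζ⟩
  choose h0 hh0 hh0' using hbound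
  -- the reflection point
  obtain ⟨α, ⟨ν0, hν0⟩, hα, hDns⟩ := hyp fun ν =>
    max (max (toK (h0 (o ν))) (n ν)) (max (toK (G (o ν))) (toK σ))
  have hα1 : ∀ ν < α, h0 (o ν) < o α := fun ν hν =>
    lt_of_toK _ _ (hh0 _) (((le_max_left _ _).trans (le_max_left _ _)).trans_lt (hα ν hν))
  have hα2 : ∀ ν < α, n ν < α := fun ν hν =>
    ((le_max_right _ _).trans (le_max_left _ _)).trans_lt (hα ν hν)
  have hα3 : ∀ ν < α, toK (G (o ν)) < α := fun ν hν =>
    ((le_max_left _ _).trans (le_max_right _ _)).trans_lt (hα ν hν)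
  have hα4 : toK σ < α := ((le_max_right _ _).trans (le_max_right _ _)).trans_lt (hα ν0 hν0)
  have hαc : ∀ i, ClosedPt (g i) (o α) := hclosedPt α hα3
  set a := o α with ha
  -- relations on ordinals from relations on `K`
  set hat : (K → K → Prop) → Ordinal.{0} → Ordinal.{0} → Prop :=
    fun x η θ => ∃ η' θ' : K, o η' = η ∧ o θ' = θ ∧ x η' θ' with hhat
  have hat_o : ∀ (x : K → K → Prop) (η θ : K), hat x (o η) (o θ) ↔ x η θ := by
    intro x η θ
    constructor
    · rintro ⟨η', θ', h1, h2, h3⟩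
      rw [oinj _ _ h1, oinj _ _ h2] at h3
      exact h3
    · exact fun h => ⟨η, θ, rfl, rfl, h⟩
  have hat_agree : ∀ (k : K) (x y : K → K → Prop), Agree k x y →
      ∀ η < o k, ∀ θ < o k, (hat x η θ ↔ hat y η θ) := by
    intro k x y hxy η hη θ hθ
    have h1 := htoK η (hη.trans (olt k))
    have h2 := htoK θ (hθ.trans (olt k))
    rw [← h1, ← h2, hat_o, hat_o]
    exact hxy _ (toK_lt _ _ hη) _ (toK_lt _ _ hθ)
  -- the colouring
  set c' : (Fin d → K → K → Prop) → K → Prop :=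
    fun x ε => o ε = c (fun i => Ψ i (hat (x i)) a) with hc'
  have hcol : IsCol α (toK σ) c' := by
    refine ⟨fun x => ?_, fun x ε ε' h h' => ?_, fun x y hxy ε h => ?_⟩
    · have h1 := hc (fun i => Ψ i (hat (x i)) a)
      have h2 := htoK _ (h1.trans hσ)
      refine ⟨toK (c (fun i => Ψ i (hat (x i)) a)), ?_, h2⟩
      rw [← omono, h2, htoK σ hσ]
      exact h1
    · exact oinj _ _ (h.trans h'.symm)
    · have h1 : ∀ i, Ψ i (hat (x i)) a = Ψ i (hat (y i)) a := fun i =>
        hagree i a (olt α) (hαc i) _ _ (hat_agree α _ _ (hxy i))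
      show o ε = c (fun i => Ψ i (hat (y i)) a)
      rw [show (fun i => Ψ i (hat (y i)) a) = fun i => Ψ i (hat (x i)) a from
        funext fun i => (h1 i).symm]
      exact h
  obtain ⟨ζ0, hζ0, τ, ε, hD⟩ := hDns d (toK σ) hα4 c' hcol
  set z1 := n ζ0 with hz1
  have hz1α : z1 < α := hα2 _ hζ0
  have hζz : ζ0 < z1 := hn1 ζ0
  have hz1c : ∀ i, ClosedPt (g i) (o z1) := hclosedPt z1 (hn2 ζ0)
  set t : Fin d → Node.{0} := fun i => Ψ i (hat (τ i)) (o z1) with ht
  have htl : ∀ i, t i ∈ level (T i) (o z1) := fun i => hlev i _ _ (olt z1)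
  -- the colour is attained
  have hj : o ε < σ := by
    obtain ⟨μ, hμ, z, hz, hz'⟩ := hD ζ0 hζ0 le_rfl
    choose ν hν1 hν2 using fun i => hz' i (τ i) (fun _ _ _ _ => Iff.rfl)
    have h1 := hz ν hν1
    rw [show o ε = c (fun i => Ψ i (hat (z i (ν i))) a) from h1]
    exact hc _
  obtain ⟨hξ1, hξ2, hξ3⟩ := hXi (o z1) t (o ε) (olt z1) htl hj
  set ξ := Xi (o z1) t (o ε) with hξ
  have hξa : ξ < a := (hh0' (o z1) (olt z1) t htl (o ε) hj).trans (hα1 z1 hz1α)
  -- a closed point above `ξ`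
  have hξα : toK ξ < α := toK_lt _ _ hξa
  set x1 := n (toK ξ) with hx1
  have hx1α : x1 < α := hα2 _ hξα
  have hξx1 : ξ < o x1 := by
    have := (omono _ _).2 (hn1 (toK ξ))
    rwa [htoK ξ hξ1] at this
  have hx1c : ∀ i, ClosedPt (g i) (o x1) := hclosedPt x1 (hn2 (toK ξ))
  have hz1x1 : o z1 ≤ o x1 := hξ2.trans hξx1.le
  have hζ0x1 : ζ0 ≤ x1 := hζz.le.trans ((ole _ _).1 hz1x1)
  obtain ⟨μ, hμ, z, hz, hz'⟩ := hD x1 hx1α hζ0x1
  -- extensions
  have hexist : ∀ i, ∀ s ∈ level (T i) ξ, ∃ u : Node.{0}, (u ∈ level (T i) a ∧ s ≤ u) ∧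
      (t i ≤ s → ∃ ν, ν < μ ∧ u = Ψ i (hat (z i ν)) a) := by
    intro i s hs
    by_cases hts : t i ≤ s
    · obtain ⟨s', hs'T, hs'l, hs'⟩ := habove (hT i) (b := {s}) (singleton_subset_iff.2 hs.1)
        IsChain.singleton (olt x1) (by rintro x rfl; rw [hs.2]; exact hξx1.le)
      have hss' : s ≤ s' := hs' s rfl
      obtain ⟨y, hy1, hy2⟩ := hext i (o z1) (o x1) hz1x1 (olt x1) (hz1c i) (hx1c i)
        (hat (τ i)) s' ⟨hs'T, hs'l⟩ (hts.trans hss')
      have hyag : Agree ζ0 (fun η θ => y (o η) (o θ)) (τ i) := by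
        intro η hη θ hθ
        have h1 := hy1 (o η) ((omono _ _).2 (hη.trans hζz)) (o θ) ((omono _ _).2 (hθ.trans hζz))
        rw [hat_o] at h1
        exact h1
      obtain ⟨ν, hν1, hν2⟩ := hz' i (fun η θ => y (o η) (o θ)) hyag
      have h3 : Ψ i (hat (z i ν)) (o x1) = s' := by
        rw [← hy2]
        refine hagree i (o x1) (olt x1) (hx1c i) _ _ fun η hη θ hθ => ?_
        have h4 := htoK η (hη.trans (olt x1))
        have h5 := htoK θ (hθ.trans (olt x1))
        have h6 := hν2 _ (toK_lt _ _ hη) _ (toK_lt _ _ hθ)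
        rw [← h4, ← h5, hat_o]
        exact h6
      refine ⟨Ψ i (hat (z i ν)) a, ⟨hlev i _ _ (olt α), ?_⟩, fun _ => ⟨ν, hν1, rfl⟩⟩
      refine hss'.trans ?_
      rw [← h3]
      exact hmono i _ _ _ ((ole _ _).2 hx1α.le) (olt α)
    · obtain ⟨u, hu1, hu2, hu3⟩ := habove (hT i) (b := {s}) (singleton_subset_iff.2 hs.1)
        IsChain.singleton (olt α) (by rintro x rfl; rw [hs.2]; exact hξa.le)
      exact ⟨u, ⟨⟨hu1, hu2⟩, hu3 s rfl⟩, fun h => absurd h hts⟩
  choose! F hF1 hF2 using hexist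
  refine hξ3 a (olt α) hξa.le F hF1 fun s hs => ?_
  choose ν hν1 hν2 using fun i => hF2 i (s i) (hs i).1 (hs i).2
  have h7 := hz ν hν1
  rw [show (fun i => F i (s i)) = fun i => Ψ i (hat (z i (ν i))) a from
    funext fun i => hν2 i]
  exact h7.symm

end Pool.Agent.TH760
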